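import Pool.Agent.U945.LA.Many

set_option autoImplicit false

/-!
# Sets of algebraic numbers of finite rank: the consequences together
-/

namespace Pool.Agent.U945.LA

open Finset Module
open Pool.Agent.H301R2.SSE (QB mem_QB Lt Lt_one Lt_log Lg mem_Lg)

/-- the coset with exponents `M` -/
def Co {d : ℕ} (y : Fin d → ℂˣ) (M : Finset (Fin d → ℤ)) : Set (Fin d → ℂˣ) :=
  {z | ∀ m ∈ M, ∏ i, z i ^ m i = ∏ i, y i ^ m i}

/-- the algebraic subset -/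
def Ze {d s : ℕ} (P : Fin s → MvPolynomial (Fin d) ℂ) : Set (Fin d → ℂˣ) :=
  {z | ∀ j, MvPolynomial.eval (fun i => (z i : ℂ)) (P j) = 0}

theorem pack {A : Set ℂˣ} (halg : ∀ x ∈ A, IsAlgebraic ℚ (x : ℂ)) {B : ℕ} (hB : RkLe A B)
    (d : ℕ) :
    (∀ (s : ℕ) (P : Fin s → MvPolynomial (Fin d) ℂ),
      ∃ T : Finset ((Fin d → ℂˣ) × Finset (Fin d → ℤ)),
        (∀ t ∈ T, (∀ i, t.1 i ∈ A) ∧ Co t.1 t.2 ⊆ Ze P) ∧
        ∀ x : Fin d → ℂˣ, (∀ i, x i ∈ A) → x ∈ Ze P → ∃ t ∈ T, x ∈ Co t.1 t.2) ∧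
    (∀ (s : ℕ) (P : Fin s → MvPolynomial (Fin d) ℂ),
      (∀ y M, Co y M ⊆ Ze P → (Co y M).Finite) → {x | (∀ i, x i ∈ A) ∧ x ∈ Ze P}.Finite) ∧
    (∀ a : Fin d → ℂ, {x : Fin d → ℂˣ | (∀ i, x i ∈ A) ∧ ∑ i, a i * (x i : ℂ) = 1 ∧
      ∀ J : Finset (Fin d), J.Nonempty → ∑ i ∈ J, a i * (x i : ℂ) ≠ 0}.Finite) := by
  have two : ∀ (s : ℕ) (P : Fin s → MvPolynomial (Fin d) ℂ),
      ∃ T : Finset ((Fin d → ℂˣ) × Finset (Fin d → ℤ)),
        (∀ t ∈ T, (∀ i, t.1 i ∈ A) ∧ Co t.1 t.2 ⊆ Ze P) ∧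
        ∀ x : Fin d → ℂˣ, (∀ i, x i ∈ A) → x ∈ Ze P → ∃ t ∈ T, x ∈ Co t.1 t.2 := by
    intro s P
    obtain ⟨T, h1, h2⟩ := ml_set halg hB P
    exact ⟨T, fun t ht => ⟨(h1 t ht).1, fun z hz => (h1 t ht).2 z hz⟩, fun x hx hz => h2 x hx hz⟩
  refine ⟨two, fun s P hfin => ?_, fun a => ?_⟩
  · obtain ⟨T, hT1, hT2⟩ := two s P
    refine (Set.Finite.biUnion T.finite_toSet fun t ht => hfin _ _ (hT1 t ht).2).subset ?_
    rintro x ⟨hx, hz⟩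
    obtain ⟨t, ht, h⟩ := hT2 x hx hz
    simp only [Set.mem_iUnion]
    exact ⟨t, ht, h⟩
  · exact hyp_finite (E := {x : Fin d → ℂˣ | ∀ i, x i ∈ A}) (fun s P => by
      obtain ⟨T, hT1, hT2⟩ := ml_set halg hB P
      exact ⟨T, fun t ht => (hT1 t ht).2, hT2⟩) a

/-- two elements of a set of rank at most one -/
theorem dep_of_one {A : Set ℂˣ} (hA : RkLe A 1) {u v : ℂˣ} (hu : u ∈ A) (hv : v ∈ A) :
    ∃ a b : ℤ, (a ≠ 0 ∨ b ≠ 0) ∧ u ^ a = v ^ b := by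
  by_contra hcon
  push Not at hcon
  have := hA 2 ![u, v] (fun j => by fin_cases j; exacts [hu, hv]) (fun k hk => by
    rw [Fin.prod_univ_two] at hk
    simp only [Matrix.cons_val_zero, Matrix.cons_val_one] at hk
    by_contra hne
    have h1 : k 0 ≠ 0 ∨ -k 1 ≠ 0 := by
      by_contra h2
      push Not at h2
      apply hne
      funext j
      fin_cases j
      · exact h2.1
      · exact neg_eq_zero.1 h2.2
    apply hcon (k 0) (-k 1) h1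
    rw [zpow_neg]
    exact eq_inv_of_mul_eq_one_left hk)
  omega

/-- lines, for a set such that the quotients are in a set of bounded rank -/
theorem line_coset {C : ℕ} (hC : ∀ (A : Set ℂˣ) (B : ℕ), RkLe A B → ∀ a b : ℂ, a ≠ 0 → b ≠ 0 →
    ∀ E : Finset (ℂˣ × ℂˣ), (∀ e ∈ E, e.1 ∈ A ∧ e.2 ∈ A ∧ a * e.1 + b * e.2 = 1) →
      E.card ≤ C ^ (B + 1)) {F : Set ℂˣ} {B : ℕ}
    (hF : ∀ x ∈ F, RkLe {g | ∃ y ∈ F, g = y / x} B) (a b : ℂ) (ha : a ≠ 0) (hb : b ≠ 0)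
    (E : Finset (ℂˣ × ℂˣ)) (hE : ∀ e ∈ E, e.1 ∈ F ∧ e.2 ∈ F ∧ a * e.1 + b * e.2 = 1) :
    E.card ≤ C ^ (B + 1) := by
  classical
  rcases E.eq_empty_or_nonempty with rfl | ⟨e₀, he₀⟩
  · simp
  have hx := (hE e₀ he₀).1
  set x := e₀.1 with hxd
  have h1 := hC _ B (hF x hx) (a * x) (b * x) (mul_ne_zero ha x.ne_zero) (mul_ne_zero hb x.ne_zero)
    (E.image fun e => (e.1 / x, e.2 / x)) (by
      intro e he
      rw [Finset.mem_image] at he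
      obtain ⟨e', he', rfl⟩ := he
      obtain ⟨h1, h2, h3⟩ := hE e' he'
      refine ⟨⟨_, h1, rfl⟩, ⟨_, h2, rfl⟩, ?_⟩
      dsimp only
      rw [Units.val_div_eq_div_val, Units.val_div_eq_div_val, ← h3]
      have := x.ne_zero
      field_simp)
  rwa [Finset.card_image_of_injective] at h1
  intro e e' h
  have h2 := Prod.ext_iff.1 h
  dsimp only at h2
  exact Prod.ext (div_left_injective h2.1) (div_left_injective h2.2)

end Pool.Agent.U945.LA
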