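import Pool.Agent.U945.LA.Pack

set_option autoImplicit false

/-!
# The number `1` is not a homogeneous linear form in logarithms
-/

namespace Pool.Agent.U945.LA

open Finset Module
open Pool.Agent.U945.RD (hypK_Lt abs_rank_vec)
open Pool.Agent.H301R2.SSE (QB mem_QB Lt Lt_one Lt_log Lg mem_Lg LB LB_log)

theorem one_notMem : (1 : ℂ) ∉ LB := by
  intro h
  rw [LB, Submodule.mem_span_set'] at h
  obtain ⟨n, c, g, hg⟩ := h
  set M : Submodule ℚ ℂ := Submodule.span ℚ (Set.range fun i => (g i : ℂ)) with hM
  have : FiniteDimensional ℚ M := by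
    rw [hM]
    exact FiniteDimensional.span_of_finite ℚ (Set.finite_range _)
  set B := Module.finBasis ℚ M with hB
  have hML : M ≤ Lg := by
    rw [hM, Submodule.span_le]
    rintro _ ⟨j, rfl⟩
    exact mem_Lg.2 (g j).2
  have hmem : ∀ j, (g j : ℂ) ∈ M := fun j => Submodule.subset_span ⟨j, rfl⟩
  set m : Fin n → Fin (finrank ℚ M) → ℚ := fun j l => B.repr ⟨g j, hmem j⟩ l with hm
  have hrep : ∀ j, (g j : ℂ) = ∑ l, (m j l : ℂ) * (B l : ℂ) := by
    intro j
    have h1 := B.sum_repr ⟨g j, hmem j⟩
    have h2 := congrArg (fun u : M => (u : ℂ)) h1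
    simp only [Submodule.coe_sum, Submodule.coe_smul, Rat.smul_def] at h2
    exact h2.symm
  have hBli : LinearIndependent ℚ (fun l => (B l : ℂ)) :=
    B.linearIndependent.map' M.subtype (Submodule.ker_subtype _)
  have h1 : (-1 : ℂ) + ∑ l, (∑ j, (c j : ℂ) * (m j l : ℂ)) * (B l : ℂ) = 0 := by
    have h2 : ∑ l, (∑ j, (c j : ℂ) * (m j l : ℂ)) * (B l : ℂ) = 1 := by
      rw [← hg]
      simp only [Finset.sum_mul]
      rw [Finset.sum_comm]
      apply Finset.sum_congr rfl
      intro j _
      rw [Algebra.smul_def]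
      conv_rhs => rw [hrep j, Finset.mul_sum]
      apply Finset.sum_congr rfl
      intro l _
      change _ = (c j : ℂ) * _
      ring
    rw [h2]
    ring
  have h2 := (Pool.Agent.H297R2.baker_inhom (fun l => (B l : ℂ)) (fun l => mem_Lg.1 (hML (B l).2))
    hBli (-1) (isAlgebraic_one.neg) (fun l => ∑ j, (c j : ℂ) * (m j l : ℂ)) (fun l => by
      refine mem_QB.1 (sum_mem (fun j _ => mul_mem (c j).2 ?_))
      exact mem_QB.2 (isAlgebraic_algebraMap (m j l))) h1).1
  norm_num at h2

/-- the strong six exponentials theorem for one multiplier -/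
theorem rank_mul {t : ℂ} (ht : Transcendental ℚ t) {n : ℕ} {w : Fin n → ℂ}
    (hw : LinearIndependent QB w) (hwL : ∀ i, w i ∈ Lt) (htw : ∀ i, t * w i ∈ Lt) : n ≤ 2 := by
  have h1 := abs_rank_vec (n := n) (d := 1) hypK_Lt (⊥ : Submodule QB ℂ) (w := fun i _ => w i)
    (by
      rw [Fintype.linearIndependent_iff] at hw ⊢
      intro g hg
      apply hw g
      have := congrFun hg 0
      rw [Finset.sum_apply] at this
      exact this) (fun j _ => hwL j) (lam := fun _ => t)
    (by
      rw [linearIndependent_finCons]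
      constructor
      · rw [linearIndependent_unique_iff]
        intro h0
        exact ht (by
          change t = 0 at h0
          rw [h0]
          exact isAlgebraic_zero)
      · intro h1
        rw [Submodule.mem_span_range_iff_exists_fun] at h1
        obtain ⟨c, hc⟩ := h1
        rw [Fin.sum_univ_one, Algebra.smul_def] at hc
        have hc0 : (c 0 : ℂ) ≠ 0 := by
          intro h0
          change (c 0 : ℂ) * t = 1 at hc
          rw [h0, zero_mul] at hc
          exact zero_ne_one hc
        apply ht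
        have : t = (c 0 : ℂ)⁻¹ := by
          change (c 0 : ℂ) * t = 1 at hc
          field_simp
          rw [mul_comm]
          exact hc
        rw [this]
        exact (mem_QB.1 (c 0).2).inv)
    (fun j => by
      rw [Fin.sum_univ_one]
      exact Submodule.mem_sup_left (htw j))
  rw [finrank_bot] at h1
  omega

/-- logarithms and one inhomogeneous linear form -/
theorem li_cons {m : ℕ} {v : Fin m → ℂ} (halg : ∀ i, IsAlgebraic ℚ (Complex.exp (v i)))
    (hli : LinearIndependent ℚ v) {a l : ℂ} (ha : IsAlgebraic ℚ a) (ha0 : a ≠ 0) (hl : l ∈ LB) :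
    LinearIndependent QB (Fin.cons (l + a) v : Fin (m + 1) → ℂ) := by
  rw [linearIndependent_finCons]
  refine ⟨Pool.Agent.HP778.indep_QB halg hli, fun h => one_notMem ?_⟩
  have h1 : Submodule.span QB (Set.range v) ≤ LB := by
    rw [Submodule.span_le]
    rintro _ ⟨i, rfl⟩
    exact LB_log (halg i)
  have h2 : a ∈ LB := by
    have := sub_mem (h1 h) hl
    rwa [add_sub_cancel_left] at this
  have h3 := LB.smul_mem (⟨a⁻¹, mem_QB.2 ha.inv⟩ : QB) h2
  rw [Algebra.smul_def] at h3
  have h4 : (algebraMap QB ℂ ⟨a⁻¹, mem_QB.2 ha.inv⟩) * a = 1 := inv_mul_cancel₀ ha0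
  rwa [h4] at h3

end Pool.Agent.U945.LA
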