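import Pool.Agent.U945.LA.GMain
import Pool.Agent.U945.AL.Div

set_option autoImplicit false
set_option linter.style.haveILetI false
set_option linter.unusedSectionVars false

/-!
# Sets of algebraic numbers with few multiplicatively independent elements
-/

namespace Pool.Agent.U945.LA

open Finset Module
open Pool.Agent.H301R2.SSE (QB mem_QB Lt Lt_one Lt_log Lg mem_Lg)

/-- at most `B` multiplicatively independent elements -/
def RkLe (A : Set ℂˣ) (B : ℕ) : Prop :=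
  ∀ (n : ℕ) (X : Fin n → ℂˣ), (∀ j, X j ∈ A) → (∀ k : Fin n → ℤ, ∏ j, X j ^ k j = 1 → k = 0) → n ≤ B

/-- the rank, from a bound for logarithms -/
theorem rkLe_of_logs {A : Set ℂˣ} {R : ℂ → Prop} {B : ℕ}
    (hR : ∀ (m : ℕ) (l : Fin m → ℂ), (∀ i, IsAlgebraic ℚ (Complex.exp (l i))) →
      LinearIndependent ℚ l → (∀ i, R (l i)) → m ≤ B)
    (hA : ∀ x ∈ A, IsAlgebraic ℚ (x : ℂ) ∧ ∃ l : ℂ, (∃ n : ℕ, 0 < n ∧
      Complex.exp (n * l) = (x : ℂ) ^ n) ∧ R l) : RkLe A B := by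
  intro n X hX hmi
  choose hXa l hl hRl using fun j => hA (X j) (hX j)
  have hlog : ∀ j, IsLog (fun _ : Fin 1 => X j) (fun _ => l j) := fun j _ => hl j
  have hli := li_of_mi hlog (fun k hk => hmi k (by
    have := congrFun hk 0
    rw [Finset.prod_apply] at this
    exact this))
  refine hR n l (fun i => ?_) ?_ hRl
  · exact mem_Lg.1 ((hlog i).mem_Lg (fun _ => hXa i) 0)
  · rw [Fintype.linearIndependent_iff] at hli ⊢
    intro g hg
    apply hli g
    funext i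
    rw [Finset.sum_apply]
    exact hg

/-- a maximal independent family in a set -/
theorem max_indep_set {A : Set ℂˣ} {N : ℕ} (h : RkLe A N) :
    ∃ (n : ℕ) (X : Fin n → ℂˣ), n ≤ N ∧ (∀ j, X j ∈ A) ∧
      ∀ y ∈ A, ∃ m : ℕ, 0 < m ∧ ∃ a : Fin n → ℤ, y ^ m = ∏ j, X j ^ a j := by
  classical
  set S : Set ℕ := {n | ∃ X : Fin n → ℂˣ, (∀ j, X j ∈ A) ∧
    ∀ k : Fin n → ℤ, ∏ j, X j ^ k j = 1 → k = 0} with hS
  have hSf : S.Finite := (Set.finite_Iic N).subset (fun n ⟨x, hx, hx'⟩ => h n x hx hx')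
  have hSne : S.Nonempty := ⟨0, Fin.elim0, fun i => i.elim0, fun k _ => Subsingleton.elim _ _⟩
  obtain ⟨n, hn, hmax⟩ := hSf.exists_maximal hSne
  obtain ⟨X, hX, hmi⟩ := hn
  refine ⟨n, X, h n X hX hmi, hX, fun y hy => ?_⟩
  by_contra hcon
  have hmem : n + 1 ∈ S := by
    refine ⟨Fin.snoc X y, fun j => ?_, fun k hk => ?_⟩
    · refine Fin.lastCases ?_ (fun j => ?_) j
      · rw [Fin.snoc_last]; exact hy
      · rw [Fin.snoc_castSucc]; exact hX j
    · rw [Fin.prod_univ_castSucc] at hk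
      simp only [Fin.snoc_castSucc, Fin.snoc_last] at hk
      have hl : k (Fin.last n) = 0 := by
        by_contra hl
        apply hcon
        have h1 : y ^ k (Fin.last n) = ∏ j : Fin n, X j ^ (-k j.castSucc) := by
          have h2 : ∏ j : Fin n, X j ^ (-k j.castSucc) = (∏ j : Fin n, X j ^ k j.castSucc)⁻¹ := by
            rw [← Finset.prod_inv_distrib]
            exact Finset.prod_congr rfl fun j _ => zpow_neg _ _
          rw [h2]
          exact eq_inv_of_mul_eq_one_right hk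
        rcases Int.natAbs_eq (k (Fin.last n)) with h3 | h3
        · refine ⟨(k (Fin.last n)).natAbs, Int.natAbs_pos.2 hl, fun j => -k j.castSucc, ?_⟩
          rw [h3, zpow_natCast] at h1
          exact h1
        · refine ⟨(k (Fin.last n)).natAbs, Int.natAbs_pos.2 hl, fun j => k j.castSucc, ?_⟩
          rw [h3, zpow_neg, zpow_natCast] at h1
          have h4 := congrArg (fun u => u⁻¹) h1
          rw [inv_inv, ← Finset.prod_inv_distrib] at h4
          rw [h4]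
          exact Finset.prod_congr rfl fun j _ => by rw [zpow_neg, inv_inv]
      rw [hl, zpow_zero, mul_one] at hk
      have h5 := hmi (fun j => k j.castSucc) hk
      funext j
      refine Fin.lastCases ?_ (fun j => ?_) j
      · exact hl
      · exact congrFun h5 j
  have := hmax hmem (by omega)
  omega

/-- cosets, for sets of points given by the coordinates -/
theorem ml_set {A : Set ℂˣ} (halg : ∀ x ∈ A, IsAlgebraic ℚ (x : ℂ)) {B : ℕ} (hB : RkLe A B)
    {d s : ℕ} (P : Fin s → MvPolynomial (Fin d) ℂ) :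
    ∃ T : Finset ((Fin d → ℂˣ) × Finset (Fin d → ℤ)),
      (∀ t ∈ T, (∀ i, t.1 i ∈ A) ∧ ∀ z : Fin d → ℂˣ, (∀ m ∈ t.2, chrU m z = chrU m t.1) →
        ∀ j, MvPolynomial.eval (fun i => (z i : ℂ)) (P j) = 0) ∧
      ∀ x : Fin d → ℂˣ, (∀ i, x i ∈ A) →
        (∀ j, MvPolynomial.eval (fun i => (x i : ℂ)) (P j) = 0) →
        ∃ t ∈ T, ∀ m ∈ t.2, chrU m x = chrU m t.1 := by
  classical
  obtain ⟨n, X, -, hX, hmax⟩ := max_indep_set hB
  exact cosets_cplx {x : Fin d → ℂˣ | ∀ i, x i ∈ A} (univ.image X) (fun u hu => by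
    rw [Finset.mem_image] at hu
    obtain ⟨j, -, rfl⟩ := hu
    exact halg _ (hX j)) (fun x hx i => by
    obtain ⟨m, hm, a, ha⟩ := hmax (x i) (hx i)
    refine ⟨m, hm, ?_⟩
    rw [ha]
    refine Subgroup.prod_mem _ fun j _ => Subgroup.zpow_mem _ (Subgroup.subset_closure ?_) _
    rw [Finset.mem_coe, Finset.mem_image]
    exact ⟨j, mem_univ _, rfl⟩) P

/-- finiteness of the nondegenerate points on a hyperplane, from the statement on cosets -/
theorem hyp_finite {d : ℕ} {E : Set (Fin d → ℂˣ)}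
    (two : ∀ (s : ℕ) (P : Fin s → MvPolynomial (Fin d) ℂ),
      ∃ T : Finset ((Fin d → ℂˣ) × Finset (Fin d → ℤ)),
        (∀ t ∈ T, ∀ z : Fin d → ℂˣ, (∀ m ∈ t.2, chrU m z = chrU m t.1) →
          ∀ j, MvPolynomial.eval (fun i => (z i : ℂ)) (P j) = 0) ∧
        ∀ x ∈ E, (∀ j, MvPolynomial.eval (fun i => (x i : ℂ)) (P j) = 0) →
          ∃ t ∈ T, ∀ m ∈ t.2, chrU m x = chrU m t.1) (a : Fin d → ℂ) :
    {x | x ∈ E ∧ ∑ i, a i * (x i : ℂ) = 1 ∧
      ∀ J : Finset (Fin d), J.Nonempty → ∑ i ∈ J, a i * (x i : ℂ) ≠ 0}.Finite := by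
  set P : Fin 1 → MvPolynomial (Fin d) ℂ := fun _ =>
    ∑ i, MvPolynomial.C (a i) * MvPolynomial.X i - 1 with hP
  have h1 : ∀ (z : Fin d → ℂˣ) j, MvPolynomial.eval (fun i => (z i : ℂ)) (P j) =
      ∑ i, a i * (z i : ℂ) - 1 := by
    intro z j
    rw [hP]
    simp
  obtain ⟨T, hT1, hT2⟩ := two 1 P
  refine (Set.Finite.biUnion T.finite_toSet (t := fun t => {x | (∀ m ∈ t.2, chrU m x = chrU m t.1) ∧
    ∀ J : Finset (Fin d), J.Nonempty → ∑ i ∈ J, a i * (x i : ℂ) ≠ 0}) fun t ht => ?_).subset ?_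
  · apply Set.Subsingleton.finite
    rintro x ⟨hx, hxn⟩ y ⟨hy, -⟩
    exact (nondeg a t.1 t.2 (fun z hz => by
      have := hT1 t ht z hz 0
      rw [h1 z 0, sub_eq_zero] at this
      exact this) x hx hxn y hy).symm
  · rintro x ⟨hx, hz, hn⟩
    obtain ⟨t, ht, h⟩ := hT2 x hx (fun j => by rw [h1 x j, hz, sub_self])
    simp only [Set.mem_iUnion]
    exact ⟨t, ht, h, hn⟩

/-- **Lines**, with an absolute constant -/
theorem line_set : ∃ C : ℕ, 1 ≤ C ∧ ∀ (A : Set ℂˣ) (B : ℕ), RkLe A B → ∀ a b : ℂ, a ≠ 0 → b ≠ 0 →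
    ∀ E : Finset (ℂˣ × ℂˣ), (∀ e ∈ E, e.1 ∈ A ∧ e.2 ∈ A ∧ a * e.1 + b * e.2 = 1) →
      E.card ≤ C ^ (B + 1) := by
  classical
  obtain ⟨C, hC1, hC⟩ := Pool.Agent.U945.AL.line
  refine ⟨C, hC1, fun A B hB a b ha hb E hE => ?_⟩
  obtain ⟨n, X, hn, hX, hmax⟩ := max_indep_set hB
  have hdiv : ∀ y ∈ A, Pool.Agent.N175.BG.InDiv (fun j => (X j : ℂ)) (y : ℂ) := by
    intro y hy
    obtain ⟨m, hm, k, hk⟩ := hmax y hy
    refine ⟨m, hm, k, ?_⟩
    rw [← Units.val_pow_eq_pow_val, hk, Units.coe_prod]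
    exact Finset.prod_congr rfl fun j _ => Units.val_zpow_eq_zpow_val _ _
  have h1 := hC n ℂ (fun j => (X j : ℂ)) (fun j => (X j : ℂ)) (fun j => (X j).ne_zero)
    (fun j => (X j).ne_zero) a b ha hb (E.image fun e => ((e.1 : ℂ), (e.2 : ℂ))) (by
      intro e he
      rw [Finset.mem_image] at he
      obtain ⟨e', he', rfl⟩ := he
      obtain ⟨h1, h2, h3⟩ := hE e' he'
      exact ⟨h3, e'.1.ne_zero, e'.2.ne_zero, hdiv _ h1, hdiv _ h2⟩)
  rw [Finset.card_image_of_injective] at h1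
  · exact h1.trans (Nat.pow_le_pow_right hC1 (by omega))
  · intro e e' h
    have h2 := Prod.ext_iff.1 h
    exact Prod.ext (Units.ext h2.1) (Units.ext h2.2)

end Pool.Agent.U945.LA
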