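import Pool.Agent.HP778.Main
import Pool.Agent.U945.LA.Exc

set_option autoImplicit false

/-!
# Logarithms with multipliers of bounded degree, and several further terms
-/

namespace Pool.Agent.U945.LA

open Module Finset
open Pool.Agent.W254.HP
open Pool.Agent.HP778 (hyper_Lt indep_QB indep_cons zV finrank_zV_le mem_zV aeval_mem_box rank_ratio)
open Pool.Agent.H301R2.SSE (QB mem_QB Lt Lt_mul Lt_alg Lt_log Lt_one)

/-- `x = P(t) / Q(t)`, `y_k = S_k(t) / Q(t)` with polynomials of degree at most `D` in each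
variable -/
def IsQuots {r s : ℕ} (D : ℕ) (t : Fin r → ℂ) (x : ℂ) (y : Fin s → ℂ) : Prop :=
  ∃ (P Q : MvPolynomial (Fin r) QB) (S : Fin s → MvPolynomial (Fin r) QB),
    (∀ i, P.degreeOf i ≤ D) ∧ (∀ i, Q.degreeOf i ≤ D) ∧ (∀ k i, (S k).degreeOf i ≤ D) ∧
    MvPolynomial.aeval t Q ≠ 0 ∧ x = MvPolynomial.aeval t P / MvPolynomial.aeval t Q ∧
    ∀ k, y k = MvPolynomial.aeval t (S k) / MvPolynomial.aeval t Q

theorem finrank_sup_le {k V ι : Type} [Field k] [AddCommGroup V] [Module k V] (S : Finset ι)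
    (A : ι → Submodule k V) [∀ i, FiniteDimensional k (A i)] :
    finrank k (S.sup A : Submodule k V) ≤ ∑ i ∈ S, finrank k (A i) := by
  classical
  induction S using Finset.induction_on with
  | empty => simp
  | insert i S hi ih =>
    rw [Finset.sup_insert, Finset.sum_insert hi]
    exact (Submodule.finrank_add_le_finrank_add_finrank _ _).trans (by omega)

theorem many_aux {r s : ℕ} (t : Fin r → ℂ) (z : Fin s → ℂ) {D : ℕ} (hD : 1 ≤ D) {m : ℕ}
    (l x : Fin m → ℂ) (y : Fin m → Fin s → ℂ) (hl : LinearIndependent QB l) (hlL : ∀ i, l i ∈ Lt)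
    (hxy : ∀ i, IsQuots D t (x i) (y i)) (hx : ∀ i, Transcendental ℚ (x i))
    (hw : ∀ i, x i * l i + ∑ k, y i k * z k ∈ Lt) :
    m ≤ 2 ^ (r + 1) * ((2 * D) ^ r + s - 1) := by
  classical
  choose P Q S hP hQ hS hQ0 hxe hye using hxy
  set W : Submodule QB ℂ := (univ : Finset (Fin s)).sup fun k => zV (z k) (boxV t (2 * D)) with hW
  have hWr : finrank QB W ≤ s * finrank QB (boxV t (2 * D)) := by
    have h1 : finrank QB W ≤ ∑ k : Fin s, finrank QB (zV (z k) (boxV t (2 * D))) := by
      rw [hW]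
      exact finrank_sup_le univ _
    refine h1.trans ?_
    calc ∑ k : Fin s, finrank QB (zV (z k) (boxV t (2 * D))) ≤
        ∑ _k : Fin s, finrank QB (boxV t (2 * D)) :=
          Finset.sum_le_sum fun k _ => finrank_zV_le _ _
      _ = s * finrank QB (boxV t (2 * D)) := by simp
  have h1 : m * finrank QB (boxV t D) ≤ 2 * (finrank QB W +
      finrank QB (boxV t (2 * D)) * (finrank QB (boxV t (2 * D)) - 1)) := by
    refine rank_ratio hyper_Lt l (fun i => x i * l i + ∑ k, y i k * z k)
      (fun i => MvPolynomial.aeval t (P i)) (fun i => MvPolynomial.aeval t (Q i))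
      (fun i => ∑ k, MvPolynomial.aeval t (S i k) * z k) hl hlL hw ?_ hQ0 ?_
      (boxV t D) (boxV t (2 * D)) W ?_ ?_ ?_
    · intro i
      rw [mul_add, Finset.mul_sum, hxe]
      have := hQ0 i
      congr 1
      · field_simp
      · refine Finset.sum_congr rfl fun k _ => ?_
        rw [hye]
        field_simp
    · intro i a ha
      apply hx i
      have : x i = (a : ℂ) := by
        rw [hxe i, ← ha, mul_div_cancel_right₀ _ (hQ0 i)]
        rfl
      rw [this]
      exact mem_QB.mp a.2
    · intro b hb i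
      exact box_mul t D (D + 1) (2 * D) (by omega) b hb _ (aeval_mem_box t D _ (hP i))
    · intro b hb i
      exact box_mul t D (D + 1) (2 * D) (by omega) b hb _ (aeval_mem_box t D _ (hQ i))
    · intro b hb i
      rw [Finset.mul_sum]
      refine Submodule.sum_mem _ fun k _ => ?_
      refine (Finset.le_sup (f := fun k => zV (z k) (boxV t (2 * D))) (mem_univ k)) ?_
      rw [← mul_assoc]
      exact mem_zV (box_mul t D (D + 1) (2 * D) (by omega) b hb _ (aeval_mem_box t D _ (hS i k)))
  have hb := finrank_boxV_pos t hD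
  have h4 := finrank_boxV_le t (2 * D)
  have h5 := boxV_double t D
  have hc := finrank_boxV_pos t (N := 2 * D) (by omega)
  set c := finrank QB (boxV t (2 * D)) with hcdef
  set b := finrank QB (boxV t D) with hbdef
  have h6 : s * c + c * (c - 1) = c * (c + s - 1) := by
    obtain ⟨c', hc'⟩ : ∃ c', c = c' + 1 := ⟨c - 1, by omega⟩
    have e1 : c' + 1 + s - 1 = c' + s := by omega
    rw [hc', Nat.add_sub_cancel, e1]; ring
  have h7 : m * b ≤ (2 ^ (r + 1) * ((2 * D) ^ r + s - 1)) * b := by
    calc m * b ≤ 2 * (finrank QB W + c * (c - 1)) := h1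
      _ ≤ 2 * (s * c + c * (c - 1)) := by omega
      _ = 2 * (c * (c + s - 1)) := by rw [h6]
      _ ≤ 2 * ((2 ^ r * b) * ((2 * D) ^ r + s - 1)) :=
        Nat.mul_le_mul_left _ (Nat.mul_le_mul h5 (by omega))
      _ = (2 ^ (r + 1) * ((2 * D) ^ r + s - 1)) * b := by ring
  exact Nat.le_of_mul_le_mul_right h7 hb

/-- independent logarithms -/
theorem many {r s : ℕ} (t : Fin r → ℂ) (z : Fin s → ℂ) {D : ℕ} (hD : 1 ≤ D) {m : ℕ}
    (l : Fin m → ℂ) (halg : ∀ i, IsAlgebraic ℚ (Complex.exp (l i)))
    (hli : LinearIndependent ℚ l)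
    (h : ∀ i, ∃ x y, IsQuots D t x y ∧ Transcendental ℚ x ∧ x * l i + ∑ k, y k * z k ∈ Lt) :
    m ≤ 2 ^ (r + 1) * ((2 * D) ^ r + s - 1) := by
  choose x y hxy hx hw using h
  exact many_aux t z hD l x y (indep_QB halg hli) (fun i => Lt_log (halg i)) hxy hx hw

/-- the same if one of the numbers `t j` is a transcendental linear form in logarithms -/
theorem many' {r s : ℕ} (t : Fin r → ℂ) (z : Fin s → ℂ) {D : ℕ} (hD : 1 ≤ D) (j : Fin r)
    (htr : Transcendental ℚ (t j)) (htL : t j ∈ Lt) {m : ℕ}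
    (l : Fin m → ℂ) (halg : ∀ i, IsAlgebraic ℚ (Complex.exp (l i)))
    (hli : LinearIndependent ℚ l)
    (h : ∀ i, ∃ x y, IsQuots D t x y ∧ Transcendental ℚ x ∧ x * l i + ∑ k, y k * z k ∈ Lt) :
    m + 1 ≤ 2 ^ (r + 1) * ((2 * D) ^ r + s - 1) := by
  choose x y hxy hx hw using h
  refine many_aux t z hD (fun i : Fin (m + 1) => (finSuccEquiv m i).elim 1 l)
    (fun i => (finSuccEquiv m i).elim (t j) x) (fun i => (finSuccEquiv m i).elim 0 y)
    (indep_cons halg hli) ?_ ?_ ?_ ?_
  · intro i
    cases finSuccEquiv m i with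
    | none => exact Lt_one
    | some j => exact Lt_log (halg j)
  · intro i
    cases finSuccEquiv m i with
    | none =>
      refine ⟨MvPolynomial.X j, 1, 0, fun i => ?_, fun i => ?_, fun k i => ?_, ?_, ?_, ?_⟩
      · rw [MvPolynomial.degreeOf_X]
        split_ifs <;> omega
      · rw [MvPolynomial.degreeOf_one]; exact Nat.zero_le _
      · rw [Pi.zero_apply, MvPolynomial.degreeOf_zero]; exact Nat.zero_le _
      · simp
      · simp
      · simp
    | some j => exact hxy j
  · intro i
    cases finSuccEquiv m i with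
    | none => exact htr
    | some j => exact hx j
  · intro i
    cases finSuccEquiv m i with
    | none => simpa using htL
    | some j => exact hw j

end Pool.Agent.U945.LA
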