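import Pool.Agent.U945.LA.Seq
import Pool.Agent.U945.RV.Rat
import Pool.Agent.U945.RV.Rank

set_option autoImplicit false

/-!
# Sets of algebraic numbers of finite rank and values of rational functions
-/

namespace Pool.Agent.U945.LA

open Finset Polynomial
open Pool.Agent.U945.RV (BR primes_finite finite_rat nr MI)

/-- number of zeros and poles -/
noncomputable def pts (P Q : ℚ[X]) : ℕ :=
  ((P * Q).map (algebraMap ℚ ℂ)).roots.toFinset.card + if P.natDegree = Q.natDegree then 0 else 1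

theorem rat_set {A : Set ℂˣ} {B : ℕ} (hB : RkLe A B) {P Q : ℚ[X]} (hP : P ≠ 0) (hQ : Q ≠ 0)
    (hPQ : IsCoprime P Q) (h3 : 3 ≤ pts P Q) :
    {q : ℚ | P.eval q ≠ 0 ∧ Q.eval q ≠ 0 ∧ ∃ x ∈ A, (x : ℂ) = ((P.eval q / Q.eval q : ℚ) : ℂ) ∨
      (x : ℂ) = -((P.eval q / Q.eval q : ℚ) : ℂ)}.Finite := by
  classical
  set Γ : Set ℚ := {y | 0 < y ∧ ∃ x ∈ A, (x : ℂ) = (y : ℂ) ∨ (x : ℂ) = -(y : ℂ)} with hΓ
  have hBR : BR Γ := by
    refine ⟨fun y hy => hy.1, B, fun n y hy hmi => ?_⟩
    choose h0 x hx hxy using hy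
    refine hB n x hx fun k hk => ?_
    have h1 : ∏ j, (x j ^ 2) ^ k j = 1 := by
      have : ∏ j, (x j ^ 2) ^ k j = (∏ j, x j ^ k j) ^ 2 := by
        rw [← Finset.prod_pow]
        exact Finset.prod_congr rfl fun j _ => by
          rw [← zpow_natCast, ← zpow_natCast, ← zpow_mul, ← zpow_mul, mul_comm]
      rw [this, hk, one_pow]
    have h2 : ∀ j, (((x j ^ 2 : ℂˣ)) : ℂ) = ((y j ^ 2 : ℚ) : ℂ) := by
      intro j
      rw [Units.val_pow_eq_pow_val]
      push_cast
      rcases hxy j with h | h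
      · rw [h]
      · rw [h, neg_sq]
    have h3 := congrArg (fun u : ℂˣ => (u : ℂ)) h1
    simp only [Units.coe_prod, Units.val_one, Units.val_zpow_eq_zpow_val] at h3
    rw [Finset.prod_congr rfl fun j _ => by rw [h2 j]] at h3
    have h4 : ∏ j, (y j ^ 2) ^ k j = 1 := by exact_mod_cast h3
    have h5 := hmi (fun j => 2 * k j) (by
      rw [← h4]
      exact Finset.prod_congr rfl fun j _ => by
        rw [zpow_mul]
        norm_cast)
    funext j
    have h6 := congrFun h5 j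
    simp only [Pi.zero_apply] at h6
    simp only [Pi.zero_apply]
    omega
  refine (finite_rat hP hQ hPQ h3 (primes_finite hBR).toFinset).subset ?_
  rintro q ⟨h1, h2, x, hx, h⟩
  refine ⟨h1, h2, fun p hp hv => ?_⟩
  rw [Set.Finite.mem_toFinset]
  refine ⟨hp, |P.eval q / Q.eval q|, ⟨abs_pos.2 (div_ne_zero h1 h2), x, hx, ?_⟩, ?_⟩
  · rcases abs_choice (P.eval q / Q.eval q) with h4 | h4
    · rw [h4]
      exact h
    · rw [h4]
      push_cast at h ⊢
      rw [neg_neg]
      exact h.symm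
  · rcases abs_choice (P.eval q / Q.eval q) with h4 | h4
    · rw [h4]
      exact hv
    · rw [h4, padicValRat.neg]
      exact hv

end Pool.Agent.U945.LA
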