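import Pool.Agent.U945.LA.Five

set_option autoImplicit false

/-!
# Arbitrary complex bases with several algebraic powers
-/

namespace Pool.Agent.U945.LA

open Finset Module Polynomial
open Pool.Agent.U945.RD (hypK_Lt abs_rank_vec)
open Pool.Agent.H301R2.SSE (QB mem_QB Lt Lt_one Lt_alg Lt_log Lt_mul Lg mem_Lg LB LB_log)
open Pool.Agent.HP778 (pi_mem_Lt indep_cons)

/-- exponents in a space of finite dimension, for given linear forms `w i` -/
theorem uv_core (U : Submodule QB ℂ) [FiniteDimensional QB U] (h1 : (1 : ℂ) ∈ U) {m : ℕ}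
    {w : Fin m → ℂ} (hw : LinearIndependent QB (Fin.cons 1 w : Fin (m + 1) → ℂ))
    (hwL : ∀ i, w i ∈ Lt) (h : ∀ i, ∃ ξ ∈ U, Transcendental ℚ ξ ∧ ξ * w i ∈ Lt) :
    m ≤ finrank QB U * (finrank QB U - 1) ∧
      ((∃ u₀ ∈ U, Transcendental ℚ u₀ ∧ u₀ ∈ Lt) → m + 1 ≤ finrank QB U * (finrank QB U - 1)) := by
  classical
  obtain ⟨s, mu, hs, hmu, hU⟩ := exists_mu U h1
  have htr : ∀ (x : ℂ) (a : QB) (γ : Fin s → QB), Transcendental ℚ x →
      x = a + ∑ j, (γ j : ℂ) * mu j → ∃ j, γ j ≠ 0 := by
    intro x a γ hx he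
    by_contra hcon
    push Not at hcon
    apply hx
    rw [he, Finset.sum_eq_zero (fun j _ => by rw [hcon j]; simp), add_zero]
    exact mem_QB.1 a.2
  have core : ∀ {n : ℕ} (W ζ : Fin n → ℂ), LinearIndependent QB W → (∀ i, W i ∈ Lt) →
      (∀ i, ζ i ∈ U) → (∀ i, Transcendental ℚ (ζ i)) → (∀ i, ζ i * W i ∈ Lt) → n ≤ (s + 1) * s := by
    intro n W ζ hW hWL hζU hζt hζ
    choose c G hcG using fun i => hU (ζ i) (hζU i)
    have h2 := abs_rank_vec (n := n) (d := s) hypK_Lt (⊥ : Submodule QB ℂ)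
      (w := fun i j => (G i j : ℂ) * W i)
      (by
        rw [Fintype.linearIndependent_iff]
        intro g hg i
        obtain ⟨j, hj⟩ := htr (ζ i) (c i) (G i) (hζt i) (hcG i)
        have h3 := congrFun hg j
        rw [Finset.sum_apply] at h3
        rw [Fintype.linearIndependent_iff] at hW
        have h4 := hW (fun i => g i * G i j) (by
          rw [Pi.zero_apply] at h3
          rw [← h3]
          refine Finset.sum_congr rfl fun i _ => ?_
          rw [Pi.smul_apply, mul_smul]
          congr 1) i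
        rcases mul_eq_zero.1 h4 with h5 | h5
        · exact h5
        · exact absurd h5 hj)
      (fun i j => Lt_mul (mem_QB.1 (G i j).2) (hWL i)) hmu
      (by
        intro i
        have e1 : ∑ j, mu j * ((G i j : ℂ) * W i) = ζ i * W i - c i * W i := by
          rw [← sub_mul, hcG i, add_sub_cancel_left, Finset.sum_mul]
          refine Finset.sum_congr rfl fun j _ => ?_
          ring
        rw [e1]
        exact Submodule.mem_sup_left (sub_mem (hζ i) (Lt_mul (mem_QB.1 (c i).2) (hWL i))))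
    rw [finrank_bot, zero_add] at h2
    exact h2
  choose ξ hξU hξt hξ using h
  rw [hs, Nat.add_sub_cancel]
  constructor
  · rw [linearIndependent_finCons] at hw
    exact core w ξ hw.1 hwL hξU hξt hξ
  · rintro ⟨u₀, hu₀, hu₀t, hu₀L⟩
    refine core (Fin.cons 1 w) (Fin.cons u₀ ξ) hw (fun i => ?_) (fun i => ?_) (fun i => ?_)
      (fun i => ?_)
    · refine Fin.cases ?_ (fun i => ?_) i
      · exact Lt_one
      · exact hwL i
    · refine Fin.cases ?_ (fun i => ?_) i
      · exact hu₀
      · exact hξU i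
    · refine Fin.cases ?_ (fun i => ?_) i
      · exact hu₀t
      · exact hξt i
    · refine Fin.cases ?_ (fun i => ?_) i
      · rw [Fin.cons_zero, Fin.cons_zero, mul_one]
        exact hu₀L
      · rw [Fin.cons_succ, Fin.cons_succ]
        exact hξ i

/-- The complex `z ≠ 0` such that, for some logarithm `l` of `z`, `z ^ s = e ^ (s l)` is algebraic and
`ξ s l` is a linear form for some transcendental `ξ` in `U`. -/
def Zs (s : ℂ) (U : Submodule QB ℂ) : Set ℂˣ :=
  {z | ∃ l : ℂ, (∃ n : ℕ, 0 < n ∧ Complex.exp (n * l) = (z : ℂ) ^ n) ∧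
    IsAlgebraic ℚ (Complex.exp (s * l)) ∧ ∃ ξ ∈ U, Transcendental ℚ ξ ∧ ξ * (s * l) ∈ Lt}

theorem Zs_rank {s : ℂ} (hs : s ≠ 0) (U : Submodule QB ℂ) [FiniteDimensional QB U]
    (h1 : (1 : ℂ) ∈ U) :
    RkLe (Zs s U) (finrank QB U * (finrank QB U - 1)) ∧
      ((∃ u₀ ∈ U, Transcendental ℚ u₀ ∧ u₀ ∈ Lt) →
        RkLe (Zs s U) (finrank QB U * (finrank QB U - 1) - 1)) := by
  have key : ∀ (n : ℕ) (X : Fin n → ℂˣ), (∀ j, X j ∈ Zs s U) →
      (∀ k : Fin n → ℤ, ∏ j, X j ^ k j = 1 → k = 0) → n ≤ finrank QB U * (finrank QB U - 1) ∧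
      ((∃ u₀ ∈ U, Transcendental ℚ u₀ ∧ u₀ ∈ Lt) →
        n + 1 ≤ finrank QB U * (finrank QB U - 1)) := by
    intro n X hX hmi
    choose l hl halg ξ hξU hξt hξ using hX
    have h2 := li_pi hl hmi
    rw [linearIndependent_finCons] at h2
    have hli : LinearIndependent ℚ (fun j => s * l j) := by
      have h3 := h2.1
      rw [Fintype.linearIndependent_iff] at h3 ⊢
      intro g hg
      apply h3 g
      have h4 : ∑ i, g i • (s * l i) = s * ∑ i, g i • l i := by
        rw [Finset.mul_sum]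
        exact Finset.sum_congr rfl fun i _ => (mul_smul_comm _ _ _).symm
      rw [h4] at hg
      exact (mul_eq_zero.1 hg).resolve_left hs
    have h5 := indep_cons halg hli
    have h6 : LinearIndependent QB (Fin.cons 1 (fun j => s * l j) : Fin (n + 1) → ℂ) := by
      convert h5 using 1
      funext i
      refine Fin.cases ?_ (fun i => ?_) i
      · rw [Fin.cons_zero, finSuccEquiv_zero]
        rfl
      · rw [Fin.cons_succ, finSuccEquiv_succ]
        rfl
    exact uv_core U h1 h6 (fun j => Lt_log (halg j)) (fun j => ⟨ξ j, hξU j, hξt j, hξ j⟩)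
  refine ⟨fun n X hX hmi => (key n X hX hmi).1, fun h n X hX hmi => ?_⟩
  have := (key n X hX hmi).2 h
  omega

/-- translates of a transcendental number are multiplicatively independent -/
theorem translates_mi {t : ℂ} (ht : Transcendental ℚ t) {n : ℕ} {x : Fin n → ℂ}
    (hx : ∀ i, IsAlgebraic ℚ (x i)) (hinj : Function.Injective x) {X : Fin n → ℂˣ}
    (hX : ∀ i, (X i : ℂ) = t + x i) (k : Fin n → ℤ) (hk : ∏ i, X i ^ k i = 1) : k = 0 := by
  classical
  have htQ : Transcendental QB t := by
    intro h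
    apply ht
    have : Algebra.IsAlgebraic ℚ QB := algebraicClosure.isAlgebraic ℚ ℂ
    exact h.restrictScalars ℚ
  set y : Fin n → QB := fun i => ⟨x i, mem_QB.2 (hx i)⟩ with hy
  have hyinj : Function.Injective y := fun i j h => hinj (congrArg (fun u : QB => (u : ℂ)) h)
  set P : QB[X] := ∏ i, (Polynomial.X + C (y i)) ^ (k i).toNat with hP
  set Q : QB[X] := ∏ i, (Polynomial.X + C (y i)) ^ (-k i).toNat with hQ
  have hne : ∀ i, (X i : ℂ) ≠ 0 := fun i => (X i).ne_zero
  have h1 : aeval t P = aeval t Q := by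
    rw [hP, hQ, map_prod, map_prod]
    have e1 : ∀ i, aeval t ((Polynomial.X + C (y i)) ^ (k i).toNat : QB[X]) =
        (X i : ℂ) ^ (k i).toNat := by
      intro i
      rw [map_pow, map_add, aeval_X, aeval_C, hX]
      rfl
    have e2 : ∀ i, aeval t ((Polynomial.X + C (y i)) ^ (-k i).toNat : QB[X]) =
        (X i : ℂ) ^ (-k i).toNat := by
      intro i
      rw [map_pow, map_add, aeval_X, aeval_C, hX]
      rfl
    rw [Finset.prod_congr rfl fun i _ => e1 i, Finset.prod_congr rfl fun i _ => e2 i]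
    have h2 := congrArg (fun z : ℂˣ => (z : ℂ)) hk
    simp only [Units.coe_prod, Units.val_one, Units.val_zpow_eq_zpow_val] at h2
    have h3 : ∏ i, (X i : ℂ) ^ (k i).toNat = (∏ i, (X i : ℂ) ^ k i) *
        ∏ i, (X i : ℂ) ^ (-k i).toNat := by
      rw [← Finset.prod_mul_distrib]
      refine Finset.prod_congr rfl fun i _ => ?_
      rw [← zpow_natCast, ← zpow_natCast, ← zpow_add₀ (hne i)]
      congr 1
      omega
    rw [h3, h2, one_mul]
  have hPQ : P = Q := by
    by_contra hcon
    apply htQ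
    exact ⟨P - Q, sub_ne_zero.2 hcon, by rw [map_sub, h1, sub_self]⟩
  have key : ∀ (e e' : Fin n → ℕ), (∀ i, e i = 0 ∨ e' i = 0) →
      ∏ i, (Polynomial.X + C (y i)) ^ e i = (∏ i, (Polynomial.X + C (y i)) ^ e' i : QB[X]) →
      ∀ j, e j = 0 := by
    intro e e' hee h j
    by_contra hj
    have h2 := congrArg (Polynomial.eval (-y j)) h
    rw [Polynomial.eval_prod, Polynomial.eval_prod] at h2
    have h3 : ∏ i, Polynomial.eval (-y j) ((Polynomial.X + C (y i)) ^ e i) = 0 := by
      apply Finset.prod_eq_zero (Finset.mem_univ j)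
      rw [Polynomial.eval_pow, Polynomial.eval_add, Polynomial.eval_X, Polynomial.eval_C,
        neg_add_cancel, zero_pow hj]
    rw [h3] at h2
    have h4 := Finset.prod_eq_zero_iff.1 h2.symm
    obtain ⟨i, -, hi⟩ := h4
    rw [Polynomial.eval_pow, Polynomial.eval_add, Polynomial.eval_X, Polynomial.eval_C] at hi
    have hi0 : e' i ≠ 0 := by
      intro h0
      rw [h0, pow_zero] at hi
      exact one_ne_zero hi
    have h5 := pow_eq_zero_iff hi0 |>.1 hi
    have h6 : y i = y j := by linear_combination h5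
    have h7 := hyinj h6
    subst h7
    rcases hee i with h8 | h8
    · exact hj h8
    · exact hi0 h8
  funext j
  have h2 := key (fun i => (k i).toNat) (fun i => (-k i).toNat) (fun i => by omega) hPQ j
  have h3 := key (fun i => (-k i).toNat) (fun i => (k i).toNat) (fun i => by omega) hPQ.symm j
  rw [Pi.zero_apply]
  omega

/-- at most `B` algebraic translates in a set of rank at most `B` -/
theorem translates_enc {t : ℂ} (ht : Transcendental ℚ t) {A : Set ℂˣ} {B : ℕ} (hA : RkLe A B) :
    {x : ℂ | IsAlgebraic ℚ x ∧ ∃ u ∈ A, (u : ℂ) = t + x}.encard ≤ B := by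
  by_contra hcon
  push Not at hcon
  obtain ⟨S, hS, hSn⟩ := Set.exists_subset_encard_eq (Order.add_one_le_of_lt hcon)
  have hfin : S.Finite := Set.finite_of_encard_eq_coe (k := B + 1) (by rw [hSn]; norm_cast)
  obtain ⟨T, rfl⟩ := hfin.exists_finset_coe
  have hT : T.card = B + 1 := by
    rw [Set.encard_coe_eq_coe_finsetCard] at hSn
    exact_mod_cast hSn
  set x : Fin (B + 1) → ℂ := fun i => ((T.equivFinOfCardEq hT).symm i : ℂ) with hx
  have hxT : ∀ i, x i ∈ T := fun i => ((T.equivFinOfCardEq hT).symm i).2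
  have hinj : Function.Injective x := fun i j h =>
    (T.equivFinOfCardEq hT).symm.injective (Subtype.ext h)
  choose hxa u huA hu using fun i => hS (hxT i)
  have := hA (B + 1) u huA (translates_mi ht hxa hinj hu)
  omega

end Pool.Agent.U945.LA
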