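import Pool.Agent.U945.LA.Nine
import Pool.Agent.U945.LA.Trans

set_option autoImplicit false

/-!
# Algebraic bases of towers
-/

namespace Pool.Agent.U945.LA

open Finset Module
open Pool.Agent.H301R2.SSE (QB mem_QB Lt Lt_one Lt_alg Lt_log Lt_mul Lg mem_Lg LB LB_log)
open Pool.Agent.HP778 (pi_mem_Lt)

/-- logarithms which are independent modulo a space of finite dimension -/
theorem mod_indep (M : Submodule QB ℂ) [FiniteDimensional QB M] (h1 : (1 : ℂ) ∈ M)
    (hpi : (Real.pi : ℂ) ∈ M) {n : ℕ} {l : Fin n → ℂ}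
    (halg : ∀ i, IsAlgebraic ℚ (Complex.exp (l i)))
    (hli : LinearIndependent ℚ (Fin.cons (Real.pi * Complex.I) l : Fin (n + 1) → ℂ)) :
    ∃ (N : ℕ) (idx : Fin N → Fin n), n + 2 ≤ finrank QB M + N ∧
      LinearIndependent QB (fun a => M.mkQ (l (idx a))) := by
  obtain ⟨N, idx, -, hind, hspan⟩ := span_idx QB (fun i => M.mkQ (l i))
  refine ⟨N, idx, ?_, hind⟩
  set S : Submodule QB ℂ := Submodule.span QB (Set.range fun a => l (idx a)) with hS
  have hSf : FiniteDimensional QB S := FiniteDimensional.span_of_finite QB (Set.finite_range _)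
  have hSr : finrank QB S ≤ N := by
    have := finrank_range_le_card (R := QB) (fun a => l (idx a))
    rwa [Fintype.card_fin] at this
  have hl : ∀ i, l i ∈ M ⊔ S := by
    intro i
    obtain ⟨c, hc⟩ := hspan (M.mkQ (l i)) (Submodule.subset_span ⟨i, rfl⟩)
    have h2 : M.mkQ (l i - ∑ a, c a • l (idx a)) = 0 := by
      rw [map_sub, map_sum]
      simp only [map_smul]
      rw [sub_eq_zero]
      exact hc.symm
    rw [Submodule.mkQ_apply, Submodule.Quotient.mk_eq_zero] at h2
    have h3 : l i = (l i - ∑ a, c a • l (idx a)) + ∑ a, c a • l (idx a) := by ring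
    rw [h3]
    exact add_mem (Submodule.mem_sup_left h2) (Submodule.mem_sup_right (sum_mem fun a _ =>
      Submodule.smul_mem _ _ (Submodule.subset_span ⟨a, rfl⟩)))
  have h2 := count_T (M ⊔ S) (Submodule.mem_sup_left h1) (Submodule.mem_sup_left hpi) halg hli hl
  have h3 := Submodule.finrank_add_le_finrank_add_finrank M S
  omega

/-- The algebraic `x ≠ 0` such that `ξ (l + m)` is a linear form for some transcendental `ξ` in `U`,
some logarithm `l` of `x` and some `m` in `M`. -/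
def UM (U M : Submodule QB ℂ) : Set ℂˣ :=
  {x | IsAlgebraic ℚ (x : ℂ) ∧ ∃ l : ℂ, (∃ n : ℕ, 0 < n ∧ Complex.exp (n * l) = (x : ℂ) ^ n) ∧
    ∃ ξ ∈ U, Transcendental ℚ ξ ∧ ∃ m ∈ M, ξ * (l + m) ∈ Lt}

theorem UM_rank (U M : Submodule QB ℂ) [FiniteDimensional QB U] [FiniteDimensional QB M]
    (h1 : (1 : ℂ) ∈ U) (h1M : (1 : ℂ) ∈ M) (hpi : (Real.pi : ℂ) ∈ M) (hM : M ≤ Lt) :
    RkLe (UM U M) (finrank QB U * (finrank QB U - 1) + finrank QB M - 2) := by
  refine rkLe_of_logs_pi (A := UM U M) (fun n l halg hli h => ?_) (fun x hx => hx)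
  choose ξ hξU hξt m hmM hξ using h
  obtain ⟨N, idx, hN, hind⟩ := mod_indep M h1M hpi halg hli
  have hq : ∀ a, M.mkQ (l (idx a) + m (idx a)) = M.mkQ (l (idx a)) := by
    intro a
    rw [map_add]
    have : M.mkQ (m (idx a)) = 0 := by
      rw [Submodule.mkQ_apply, Submodule.Quotient.mk_eq_zero]
      exact hmM _
    rw [this, add_zero]
  have hind' : LinearIndependent QB (fun a => M.mkQ (l (idx a) + m (idx a))) := by
    simp only [hq]
    exact hind
  have hw : LinearIndependent QB (Fin.cons 1 (fun a => l (idx a) + m (idx a)) :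
      Fin (N + 1) → ℂ) := by
    rw [linearIndependent_finCons]
    refine ⟨LinearIndependent.of_comp M.mkQ hind', fun h2 => ?_⟩
    rw [Submodule.mem_span_range_iff_exists_fun] at h2
    obtain ⟨c, hc⟩ := h2
    have h3 := congrArg M.mkQ hc
    have h4 : M.mkQ 1 = 0 := by
      rw [Submodule.mkQ_apply, Submodule.Quotient.mk_eq_zero]
      exact h1M
    rw [map_sum, h4] at h3
    simp only [map_smul] at h3
    have h5 := (Fintype.linearIndependent_iff.1 hind') c h3
    rw [Finset.sum_eq_zero (fun a _ => by rw [h5 a, zero_smul])] at hc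
    exact zero_ne_one hc
  have h2 := (uv_core U h1 hw (fun a => add_mem (Lt_log (halg _)) (hM (hmM _)))
    (fun a => ⟨ξ (idx a), hξU _, hξt _, hξ _⟩)).1
  omega

/-- The algebraic `y ≠ 0` which are a value of `e ^ (t w)` for some linear form `w`. -/
def Vt (t : ℂ) : Set ℂˣ :=
  {y | IsAlgebraic ℚ (y : ℂ) ∧ ∃ l : ℂ, (∃ n : ℕ, 0 < n ∧ Complex.exp (n * l) = (y : ℂ) ^ n) ∧
    ∃ w ∈ Lt, l = t * w}

theorem Vt_rank {t : ℂ} (ht : Transcendental ℚ t) : RkLe (Vt t) 2 := by
  refine rkLe_of_logs (R := fun l => t⁻¹ * l ∈ Lt) (fun m l halg hli h => ?_) ?_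
  · refine rank_mul (t := t⁻¹) (fun h' => ht (by
      have := h'.inv
      rwa [inv_inv] at this)) (Pool.Agent.HP778.indep_QB halg hli) (fun i => Lt_log (halg i)) h
  · rintro y ⟨hy, l, hl, w, hw, h⟩
    refine ⟨hy, l, hl, ?_⟩
    have ht0 : t ≠ 0 := by
      intro h0
      apply ht
      rw [h0]
      exact isAlgebraic_zero
    rw [h, ← mul_assoc, inv_mul_cancel₀ ht0, one_mul]
    exact hw

end Pool.Agent.U945.LA
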