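import Pool.Agent.U945.LA.Five
import Pool.Agent.U945.LA.Many

set_option autoImplicit false

/-!
# Spaces of exponents and several bases
-/

namespace Pool.Agent.U945.LA

open Finset Module
open Pool.Agent.H301R2.SSE (QB mem_QB Lt Lt_one Lt_alg Lt_log Lt_mul)
open Pool.Agent.HP778 (pi_mem_Lt zV finrank_zV_le mem_zV)

/-- The algebraic `x ≠ 0` such that `ξ (l + ∑ a_k z_k + b + d π)` is in `Lt` for some transcendental
`ξ` in `U`, some logarithm `l` of `x` and some algebraic `a_k`, `b`, `d`. -/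
def ExZ {s : ℕ} (U : Submodule QB ℂ) (z : Fin s → ℂ) : Set ℂˣ :=
  {x | IsAlgebraic ℚ (x : ℂ) ∧ ∃ l : ℂ, (∃ n : ℕ, 0 < n ∧ Complex.exp (n * l) = (x : ℂ) ^ n) ∧
    ∃ ξ ∈ U, Transcendental ℚ ξ ∧ ∃ (a : Fin s → ℂ) (b d : ℂ), (∀ k, IsAlgebraic ℚ (a k)) ∧
      IsAlgebraic ℚ b ∧ IsAlgebraic ℚ d ∧ ξ * (l + ∑ k, a k * z k + b + d * Real.pi) ∈ Lt}

theorem ExZ_rank {s : ℕ} (U : Submodule QB ℂ) [FiniteDimensional QB U] (z : Fin s → ℂ)
    (h1 : (1 : ℂ) ∈ U) (hpi : (Real.pi : ℂ) ∈ U) :
    2 ≤ finrank QB U ∧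
      RkLe (ExZ U z) (finrank QB U * (finrank QB U + s - 1) - 1) := by
  classical
  set V : Submodule QB ℂ := (univ : Finset (Fin s)).sup fun k => zV (z k) U with hV
  have hVr : finrank QB V ≤ s * finrank QB U := by
    have h1 : finrank QB V ≤ ∑ k : Fin s, finrank QB (zV (z k) U) := by
      rw [hV]
      exact finrank_sup_le univ _
    refine h1.trans ?_
    calc ∑ k : Fin s, finrank QB (zV (z k) U) ≤ ∑ _k : Fin s, finrank QB U :=
          Finset.sum_le_sum fun k _ => finrank_zV_le _ _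
      _ = s * finrank QB U := by simp
  have hVf : FiniteDimensional QB V := by
    rw [hV]
    infer_instance
  have hpos : 2 ≤ finrank QB U := by
    obtain ⟨k, mu, hk, -, hall⟩ := exists_mu U h1
    obtain ⟨b, β, hb⟩ := hall _ hpi
    rw [hk]
    rcases Nat.eq_zero_or_pos k with h0 | h0
    · exfalso
      subst h0
      rw [Fin.sum_univ_zero, add_zero] at hb
      apply Pool.Agent.H340R2.LW.transcendental_pi_complex
      rw [hb]
      exact mem_QB.1 b.2
    · omega
  refine ⟨hpos, ?_⟩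
  refine rkLe_of_logs_pi (A := ExZ U z) (fun m l halg hli h => ?_) (fun x hx => hx)
  have h2 := uv_rank U V h1 hpi Pool.Agent.H340R2.LW.transcendental_pi_complex
    (Submodule.mem_sup_left pi_mem_Lt) halg hli (fun i => by
      obtain ⟨ξ, hξ, hξt, a, b, d, ha, hb, hd, h⟩ := h i
      refine ⟨ξ, hξ, hξt, b, d, hb, hd, ?_⟩
      have e1 : ξ * (l i + b + d * (Real.pi : ℂ)) =
          ξ * (l i + ∑ k, a k * z k + b + d * Real.pi) + -(∑ k, a k * (z k * ξ)) := by
        have e2 : ∑ k, a k * (z k * ξ) = ξ * ∑ k, a k * z k := by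
          rw [Finset.mul_sum]
          exact Finset.sum_congr rfl fun k _ => by ring
        rw [e2]
        ring
      rw [e1]
      refine add_mem (Submodule.mem_sup_left h) (Submodule.mem_sup_right (neg_mem
        (sum_mem fun k _ => ?_)))
      have h3 : z k * ξ ∈ V := by
        rw [mul_comm]
        exact (Finset.le_sup (f := fun k => zV (z k) U) (mem_univ k)) (mem_zV hξ)
      have h4 := V.smul_mem (⟨a k, mem_QB.2 (ha k)⟩ : QB) h3
      rw [Algebra.smul_def] at h4
      exact h4)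
  have h4 : s * finrank QB U + finrank QB U * (finrank QB U - 1) =
      finrank QB U * (finrank QB U + s - 1) := by
    obtain ⟨k, hk⟩ : ∃ k, finrank QB U = k + 1 := ⟨finrank QB U - 1, by omega⟩
    rw [hk, Nat.add_sub_cancel]
    have : k + 1 + s - 1 = k + s := by omega
    rw [this]
    ring
  omega

end Pool.Agent.U945.LA
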