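import Pool.Agent.U945.LA.Five

set_option autoImplicit false

/-!
# The nine numbers
-/

namespace Pool.Agent.U945.LA

open Finset Module
open Pool.Agent.U945.RD (hypK_Lt abs_rank_vec)
open Pool.Agent.H301R2.SSE (QB mem_QB Lt Lt_one Lt_alg Lt_log Lt_mul Lg mem_Lg LB LB_log)
open Pool.Agent.HP778 (pi_mem_Lt indep_cons)

/-- the forms `w` such that `v w` is a form -/
noncomputable def WW (v : ℂ) : Submodule QB ℂ := Lt ⊓ Lt.comap (LinearMap.mulLeft QB v)

theorem mem_WW {v w : ℂ} : w ∈ WW v ↔ w ∈ Lt ∧ v * w ∈ Lt := Iff.rfl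

theorem WW_rank {v : ℂ} (hv : Transcendental ℚ v) : Module.rank QB (WW v) ≤ 2 := by
  classical
  refine rank_le fun s hs => ?_
  have h1 : LinearIndependent QB (fun i : Fin s.card => ((s.equivFin.symm i : WW v) : ℂ)) := by
    have h2 := hs.comp s.equivFin.symm s.equivFin.symm.injective
    exact h2.map' (WW v).subtype (Submodule.ker_subtype _)
  exact rank_mul hv h1 (fun i => (mem_WW.1 (s.equivFin.symm i : WW v).2).1)
    (fun i => (mem_WW.1 (s.equivFin.symm i : WW v).2).2)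

theorem WW_fin {v : ℂ} (hv : Transcendental ℚ v) :
    FiniteDimensional QB (WW v) ∧ finrank QB (WW v) ≤ 2 := by
  have h := WW_rank hv
  constructor
  · exact Module.rank_lt_aleph0_iff.1 (h.trans_lt (by exact_mod_cast Cardinal.natCast_lt_aleph0 (n := 2)))
  · exact Module.finrank_le_of_rank_le (by exact_mod_cast h)

/-- logarithms in a space -/
theorem count_T (T : Submodule QB ℂ) [FiniteDimensional QB T] (h1 : (1 : ℂ) ∈ T)
    (hpi : (Real.pi : ℂ) ∈ T) {m : ℕ} {l : Fin m → ℂ}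
    (halg : ∀ i, IsAlgebraic ℚ (Complex.exp (l i)))
    (hli : LinearIndependent ℚ (Fin.cons (Real.pi * Complex.I) l : Fin (m + 1) → ℂ))
    (hl : ∀ i, l i ∈ T) : m + 2 ≤ finrank QB T := by
  have h2 := indep_cons (cons_alg halg) hli
  have h3 := finrank_span_eq_card h2
  rw [Fintype.card_fin] at h3
  rw [← h3]
  apply Submodule.finrank_mono
  rw [Submodule.span_le]
  rintro _ ⟨i, rfl⟩
  dsimp only
  cases finSuccEquiv (m + 1) i with
  | none => exact h1
  | some j =>
    refine Fin.cases ?_ (fun j => ?_) j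
    · change (Real.pi * Complex.I : ℂ) ∈ T
      have := T.smul_mem (⟨Complex.I, mem_QB.2 isAlgebraic_I'⟩ : QB) hpi
      rw [Algebra.smul_def] at this
      rw [mul_comm]
      exact this
    · exact hl j

/-- The algebraic `x ≠ 0` such that some value of `(x e ^ L) ^ β` is algebraic. -/
def Fs (β L : ℂ) : Set ℂˣ :=
  {x | IsAlgebraic ℚ (x : ℂ) ∧ ∃ l : ℂ, (∃ n : ℕ, 0 < n ∧ Complex.exp (n * l) = (x : ℂ) ^ n) ∧
    IsAlgebraic ℚ (Complex.exp (β * (l + L)))}

theorem log_alg {x : ℂˣ} {l : ℂ} (hx : IsAlgebraic ℚ (x : ℂ))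
    (hl : ∃ n : ℕ, 0 < n ∧ Complex.exp (n * l) = (x : ℂ) ^ n) : IsAlgebraic ℚ (Complex.exp l) := by
  obtain ⟨n, hn, h⟩ := hl
  apply IsAlgebraic.of_pow hn
  rw [← Complex.exp_nat_mul, h]
  exact hx.pow _

/-- Gelfond-Schneider -/
theorem gs {β d : ℂ} (hβ : IsAlgebraic ℚ β) (hβQ : ∀ q : ℚ, β ≠ q)
    (h1 : IsAlgebraic ℚ (Complex.exp d)) (h2 : IsAlgebraic ℚ (Complex.exp (β * d))) : d = 0 := by
  by_contra hd
  have hli : LinearIndependent ℚ ![d, β * d] := by
    rw [LinearIndependent.pair_iff]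
    intro s t hst
    rw [Rat.smul_def, Rat.smul_def] at hst
    have h3 : ((s : ℂ) + t * β) * d = 0 := by linear_combination hst
    have h4 := (mul_eq_zero.1 h3).resolve_right hd
    have ht : t = 0 := by
      by_contra ht
      apply hβQ (-s / t)
      have : (t : ℂ) ≠ 0 := by exact_mod_cast ht
      push_cast
      field_simp
      linear_combination h4
    subst ht
    refine ⟨?_, rfl⟩
    rw [Rat.cast_zero, zero_mul, add_zero] at h4
    exact_mod_cast h4
  have h3 := Pool.Agent.H297R2.baker_inhom ![d, β * d] (fun i => by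
    fin_cases i
    · exact h1
    · exact h2) hli 0 isAlgebraic_zero ![-β, 1] (fun i => by
    fin_cases i
    · exact hβ.neg
    · exact isAlgebraic_one) (by
    rw [Fin.sum_univ_two]
    simp)
  have h4 := h3.2 1
  simp at h4

theorem Fs_log {β L l l' : ℂ} (hβ : IsAlgebraic ℚ β) (hβQ : ∀ q : ℚ, β ≠ q)
    (h1 : IsAlgebraic ℚ (Complex.exp l)) (h1' : IsAlgebraic ℚ (Complex.exp l'))
    (h2 : IsAlgebraic ℚ (Complex.exp (β * (l + L))))
    (h2' : IsAlgebraic ℚ (Complex.exp (β * (l' + L)))) : l = l' := by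
  apply sub_eq_zero.1
  apply gs hβ hβQ
  · rw [Complex.exp_sub, div_eq_mul_inv]
    exact h1.mul h1'.inv
  · have e1 : β * (l - l') = β * (l + L) - β * (l' + L) := by ring
    rw [e1, Complex.exp_sub, div_eq_mul_inv]
    exact h2.mul h2'.inv

/-- The case in which `L` is a linear form in logarithms. -/
theorem case_L {β L l₀ : ℂ} (hβ : IsAlgebraic ℚ β) (hβQ : ∀ q : ℚ, β ≠ q)
    (h1 : IsAlgebraic ℚ (Complex.exp l₀)) (h2 : IsAlgebraic ℚ (Complex.exp (β * (l₀ + L))))
    (T : Submodule QB ℂ) [FiniteDimensional QB T] (hTe : WW (Real.exp 1 : ℝ) ≤ T)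
    (hTp : WW Real.pi ≤ T) (hpi : (Real.pi : ℂ) ∈ T) (hL : L ∈ T) (hu : β * (l₀ + L) ∈ T) :
    RkLe ((Pw (Real.exp 1 : ℝ) L ∪ Pw Real.pi L) ∪ Fs β L) (finrank QB T - 2) := by
  have hβ0 : β ≠ 0 := by
    intro h0
    exact hβQ 0 (by simpa using h0)
  have hone : (1 : ℂ) ∈ T := hTp (mem_WW.2 ⟨Lt_one, by rw [mul_one]; exact pi_mem_Lt⟩)
  have hmul : ∀ {a z : ℂ}, IsAlgebraic ℚ a → z ∈ T → a * z ∈ T := by
    intro a z ha hz
    have := T.smul_mem (⟨a, mem_QB.2 ha⟩ : QB) hz
    rw [Algebra.smul_def] at this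
    exact this
  have hl₀ : l₀ = β⁻¹ * (β * (l₀ + L)) - L := by
    field_simp
    ring
  have hl₀T : l₀ ∈ T := by
    rw [hl₀]
    exact sub_mem (hmul hβ.inv hu) hL
  have hLLt : L ∈ Lt := by
    have e1 : L = β⁻¹ * (β * (l₀ + L)) - l₀ := by
      field_simp
      ring
    rw [e1]
    exact sub_mem (Lt_mul hβ.inv (Lt_log h2)) (Lt_log h1)
  have key : ∀ v l a b d : ℂ, WW v ≤ T → IsAlgebraic ℚ (Complex.exp l) → IsAlgebraic ℚ a →
      IsAlgebraic ℚ b → IsAlgebraic ℚ d → v * (l + a * L + b + d * Real.pi) ∈ Lt → l ∈ T := by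
    intro v l a b d hvT hl ha hb hd h
    have h3 : l + a * L + b + d * Real.pi ∈ T := hvT (mem_WW.2 ⟨add_mem (add_mem (add_mem
      (Lt_log hl) (Lt_mul ha hLLt)) (Lt_alg hb)) (Lt_mul hd pi_mem_Lt), h⟩)
    have e1 : l = (l + a * L + b + d * Real.pi) - a * L - b * 1 - d * Real.pi := by ring
    rw [e1]
    exact sub_mem (sub_mem (sub_mem h3 (hmul ha hL)) (hmul hb hone)) (hmul hd hpi)
  refine rkLe_of_logs_pi (R := fun l => IsAlgebraic ℚ (Complex.exp l) → l ∈ T)
    (fun m l halg hli h => ?_) ?_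
  · have h3 := count_T T hone hpi halg hli (fun i => h i (halg i))
    omega
  · rintro x ((⟨hx, l, hl, a, b, d, ha, hb, hd, h⟩ | ⟨hx, l, hl, a, b, d, ha, hb, hd, h⟩) |
      ⟨hx, l, hl, h⟩)
    · exact ⟨hx, l, hl, fun hla => key _ l a b d hTe hla ha hb hd h⟩
    · exact ⟨hx, l, hl, fun hla => key _ l a b d hTp hla ha hb hd h⟩
    · refine ⟨hx, l, hl, fun hla => ?_⟩
      rw [Fs_log hβ hβQ hla h1 h h2]
      exact hl₀T

/-- The algebraic `x ≠ 0` with one of `π ± x e`, `(π + x - 1) e`, `(π + x - 1) / e` algebraic. -/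
def Sm4 : Set ℂˣ :=
  {x | IsAlgebraic ℚ (x : ℂ) ∧ (IsAlgebraic ℚ ((Real.pi : ℂ) + x * Real.exp 1) ∨
    IsAlgebraic ℚ ((Real.pi : ℂ) - x * Real.exp 1) ∨
    IsAlgebraic ℚ (((Real.pi : ℂ) + x - 1) * Real.exp 1) ∨
    IsAlgebraic ℚ (((Real.pi : ℂ) + x - 1) / Real.exp 1))}

/-- a set whose elements have the same square -/
theorem rkLe_sq {A : Set ℂˣ} (hA : ∀ u ∈ A, ∀ v ∈ A, u ^ 2 = v ^ 2) : RkLe A 1 := by
  classical
  intro n X hX hmi
  by_contra hcon
  push Not at hcon
  have h01 : X ⟨0, by omega⟩ ^ 2 = X ⟨1, by omega⟩ ^ 2 := hA _ (hX _) _ (hX _)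
  have h1 := hmi (Pi.single ⟨0, by omega⟩ 2 - Pi.single ⟨1, by omega⟩ 2) (by
    have h2 : ∀ j, X j ^ ((Pi.single ⟨0, by omega⟩ 2 - Pi.single ⟨1, by omega⟩ 2 : Fin n → ℤ) j) =
        (if j = ⟨0, by omega⟩ then X j ^ 2 else 1) *
          (if j = ⟨1, by omega⟩ then (X j ^ 2)⁻¹ else 1) := by
      intro j
      rw [Pi.sub_apply, zpow_sub]
      congr 1
      · rw [Pi.single_apply]
        split_ifs
        · exact zpow_ofNat _ _
        · simp
      · rw [Pi.single_apply]
        split_ifs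
        · exact congrArg _ (zpow_ofNat _ _)
        · simp
    rw [Finset.prod_congr rfl fun j _ => h2 j, Finset.prod_mul_distrib, Finset.prod_ite_eq',
      Finset.prod_ite_eq', if_pos (mem_univ _), if_pos (mem_univ _), h01, mul_inv_cancel])
  have h3 := congrFun h1 ⟨0, by omega⟩
  rw [Pi.sub_apply, Pi.single_eq_same, Pi.single_eq_of_ne (by simp)] at h3
  simp at h3

/-- a multiple of `e` -/
theorem lin_eq {x y : ℂ} (hx : IsAlgebraic ℚ x) (hy : IsAlgebraic ℚ y)
    (h : IsAlgebraic ℚ ((Real.pi : ℂ) + x * Real.exp 1))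
    (h' : IsAlgebraic ℚ ((Real.pi : ℂ) + y * Real.exp 1)) : x = y := by
  apply sub_eq_zero.1
  apply zero_of_mul (hx.sub hy) e_tr
  have e1 : (x - y) * (Real.exp 1 : ℝ) =
      ((Real.pi : ℂ) + x * Real.exp 1) - ((Real.pi : ℂ) + y * Real.exp 1) := by ring
  rw [e1]
  exact h.sub h'

/-- the quotient gives a linear relation -/
theorem quo_lin {x a : ℂ} (h : (((Real.pi : ℂ) + x - 1) / Real.exp 1) = a) :
    (Real.pi : ℂ) + (-a) * Real.exp 1 = 1 - x := by
  rw [div_eq_iff e_ne] at h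
  linear_combination h

/-- **the nine numbers** -/
theorem nine_rank {β : ℂ} (hβ : IsAlgebraic ℚ β) (hβQ : ∀ q : ℚ, β ≠ q) (L : ℂ) :
    RkLe (Sm4 ∪ ((Pw (Real.exp 1 : ℝ) L ∪ Pw Real.pi L) ∪ Fs β L)) 5 := by
  obtain ⟨hWef, hWe⟩ := WW_fin e_tr
  obtain ⟨hWpf, hWp⟩ := WW_fin pi_tr
  have hsp : ∀ S : Finset ℂ, finrank QB (Submodule.span QB (S : Set ℂ)) ≤ S.card := fun S =>
    finrank_span_finset_le_card S
  have hFs : ∀ x ∈ Fs β L, ∃ l₀, IsAlgebraic ℚ (Complex.exp l₀) ∧
      IsAlgebraic ℚ (Complex.exp (β * (l₀ + L))) := by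
    rintro x ⟨hx, l, hl, h⟩
    exact ⟨l, log_alg hx hl, h⟩
  have hone : (1 : ℂ) ∈ WW Real.pi := mem_WW.2 ⟨Lt_one, by rw [mul_one]; exact pi_mem_Lt⟩
  by_cases hB : ∃ x₀ : ℂ, IsAlgebraic ℚ x₀ ∧ IsAlgebraic ℚ ((Real.pi : ℂ) + x₀ * Real.exp 1)
  · -- a linear relation
    obtain ⟨x₀, hx₀, hc⟩ := hB
    set c := (Real.pi : ℂ) + x₀ * Real.exp 1 with hcd
    have hx₀0 : x₀ ≠ 0 := by
      intro h0
      apply pi_tr
      rw [hcd, h0, zero_mul, add_zero] at hc
      exact hc
    have hS : RkLe Sm4 2 := by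
      have h1 : RkLe {u : ℂˣ | (u : ℂ) ^ 2 = x₀ ^ 2} 1 := rkLe_sq fun u hu v hv =>
        Units.ext (by
          rw [Units.val_pow_eq_pow_val, Units.val_pow_eq_pow_val]
          exact (show (u : ℂ) ^ 2 = x₀ ^ 2 from hu).trans (show (v : ℂ) ^ 2 = x₀ ^ 2 from hv).symm)
      have h2 : RkLe {u : ℂˣ | (u : ℂ) = 1 - c} 1 := rkLe_one fun u hu v hv =>
        Units.ext ((show (u : ℂ) = 1 - c from hu).trans (show (v : ℂ) = 1 - c from hv).symm)
      refine (h1.union h2).mono ?_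
      rintro x ⟨hx, h | h | h | h⟩
      · left
        change (x : ℂ) ^ 2 = x₀ ^ 2
        rw [lin_eq hx hx₀ h hc]
      · left
        change (x : ℂ) ^ 2 = x₀ ^ 2
        have h3 : (Real.pi : ℂ) - x * Real.exp 1 = (Real.pi : ℂ) + (-x) * Real.exp 1 := by ring
        rw [h3] at h
        rw [← lin_eq hx.neg hx₀ h hc]
        ring
      · exact (lin_quad hx₀ hx hc h).elim
      · right
        change (x : ℂ) = 1 - c
        have h3 := quo_lin (x := (x : ℂ)) (a := ((Real.pi : ℂ) + x - 1) / Real.exp 1) rfl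
        have h4 : -(((Real.pi : ℂ) + x - 1) / Real.exp 1) = x₀ := lin_eq h.neg hx₀ (by
          rw [h3]
          exact isAlgebraic_one.sub hx) hc
        rw [h4, ← hcd] at h3
        linear_combination h3
    have hle : WW (Real.exp 1 : ℝ) ≤ WW Real.pi := by
      intro w hw
      rw [mem_WW] at hw ⊢
      refine ⟨hw.1, ?_⟩
      have e1 : (Real.pi : ℂ) * w = c * w - x₀ * ((Real.exp 1 : ℝ) * w) := by
        rw [hcd]
        ring
      rw [e1]
      exact sub_mem (Lt_mul hc hw.1) (Lt_mul hx₀ hw.2)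
    have h3 : RkLe ((Pw (Real.exp 1 : ℝ) L ∪ Pw Real.pi L) ∪ Fs β L) 3 := by
      rcases (Fs β L).eq_empty_or_nonempty with hF | ⟨x, hx⟩
      · rw [hF, Set.union_empty]
        set U : Submodule QB ℂ := Submodule.span QB (({1, (Real.pi : ℂ)} : Finset ℂ) : Set ℂ)
          with hU
        have hUf : FiniteDimensional QB U := FiniteDimensional.span_finset QB _
        have hUr : finrank QB U ≤ 2 := (hsp _).trans (Finset.card_le_two)
        have h1U : (1 : ℂ) ∈ U := Submodule.subset_span (by simp)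
        have hpU : (Real.pi : ℂ) ∈ U := Submodule.subset_span (by simp)
        have hUr' := Ex_rank U L h1U hpU
        refine (hUr'.weaken (?_ : finrank QB U ^ 2 - 1 ≤ 3)).mono ?_
        · have : finrank QB U ^ 2 ≤ 2 ^ 2 := Nat.pow_le_pow_left hUr 2
          omega
        · rintro x (⟨hx, l, hl, a, b, d, ha, hb, hd, h⟩ | ⟨hx, l, hl, a, b, d, ha, hb, hd, h⟩)
          · refine ⟨hx, l, hl, (Real.exp 1 : ℝ), ?_, e_tr, a, b, d, ha, hb, hd, h⟩
            have e1 : ((Real.exp 1 : ℝ) : ℂ) =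
                (⟨x₀⁻¹ * c, mem_QB.2 (hx₀.inv.mul hc)⟩ : QB) • (1 : ℂ) +
                  (⟨-x₀⁻¹, mem_QB.2 hx₀.inv.neg⟩ : QB) • (Real.pi : ℂ) := by
              rw [Algebra.smul_def, Algebra.smul_def]
              change ((Real.exp 1 : ℝ) : ℂ) = (x₀⁻¹ * c) * 1 + (-x₀⁻¹) * Real.pi
              rw [hcd]
              field_simp
              ring
            rw [e1]
            exact add_mem (U.smul_mem _ h1U) (U.smul_mem _ hpU)
          · exact ⟨hx, l, hl, Real.pi, hpU, pi_tr, a, b, d, ha, hb, hd, h⟩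
      · obtain ⟨l₀, hl₀, hu₀⟩ := hFs x hx
        set S : Submodule QB ℂ := Submodule.span QB
          (({(Real.pi : ℂ), L, β * (l₀ + L)} : Finset ℂ) : Set ℂ) with hSd
        have hSf : FiniteDimensional QB S := FiniteDimensional.span_finset QB _
        have hSr : finrank QB S ≤ 3 := (hsp _).trans Finset.card_le_three
        have h4 := case_L hβ hβQ hl₀ hu₀ (WW Real.pi ⊔ S) (hle.trans le_sup_left) le_sup_left
          (Submodule.mem_sup_right (Submodule.subset_span (by simp)))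
          (Submodule.mem_sup_right (Submodule.subset_span (by simp)))
          (Submodule.mem_sup_right (Submodule.subset_span (by simp)))
        refine h4.weaken ?_
        have h5 := Submodule.finrank_add_le_finrank_add_finrank (WW Real.pi) S
        omega
    exact hS.union h3
  by_cases hC : ∃ x₁ : ℂ, IsAlgebraic ℚ x₁ ∧ IsAlgebraic ℚ (((Real.pi : ℂ) + x₁ - 1) * Real.exp 1)
  · -- a quadratic relation
    obtain ⟨x₁, hx₁, hc⟩ := hC
    have hS : RkLe Sm4 1 := by
      refine (rkLe_one (A := {u : ℂˣ | (u : ℂ) = x₁}) fun u hu v hv =>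
        Units.ext ((show (u : ℂ) = x₁ from hu).trans (show (v : ℂ) = x₁ from hv).symm)).mono ?_
      rintro x ⟨hx, h | h | h | h⟩
      · exact (hB ⟨x, hx, h⟩).elim
      · have h3 : (Real.pi : ℂ) - x * Real.exp 1 = (Real.pi : ℂ) + (-x) * Real.exp 1 := by ring
        rw [h3] at h
        exact (hB ⟨-x, hx.neg, h⟩).elim
      · change (x : ℂ) = x₁
        apply sub_eq_zero.1
        apply zero_of_mul (hx.sub hx₁) e_tr
        have e1 : ((x : ℂ) - x₁) * (Real.exp 1 : ℝ) =
            ((Real.pi : ℂ) + x - 1) * Real.exp 1 - ((Real.pi : ℂ) + x₁ - 1) * Real.exp 1 := by ring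
        rw [e1]
        exact h.sub hc
      · have h3 := quo_lin (x := (x : ℂ)) (a := ((Real.pi : ℂ) + x - 1) / Real.exp 1) rfl
        exact (hB ⟨_, h.neg, by rw [h3]; exact isAlgebraic_one.sub hx⟩).elim
    have hform : ((Real.pi : ℂ) + (x₁ - 1)) ∈ WW (Real.exp 1 : ℝ) := by
      rw [mem_WW]
      refine ⟨add_mem pi_mem_Lt (Lt_alg (hx₁.sub isAlgebraic_one)), ?_⟩
      have e1 : ((Real.exp 1 : ℝ) : ℂ) * (Real.pi + (x₁ - 1)) =
          ((Real.pi : ℂ) + x₁ - 1) * Real.exp 1 := by ring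
      rw [e1]
      exact Lt_alg hc
    have hne : (x₁ - 1) + 1 * (Real.pi : ℂ) ≠ 0 := by
      intro h0
      apply pi_tr
      have e1 : (Real.pi : ℂ) = -(x₁ - 1) := by linear_combination h0
      rw [e1]
      exact (hx₁.sub isAlgebraic_one).neg
    have h4 : RkLe ((Pw (Real.exp 1 : ℝ) L ∪ Pw Real.pi L) ∪ Fs β L) 4 := by
      rcases (Fs β L).eq_empty_or_nonempty with hF | ⟨x, hx⟩
      · rw [hF, Set.union_empty]
        refine (Pw_rank' e_tr L (hx₁.sub isAlgebraic_one) isAlgebraic_one hne ?_).union (Pw_pi L)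
        have e1 : (x₁ - 1) + 1 * (Real.pi : ℂ) = Real.pi + (x₁ - 1) := by ring
        rw [e1]
        exact (mem_WW.1 hform).2
      · obtain ⟨l₀, hl₀, hu₀⟩ := hFs x hx
        set S : Submodule QB ℂ := Submodule.span QB
          (({L, β * (l₀ + L)} : Finset ℂ) : Set ℂ) with hSd
        have hSf : FiniteDimensional QB S := FiniteDimensional.span_finset QB _
        have hSr : finrank QB S ≤ 2 := (hsp _).trans Finset.card_le_two
        set T₀ : Submodule QB ℂ := WW (Real.exp 1 : ℝ) ⊔ WW Real.pi with hT₀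
        have hpiT : (Real.pi : ℂ) ∈ T₀ ⊔ S := by
          have e1 : (Real.pi : ℂ) = (Real.pi + (x₁ - 1)) -
              (⟨x₁ - 1, mem_QB.2 (hx₁.sub isAlgebraic_one)⟩ : QB) • (1 : ℂ) := by
            rw [Algebra.smul_def]
            change (Real.pi : ℂ) = (Real.pi + (x₁ - 1)) - (x₁ - 1) * 1
            ring
          rw [e1]
          exact Submodule.mem_sup_left (sub_mem (Submodule.mem_sup_left hform)
            (Submodule.mem_sup_right ((WW Real.pi).smul_mem _ hone)))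
        have h4 := case_L hβ hβQ hl₀ hu₀ (T₀ ⊔ S) (le_sup_left.trans le_sup_left)
          (le_sup_right.trans le_sup_left) hpiT
          (Submodule.mem_sup_right (Submodule.subset_span (by simp)))
          (Submodule.mem_sup_right (Submodule.subset_span (by simp)))
        refine h4.weaken ?_
        have h5 := Submodule.finrank_add_le_finrank_add_finrank T₀ S
        have h6 := Submodule.finrank_add_le_finrank_add_finrank (WW (Real.exp 1 : ℝ))
          (WW Real.pi)
        rw [← hT₀] at h6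
        omega
    exact hS.union h4
  · -- no relation
    have hS : Sm4 = ∅ := by
      rw [Set.eq_empty_iff_forall_notMem]
      rintro x ⟨hx, h | h | h | h⟩
      · exact (hB ⟨x, hx, h⟩).elim
      · have h3 : (Real.pi : ℂ) - x * Real.exp 1 = (Real.pi : ℂ) + (-x) * Real.exp 1 := by ring
        rw [h3] at h
        exact (hB ⟨-x, hx.neg, h⟩).elim
      · exact (hC ⟨x, hx, h⟩).elim
      · have h3 := quo_lin (x := (x : ℂ)) (a := ((Real.pi : ℂ) + x - 1) / Real.exp 1) rfl
        exact (hB ⟨_, h.neg, by rw [h3]; exact isAlgebraic_one.sub hx⟩).elim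
    rw [hS, Set.empty_union]
    rcases (Fs β L).eq_empty_or_nonempty with hF | ⟨x, hx⟩
    · rw [hF, Set.union_empty]
      exact (Pw_rank e_tr L).union (Pw_pi L)
    · obtain ⟨l₀, hl₀, hu₀⟩ := hFs x hx
      set S : Submodule QB ℂ := Submodule.span QB
        (({(Real.pi : ℂ), L, β * (l₀ + L)} : Finset ℂ) : Set ℂ) with hSd
      have hSf : FiniteDimensional QB S := FiniteDimensional.span_finset QB _
      have hSr : finrank QB S ≤ 3 := (hsp _).trans Finset.card_le_three
      set T₀ : Submodule QB ℂ := WW (Real.exp 1 : ℝ) ⊔ WW Real.pi with hT₀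
      have h4 := case_L hβ hβQ hl₀ hu₀ (T₀ ⊔ S) (le_sup_left.trans le_sup_left)
        (le_sup_right.trans le_sup_left)
        (Submodule.mem_sup_right (Submodule.subset_span (by simp)))
        (Submodule.mem_sup_right (Submodule.subset_span (by simp)))
        (Submodule.mem_sup_right (Submodule.subset_span (by simp)))
      refine h4.weaken ?_
      have h5 := Submodule.finrank_add_le_finrank_add_finrank T₀ S
      have h6 := Submodule.finrank_add_le_finrank_add_finrank (WW (Real.exp 1 : ℝ))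
        (WW Real.pi)
      rw [← hT₀] at h6
      omega

end Pool.Agent.U945.LA
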