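import Pool.Agent.U945.LA.Sum

set_option autoImplicit false

/-!
# Spaces of exponents, and the sums and products of `π` and `e`
-/

namespace Pool.Agent.U945.LA

open Finset Module
open Pool.Agent.U945.RD (hypK_Lt abs_rank_vec)
open Pool.Agent.H301R2.SSE (QB mem_QB Lt Lt_one Lt_alg Lt_log Lt_mul Lg mem_Lg LB LB_log)
open Pool.Agent.HP778 (pi_mem_Lt)

/-- a basis which begins with `1` -/
theorem exists_mu (U : Submodule QB ℂ) [FiniteDimensional QB U] (h1 : (1 : ℂ) ∈ U) :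
    ∃ (s : ℕ) (mu : Fin s → ℂ), finrank QB U = s + 1 ∧
      LinearIndependent QB (Fin.cons 1 mu : Fin (s + 1) → ℂ) ∧
      ∀ u ∈ U, ∃ (b : QB) (β : Fin s → QB), u = b + ∑ l, (β l : ℂ) * mu l := by
  classical
  set e := Module.finBasis QB U with he
  -- shrink to a basis of `U`
  set A₁ : Submodule QB ℂ := Submodule.span QB {1} with hA₁
  set q : ℂ →ₗ[QB] ℂ ⧸ A₁ := A₁.mkQ with hq
  obtain ⟨N, idx, hN, hli, hspan⟩ := span_idx QB (fun i => q (e i : ℂ))
  have hcons : LinearIndependent QB (Fin.cons 1 (fun l => (e (idx l) : ℂ)) : Fin (N + 1) → ℂ) := by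
    rw [linearIndependent_finCons]
    constructor
    · exact LinearIndependent.of_comp q hli
    · intro h1
      rw [Submodule.mem_span_range_iff_exists_fun] at h1
      obtain ⟨c, hc⟩ := h1
      have h2 := congrArg q hc
      have h3 : q 1 = 0 := by
        rw [hq, Submodule.mkQ_apply, Submodule.Quotient.mk_eq_zero, hA₁]
        exact Submodule.mem_span_singleton_self 1
      rw [map_sum, h3] at h2
      simp only [map_smul] at h2
      rw [Fintype.linearIndependent_iff] at hli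
      have h4 := hli c h2
      rw [Finset.sum_eq_zero (fun l _ => by rw [h4 l, zero_smul])] at hc
      exact zero_ne_one hc
  have hall' : ∀ u ∈ U, ∃ (b : QB) (β : Fin N → QB),
      u = b + ∑ l, (β l : ℂ) * (e (idx l) : ℂ) := by
    intro u hu
    have hqu : q u ∈ Submodule.span QB (Set.range fun i => q (e i : ℂ)) := by
      have h1 := e.sum_repr ⟨u, hu⟩
      have h2 := congrArg (fun u : U => (u : ℂ)) h1
      simp only [Submodule.coe_sum, Submodule.coe_smul] at h2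
      rw [← h2, map_sum]
      refine sum_mem fun i _ => ?_
      rw [map_smul]
      exact Submodule.smul_mem _ _ (Submodule.subset_span ⟨i, rfl⟩)
    obtain ⟨c, hc⟩ := hspan _ hqu
    have h7 : q (u - ∑ l, c l • (e (idx l) : ℂ)) = 0 := by
      rw [map_sub, map_sum]
      simp only [map_smul]
      rw [sub_eq_zero]
      exact hc.symm
    rw [hq, Submodule.mkQ_apply, Submodule.Quotient.mk_eq_zero, hA₁,
      Submodule.mem_span_singleton] at h7
    obtain ⟨b, hb⟩ := h7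
    refine ⟨b, c, ?_⟩
    have h8 : (b : ℂ) = u - ∑ l, (c l : ℂ) * (e (idx l) : ℂ) := by
      have h9 : (b • (1 : ℂ)) = (b : ℂ) := by
        rw [Algebra.smul_def, mul_one]
        rfl
      rw [← h9, hb]
      rfl
    rw [h8]
    ring
  refine ⟨N, fun l => (e (idx l) : ℂ), ?_, hcons, hall'⟩
  have hspanU : U = Submodule.span QB
      (Set.range (Fin.cons 1 (fun l => (e (idx l) : ℂ)) : Fin (N + 1) → ℂ)) := by
    apply le_antisymm
    · intro u hu
      obtain ⟨b, β, hbβ⟩ := hall' u hu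
      rw [hbβ]
      refine add_mem ?_ (sum_mem fun l _ => ?_)
      · have : (b : ℂ) = b • (1 : ℂ) := by
          rw [Algebra.smul_def, mul_one]
          rfl
        rw [this]
        exact Submodule.smul_mem _ _ (Submodule.subset_span ⟨0, rfl⟩)
      · have : (β l : ℂ) * (e (idx l) : ℂ) = β l • (e (idx l) : ℂ) := by
          rw [Algebra.smul_def]
          rfl
        rw [this]
        exact Submodule.smul_mem _ _ (Submodule.subset_span ⟨l.succ, rfl⟩)
    · rw [Submodule.span_le]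
      rintro _ ⟨i, rfl⟩
      refine Fin.cases ?_ (fun l => ?_) i
      · exact h1
      · exact (e (idx l)).2
  rw [hspanU, finrank_span_eq_card hcons, Fintype.card_fin]

/-- exponents in a space of finite dimension which contains a transcendental linear form -/
theorem uv_rank (U V : Submodule QB ℂ) [FiniteDimensional QB U] [FiniteDimensional QB V]
    (h1 : (1 : ℂ) ∈ U) {u₀ : ℂ} (hu₀ : u₀ ∈ U) (hu₀t : Transcendental ℚ u₀) (hu₀L : u₀ ∈ Lt ⊔ V)
    {m : ℕ} {l : Fin m → ℂ} (halg : ∀ i, IsAlgebraic ℚ (Complex.exp (l i)))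
    (hli : LinearIndependent ℚ (Fin.cons (Real.pi * Complex.I) l : Fin (m + 1) → ℂ))
    (h : ∀ i, ∃ ξ ∈ U, Transcendental ℚ ξ ∧ ∃ b d : ℂ, IsAlgebraic ℚ b ∧ IsAlgebraic ℚ d ∧
      ξ * (l i + b + d * Real.pi) ∈ Lt ⊔ V) :
    m + 1 ≤ finrank QB V + finrank QB U * (finrank QB U - 1) := by
  classical
  obtain ⟨s, mu, hs, hmu, hU⟩ := exists_mu U h1
  choose ξ hξU hξt b d hb hd hξ using h
  choose c β hcβ using fun i => hU (ξ i) (hξU i)
  obtain ⟨c₀, β₀, hcβ₀⟩ := hU u₀ hu₀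
  have hLt : ∀ i, l i + b i + d i * Real.pi ∈ Lt := fun i =>
    add_mem (add_mem (Lt_log (halg i)) (Lt_alg (hb i))) (Lt_mul (hd i) pi_mem_Lt)
  have hli' := li_forms halg hli hb hd isAlgebraic_one isAlgebraic_zero (b₀ := 1) (d₀ := 0)
    (by simp)
  have e0 : (1 + 0 * Real.pi : ℂ) = 1 := by ring
  rw [e0] at hli'
  have htr : ∀ (x : ℂ) (a : QB) (γ : Fin s → QB), Transcendental ℚ x →
      x = a + ∑ j, (γ j : ℂ) * mu j → ∃ j, γ j ≠ 0 := by
    intro x a γ hx he
    by_contra hcon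
    push Not at hcon
    apply hx
    rw [he, Finset.sum_eq_zero (fun j _ => by rw [hcon j]; simp), add_zero]
    exact mem_QB.1 a.2
  set W : Fin (m + 1) → ℂ := Fin.cons 1 (fun i => l i + b i + d i * Real.pi) with hW
  set G : Fin (m + 1) → Fin s → QB := Fin.cons β₀ β with hG
  have h2 := abs_rank_vec (n := m + 1) (d := s) hypK_Lt V
    (w := fun i j => (G i j : ℂ) * W i)
    (by
      rw [Fintype.linearIndependent_iff]
      intro g hg i
      have hGi : ∃ j, G i j ≠ 0 := by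
        rw [hG]
        refine Fin.cases ?_ (fun i => ?_) i
        · rw [Fin.cons_zero]
          exact htr u₀ c₀ β₀ hu₀t hcβ₀
        · rw [Fin.cons_succ]
          exact htr (ξ i) (c i) (β i) (hξt i) (hcβ i)
      obtain ⟨j, hj⟩ := hGi
      have h3 := congrFun hg j
      rw [Finset.sum_apply] at h3
      rw [Fintype.linearIndependent_iff] at hli'
      have h4 := hli' (fun i => g i * G i j) (by
        rw [← hW, Pi.zero_apply] at *
        rw [← h3]
        refine Finset.sum_congr rfl fun i _ => ?_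
        rw [Pi.smul_apply, mul_smul]
        congr 1) i
      rcases mul_eq_zero.1 h4 with h5 | h5
      · exact h5
      · exact absurd h5 hj)
    (fun i j => Lt_mul (mem_QB.1 (G i j).2) (by
      rw [hW]
      refine Fin.cases ?_ (fun i => ?_) i
      · rw [Fin.cons_zero]; exact Lt_one
      · rw [Fin.cons_succ]; exact hLt i)) hmu
    (by
      intro i
      refine Fin.cases ?_ (fun i => ?_) i
      · have e1 : ∑ j, mu j * ((G 0 j : ℂ) * W 0) = u₀ - c₀ := by
          rw [hcβ₀, add_sub_cancel_left]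
          refine Finset.sum_congr rfl fun j _ => ?_
          rw [hG, hW, Fin.cons_zero, Fin.cons_zero, mul_one, mul_comm]
        rw [e1]
        exact sub_mem hu₀L (Submodule.mem_sup_left (Lt_alg (mem_QB.1 c₀.2)))
      · have e1 : ∑ j, mu j * ((G i.succ j : ℂ) * W i.succ) =
            ξ i * (l i + b i + d i * Real.pi) - c i * (l i + b i + d i * Real.pi) := by
          rw [← sub_mul, hcβ i, add_sub_cancel_left, Finset.sum_mul]
          refine Finset.sum_congr rfl fun j _ => ?_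
          rw [hG, hW, Fin.cons_succ, Fin.cons_succ]
          ring
        rw [e1]
        exact sub_mem (hξ i) (Submodule.mem_sup_left (Lt_mul (mem_QB.1 (c i).2) (hLt i))))
  rw [hs]
  rw [Nat.add_sub_cancel]
  exact h2

/-- the multiples of `Z` by the elements of `U` -/
theorem smul_space (U : Submodule QB ℂ) [FiniteDimensional QB U] (Z : ℂ) :
    ∃ V : Submodule QB ℂ, ∃ _ : FiniteDimensional QB V, finrank QB V ≤ finrank QB U ∧
      ∀ u ∈ U, u * Z ∈ V := by
  refine ⟨U.map (LinearMap.mulRight QB Z), inferInstance, Submodule.finrank_map_le _ _, fun u hu => ?_⟩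
  exact ⟨u, hu, rfl⟩

/-- The algebraic `x ≠ 0` such that `ξ (l + a Z + b + d π)` is in `Lt` for some transcendental `ξ` in
`U`, some logarithm `l` of `x` and some algebraic `a`, `b`, `d`. -/
def Ex (U : Submodule QB ℂ) (Z : ℂ) : Set ℂˣ :=
  {x | IsAlgebraic ℚ (x : ℂ) ∧ ∃ l : ℂ, (∃ n : ℕ, 0 < n ∧ Complex.exp (n * l) = (x : ℂ) ^ n) ∧
    ∃ ξ ∈ U, Transcendental ℚ ξ ∧ ∃ a b d : ℂ, IsAlgebraic ℚ a ∧ IsAlgebraic ℚ b ∧
      IsAlgebraic ℚ d ∧ ξ * (l + a * Z + b + d * Real.pi) ∈ Lt}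

theorem Ex_rank (U : Submodule QB ℂ) [FiniteDimensional QB U] (Z : ℂ) (h1 : (1 : ℂ) ∈ U)
    (hpi : (Real.pi : ℂ) ∈ U) : RkLe (Ex U Z) (finrank QB U ^ 2 - 1) := by
  obtain ⟨V, hV, hVr, hVm⟩ := smul_space U Z
  refine rkLe_of_logs_pi (A := Ex U Z) (fun m l halg hli h => ?_) (fun x hx => hx)
  have h2 := uv_rank U V h1 hpi Pool.Agent.H340R2.LW.transcendental_pi_complex
    (Submodule.mem_sup_left pi_mem_Lt) halg hli (fun i => by
      obtain ⟨ξ, hξ, hξt, a, b, d, ha, hb, hd, h⟩ := h i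
      refine ⟨ξ, hξ, hξt, b, d, hb, hd, ?_⟩
      have e1 : ξ * (l i + b + d * (Real.pi : ℂ)) =
          ξ * (l i + a * Z + b + d * Real.pi) + -(a * (ξ * Z)) := by ring
      rw [e1]
      refine add_mem (Submodule.mem_sup_left h) (Submodule.mem_sup_right (neg_mem ?_))
      have h3 := V.smul_mem (⟨a, mem_QB.2 ha⟩ : QB) (hVm ξ hξ)
      rw [Algebra.smul_def] at h3
      exact h3)
  have hpos : 1 ≤ finrank QB U := by
    by_contra hcon
    have h0 : finrank QB U = 0 := by omega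
    rw [Submodule.finrank_eq_zero] at h0
    rw [h0, Submodule.mem_bot] at h1
    exact one_ne_zero h1
  have h4 : finrank QB U + finrank QB U * (finrank QB U - 1) = finrank QB U ^ 2 := by
    obtain ⟨k, hk⟩ : ∃ k, finrank QB U = k + 1 := ⟨finrank QB U - 1, by omega⟩
    rw [hk, Nat.add_sub_cancel]
    ring
  omega

/-- The algebraic `x ≠ 0` such that `v (l + a Z + b + d π)` is in `Lt` for some logarithm `l` of `x`
and some algebraic `a`, `b`, `d`. -/
def Pw (v Z : ℂ) : Set ℂˣ :=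
  {x | IsAlgebraic ℚ (x : ℂ) ∧ ∃ l : ℂ, (∃ n : ℕ, 0 < n ∧ Complex.exp (n * l) = (x : ℂ) ^ n) ∧
    ∃ a b d : ℂ, IsAlgebraic ℚ a ∧ IsAlgebraic ℚ b ∧ IsAlgebraic ℚ d ∧
      v * (l + a * Z + b + d * Real.pi) ∈ Lt}

theorem Pw_rank {v : ℂ} (hv : Transcendental ℚ v) (Z : ℂ) : RkLe (Pw v Z) 3 :=
  rkLe_of_logs_pi (A := Pw v Z) (fun _ _ halg hli h => (count hv halg hli h).1) (fun _ hx => hx)

theorem Pw_rank' {v : ℂ} (hv : Transcendental ℚ v) (Z : ℂ) {b₀ d₀ : ℂ} (hb : IsAlgebraic ℚ b₀)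
    (hd : IsAlgebraic ℚ d₀) (h0 : b₀ + d₀ * Real.pi ≠ 0) (h : v * (b₀ + d₀ * Real.pi) ∈ Lt) :
    RkLe (Pw v Z) 2 :=
  rkLe_of_logs_pi (A := Pw v Z) (fun _ _ halg hli h' =>
    (count hv halg hli h').2 b₀ d₀ hb hd h0 h) (fun _ hx => hx)

theorem Pw_pi (Z : ℂ) : RkLe (Pw Real.pi Z) 2 :=
  Pw_rank' Pool.Agent.H340R2.LW.transcendental_pi_complex Z isAlgebraic_one isAlgebraic_zero
    (by simp) (by simpa using pi_mem_Lt)

theorem e_tr : Transcendental ℚ ((Real.exp 1 : ℝ) : ℂ) := by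
  push_cast
  exact Pool.Agent.H340R2.LW.transcendental_exp_one_complex

theorem e_ne : ((Real.exp 1 : ℝ) : ℂ) ≠ 0 := by exact_mod_cast Real.exp_ne_zero 1

theorem pi_tr : Transcendental ℚ ((Real.pi : ℝ) : ℂ) :=
  Pool.Agent.H340R2.LW.transcendental_pi_complex

/-- an algebraic multiple of a transcendental number -/
theorem zero_of_mul {x t : ℂ} (hx : IsAlgebraic ℚ x) (ht : Transcendental ℚ t)
    (h : IsAlgebraic ℚ (x * t)) : x = 0 := by
  by_contra h0
  apply ht
  have : t = x⁻¹ * (x * t) := by field_simp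
  rw [this]
  exact hx.inv.mul h

/-- a sum and a product -/
theorem sum_prod {A B : ℂ} (h1 : IsAlgebraic ℚ (A + B)) (h2 : IsAlgebraic ℚ (A * B)) :
    IsAlgebraic ℚ A := by
  have h3 : IsAlgebraic ℚ ((A - B) ^ 2) := by
    have e1 : (A - B) ^ 2 = (A + B) ^ 2 - 4 * (A * B) := by ring
    rw [e1]
    exact (h1.pow 2).sub ((isAlgebraic_natCast 4).mul h2)
  have h4 : IsAlgebraic ℚ (A - B) := IsAlgebraic.of_pow two_pos h3
  have e2 : A = (2 : ℂ)⁻¹ * ((A + B) + (A - B)) := by ring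
  rw [e2]
  exact (isAlgebraic_natCast (R := ℚ) (A := ℂ) 2).inv.mul (h1.add h4)

/-- a linear and a quadratic relation -/
theorem lin_quad {x y : ℂ} (hx : IsAlgebraic ℚ x) (hy : IsAlgebraic ℚ y)
    (h1 : IsAlgebraic ℚ ((Real.pi : ℂ) + x * Real.exp 1))
    (h2 : IsAlgebraic ℚ (((Real.pi : ℂ) + y - 1) * Real.exp 1)) : False := by
  apply pi_tr
  have h3 := sum_prod (A := (Real.pi : ℂ) + (y - 1)) (B := x * (Real.exp 1 : ℝ)) (by
    have e1 : (Real.pi : ℂ) + (y - 1) + x * (Real.exp 1 : ℝ) =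
        ((Real.pi : ℂ) + x * (Real.exp 1 : ℝ)) + (y - 1) := by ring
    rw [e1]
    exact h1.add (hy.sub isAlgebraic_one)) (by
    have e1 : ((Real.pi : ℂ) + (y - 1)) * (x * (Real.exp 1 : ℝ)) =
        x * (((Real.pi : ℂ) + y - 1) * (Real.exp 1 : ℝ)) := by ring
    rw [e1]
    exact hx.mul h2)
  have e2 : (Real.pi : ℂ) = ((Real.pi : ℂ) + (y - 1)) - (y - 1) := by ring
  rw [e2]
  exact h3.sub (hy.sub isAlgebraic_one)

/-- The algebraic `x ≠ 0` with `π + x e` or `(π + x - 1) e` algebraic. -/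
def Sm : Set ℂˣ :=
  {x | IsAlgebraic ℚ (x : ℂ) ∧ (IsAlgebraic ℚ ((Real.pi : ℂ) + x * Real.exp 1) ∨
    IsAlgebraic ℚ (((Real.pi : ℂ) + x - 1) * Real.exp 1))}

theorem Sm_sub : Sm.Subsingleton := by
  have lin : ∀ x y : ℂ, IsAlgebraic ℚ x → IsAlgebraic ℚ y →
      IsAlgebraic ℚ ((x - y) * (Real.exp 1 : ℝ)) → x = y := fun x y hx hy h =>
    sub_eq_zero.1 (zero_of_mul (hx.sub hy) e_tr h)
  rintro x ⟨hx, h | h⟩ y ⟨hy, h' | h'⟩
  · apply Units.ext
    apply lin _ _ hx hy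
    have e1 : ((x : ℂ) - y) * (Real.exp 1 : ℝ) =
        ((Real.pi : ℂ) + x * Real.exp 1) - ((Real.pi : ℂ) + y * Real.exp 1) := by ring
    rw [e1]
    exact h.sub h'
  · exact (lin_quad hx hy h h').elim
  · exact (lin_quad hy hx h' h).elim
  · apply Units.ext
    apply lin _ _ hx hy
    have e1 : ((x : ℂ) - y) * (Real.exp 1 : ℝ) =
        ((Real.pi : ℂ) + x - 1) * Real.exp 1 - ((Real.pi : ℂ) + y - 1) * Real.exp 1 := by ring
    rw [e1]
    exact h.sub h'

/-- a relation gives a linear form `w` with `e w` a linear form -/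
theorem Sm_form {x : ℂˣ} (hx : x ∈ Sm) : ∃ b₀ d₀ : ℂ, IsAlgebraic ℚ b₀ ∧ IsAlgebraic ℚ d₀ ∧
    b₀ + d₀ * Real.pi ≠ 0 ∧ ((Real.exp 1 : ℝ) : ℂ) * (b₀ + d₀ * Real.pi) ∈ Lt := by
  obtain ⟨hxa, h | h⟩ := hx
  · refine ⟨x, 0, hxa, isAlgebraic_zero, by simp, ?_⟩
    have e1 : ((Real.exp 1 : ℝ) : ℂ) * (x + 0 * Real.pi) =
        ((Real.pi : ℂ) + x * Real.exp 1) - Real.pi := by ring
    rw [e1]
    exact sub_mem (Lt_alg h) pi_mem_Lt
  · refine ⟨x - 1, 1, hxa.sub isAlgebraic_one, isAlgebraic_one, fun h0 => ?_, ?_⟩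
    · apply pi_tr
      have e1 : (Real.pi : ℂ) = -((x : ℂ) - 1) := by linear_combination h0
      rw [e1]
      exact (hxa.sub isAlgebraic_one).neg
    · have e1 : ((Real.exp 1 : ℝ) : ℂ) * (x - 1 + 1 * Real.pi) =
          ((Real.pi : ℂ) + x - 1) * Real.exp 1 := by ring
      rw [e1]
      exact Lt_alg h

/-- distinct primes are multiplicatively independent -/
theorem primes_mi {d : ℕ} {p : Fin d → ℕ} (hp : ∀ i, (p i).Prime) (hinj : Function.Injective p)
    (k : Fin d → ℤ) (hk : ∏ i, ((p i : ℕ) : ℝ) ^ k i = 1) : k = 0 := by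
  have hk' : ∏ i, ((p i : ℕ) : ℚ) ^ k i = 1 := by
    have h : ((∏ i, ((p i : ℕ) : ℚ) ^ k i : ℚ) : ℝ) = ((1 : ℚ) : ℝ) := by
      rw [Rat.cast_prod, Rat.cast_one, ← hk]
      exact Finset.prod_congr rfl fun i _ => by rw [Rat.cast_zpow, Rat.cast_natCast]
    exact Rat.cast_injective h
  funext j
  have : Fact (p j).Prime := ⟨hp j⟩
  have h1 := congrArg (padicValRat (p j)) hk'
  rw [padicValRat.one] at h1
  have h2 : ∀ s : Finset (Fin d), padicValRat (p j) (∏ i ∈ s, ((p i : ℕ) : ℚ) ^ k i) =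
      ∑ i ∈ s, k i * padicValRat (p j) (p i : ℚ) := by
    intro s
    induction s using Finset.induction_on with
    | empty => simp
    | insert a s ha ih =>
      have hne : ∀ i, ((p i : ℕ) : ℚ) ≠ 0 := fun i => by exact_mod_cast (hp i).ne_zero
      rw [Finset.prod_insert ha, Finset.sum_insert ha, padicValRat.mul (zpow_ne_zero _ (hne a))
        (Finset.prod_ne_zero_iff.2 (fun i _ => zpow_ne_zero _ (hne i))), ih, padicValRat.zpow]
  rw [h2, Finset.sum_eq_single j] at h1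
  · rw [padicValRat.self (hp j).one_lt, mul_one] at h1
    exact h1
  · intro i _ hij
    have h3 : ¬ p j ∣ p i := fun h => hij (hinj ((Nat.prime_dvd_prime_iff_eq (hp j) (hp i)).1 h).symm)
    rw [padicValRat.of_nat, padicValNat.eq_zero_of_not_dvd h3]
    simp
  · intro h
    exact absurd (mem_univ j) h

/-- a set of primes without `n + 1` elements in which a property fails -/
theorem primes_enc {n : ℕ} {Q : ℝ → Prop}
    (hQ : ∀ x : Fin (n + 1) → ℝ, (∀ i, 0 < x i) → (∀ i, IsAlgebraic ℚ (x i)) →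
      (∀ k : Fin (n + 1) → ℤ, ∏ i, x i ^ k i = 1 → k = 0) → ∃ i, Q (x i)) :
    {p : ℕ | p.Prime ∧ ¬ Q p}.encard ≤ n := by
  by_contra hcon
  push Not at hcon
  obtain ⟨S, hS, hSn⟩ := Set.exists_subset_encard_eq (Order.add_one_le_of_lt hcon)
  have hfin : S.Finite := Set.finite_of_encard_eq_coe (k := n + 1) (by rw [hSn]; norm_cast)
  obtain ⟨T, rfl⟩ := hfin.exists_finset_coe
  have hT : T.card = n + 1 := by
    rw [Set.encard_coe_eq_coe_finsetCard] at hSn
    exact_mod_cast hSn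
  have hpT : ∀ i, (T.orderIsoOfFin hT i : ℕ) ∈ T := fun i => (T.orderIsoOfFin hT i).2
  obtain ⟨i, hi⟩ := hQ (fun i => ((T.orderIsoOfFin hT i : ℕ) : ℝ))
    (fun i => by exact_mod_cast (hS (hpT i)).1.pos) (fun i => isAlgebraic_natCast _)
    (primes_mi (fun i => (hS (hpT i)).1) (fun i j h => (T.orderIsoOfFin hT).injective
      (Subtype.ext h)))
  exact (hS (hpT i)).2 hi

/-- **the five numbers** -/
theorem five_rank (Z : ℂ) : RkLe (Sm ∪ (Pw (Real.exp 1 : ℝ) Z ∪ Pw Real.pi Z)) 5 := by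
  rcases Sm.eq_empty_or_nonempty with h | ⟨x, hx⟩
  · rw [h, Set.empty_union]
    exact (Pw_rank e_tr Z).union (Pw_pi Z)
  · obtain ⟨b₀, d₀, hb, hd, h0, h1⟩ := Sm_form hx
    exact (rkLe_one Sm_sub).union ((Pw_rank' e_tr Z hb hd h0 h1).union (Pw_pi Z))

end Pool.Agent.U945.LA
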