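import Pool.Agent.U945.LA.GMain
import Pool.Agent.U945.RD.Main

set_option autoImplicit false
set_option linter.style.haveILetI false
set_option linter.unusedSectionVars false

/-!
# The condition on the coefficients
-/

namespace Pool.Agent.U945.LA

open Finset Module
open Pool.Agent.H301R2.SSE (QB mem_QB Lt Lt_one Lt_log Lg mem_Lg)

variable {m d : ℕ}

theorem gen_of_li {lam : Fin d → ℂ}
    (hlam : LinearIndependent QB (Fin.cons 1 lam : Fin (d + 1) → ℂ)) :
    Gen (fun _ : Fin 1 => lam) := by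
  intro q hq
  refine ⟨0, fun halg => hq ?_⟩
  rw [Fintype.linearIndependent_iff] at hlam
  have h1 := hlam (Fin.cons (-(⟨_, mem_QB.2 halg⟩ : QB)) fun i => ((q i : ℤ) : QB)) (by
    rw [Fin.sum_univ_succ]
    simp only [Fin.cons_zero, Fin.cons_succ]
    rw [neg_smul, neg_add_eq_zero, Algebra.smul_def, mul_one]
    show ∑ i, lam i * (q i : ℂ) = _
    refine Finset.sum_congr rfl fun i _ => ?_
    rw [Algebra.smul_def, map_intCast, mul_comm])
  funext i
  have h2 := h1 i.succ
  rw [Fin.cons_succ] at h2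
  exact_mod_cast h2

theorem gen_diag {t : ℂ} (ht : Transcendental ℚ t) :
    Gen (fun k i : Fin d => if i = k then t else 0) := by
  intro q hq
  obtain ⟨k, hk⟩ := Function.ne_iff.1 hq
  refine ⟨k, fun halg => ht ?_⟩
  have h1 : ∑ i, (if i = k then t else 0) * (q i : ℂ) = t * q k := by
    simp only [ite_mul, zero_mul, Finset.sum_ite_eq', mem_univ, if_true]
  rw [h1] at halg
  have hq0 : (q k : ℂ) ≠ 0 := by exact_mod_cast hk
  have h2 : t = t * q k * (q k : ℂ)⁻¹ := by field_simp
  rw [h2]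
  exact halg.mul (isAlgebraic_intCast _).inv

/-- the converse -/
theorem not_gen {lam : Fin m → Fin d → ℂ} (h : ¬ Gen lam) (V : Submodule QB ℂ) (n : ℕ) :
    ∃ X : Fin n → Fin d → ℂˣ, (∀ j, X j ∈ EG lam V) ∧
      ∀ k : Fin n → ℤ, ∏ j, X j ^ k j = 1 → k = 0 := by
  unfold Gen at h
  push Not at h
  obtain ⟨q, hq, hk⟩ := h
  set p : Fin n → ℕ := fun j => Nat.nth Nat.Prime j with hp
  have hpp : ∀ j, (p j).Prime := fun j => Nat.prime_nth_prime j
  have hinj : Function.Injective p := fun a b hab =>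
    Fin.ext (Nat.nth_injective Nat.infinite_setOfPred_prime hab)
  have hp0 : ∀ j, (p j : ℂ) ≠ 0 := fun j => by exact_mod_cast (hpp j).ne_zero
  refine ⟨fun j i => Units.mk0 (p j : ℂ) (hp0 j) ^ q i, fun j => ⟨fun i => ?_,
    fun i => q i * ((Real.log (p j) : ℝ) : ℂ), fun i => ⟨1, one_pos, ?_⟩, fun k => ?_⟩,
    fun k hk1 => ?_⟩
  · rw [Units.val_zpow_eq_zpow_val, Units.val_mk0]
    have h1 : (p j : ℂ) ^ q i ∈ QB := zpow_mem (mem_QB.2 (isAlgebraic_natCast _)) _
    exact mem_QB.1 h1
  · rw [Nat.cast_one, one_mul, pow_one, Complex.exp_int_mul, Units.val_zpow_eq_zpow_val,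
      Units.val_mk0]
    congr 1
    rw [← Complex.ofReal_exp, Real.exp_log (by exact_mod_cast (hpp j).pos)]
    norm_cast
  · apply Submodule.mem_sup_left
    have h1 : ∑ i, lam k i * ((q i : ℂ) * ((Real.log (p j) : ℝ) : ℂ)) =
        (⟨_, mem_QB.2 (not_not.1 (hk k))⟩ : QB) • ((Real.log (p j) : ℝ) : ℂ) := by
      rw [Algebra.smul_def]
      show _ = (∑ i, lam k i * (q i : ℂ)) * _
      rw [Finset.sum_mul]
      exact Finset.sum_congr rfl fun i _ => by ring
    rw [h1]
    apply Submodule.smul_mem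
    apply Lt_log
    rw [← Complex.ofReal_exp, Real.exp_log (by exact_mod_cast (hpp j).pos)]
    have : (((p j : ℕ) : ℝ) : ℂ) = ((p j : ℕ) : ℂ) := by norm_cast
    rw [this]
    exact isAlgebraic_natCast _
  · obtain ⟨i, hi⟩ := Function.ne_iff.1 hq
    have h1 := Pool.Agent.U945.RD.indep_primes hpp hinj
    rw [Fintype.linearIndependent_iff] at h1
    have h2 := congrFun hk1 i
    rw [Finset.prod_apply, Pi.one_apply] at h2
    have h3 := congrArg (fun u : ℂˣ => (u : ℂ)) h2
    simp only [Pi.pow_apply, Units.coe_prod, Units.val_one, Units.val_zpow_eq_zpow_val,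
      Units.val_mk0] at h3
    have h4 : ∏ j, ((p j : ℝ) ^ q i) ^ k j = 1 := by
      apply Complex.ofReal_injective
      push_cast
      exact h3
    have h5 : ∑ j, ((q i * k j : ℤ) : ℝ) * Real.log (p j) = 0 := by
      have h6 := congrArg Real.log h4
      rw [Real.log_one, Real.log_prod (fun j _ => zpow_ne_zero _ (zpow_ne_zero _ (by
        exact_mod_cast (hpp j).ne_zero)))] at h6
      rw [← h6]
      refine Finset.sum_congr rfl fun j _ => ?_
      rw [← zpow_mul, Real.log_zpow]
    have h7 := h1 (Fin.cons 0 fun j => ((q i * k j : ℤ) : QB)) (by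
      rw [Fin.sum_univ_succ]
      simp only [Fin.cons_zero, Fin.cons_succ]
      rw [zero_smul, zero_add]
      have h8 : ((∑ j, ((q i * k j : ℤ) : ℝ) * Real.log (p j) : ℝ) : ℂ) = 0 := by
        rw [h5]; norm_num
      rw [← h8]
      push_cast
      refine Finset.sum_congr rfl fun j _ => ?_
      rw [Algebra.smul_def, map_mul, map_intCast, map_intCast]
      unfold Pool.Agent.U945.AP.lg
      push_cast
      rfl)
    funext j
    have h9 := h7 j.succ
    rw [Fin.cons_succ] at h9
    have h10 : q i * k j = 0 := by exact_mod_cast h9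
    exact (mul_eq_zero.1 h10).resolve_left hi

end Pool.Agent.U945.LA
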