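import Pool.Agent.U945.LA.Div
import Pool.Agent.U945.TS.Cos

set_option autoImplicit false
set_option linter.style.haveILetI false
set_option linter.unusedSectionVars false

/-!
# The unit equation in division groups of complex algebraic numbers, and algebraic subsets of tori
-/

namespace Pool.Agent.U945.LA

open Finset MvPolynomial
open Pool.Agent.N449.SP (UE ue_ratio)

theorem ue_mono {F : Type} [Field F] {U V : Set F} (h : V ⊆ U) (hU : UE U) : UE V := by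
  intro n
  obtain ⟨R, hR⟩ := hU n
  exact ⟨R, fun f hf => hR f fun i => h (hf i)⟩

theorem ue_map {F E : Type} [Field F] [Field E] (τ : F →+* E) {U : Set F} (hU : UE U) :
    UE (τ '' U) := by
  classical
  intro n
  obtain ⟨R, hR⟩ := hU n
  refine ⟨R.image τ, fun f hf hs hmin i j => ?_⟩
  choose g hg hgf using hf
  have hz : ∀ J : Finset (Fin n), ∑ i ∈ J, g i = 0 ↔ ∑ i ∈ J, f i = 0 := by
    intro J
    rw [← Finset.sum_congr rfl fun i _ => hgf i, ← map_sum, map_eq_zero]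
  rw [Finset.mem_image]
  refine ⟨g i / g j, hR g hg ((hz univ).2 hs) (fun J hJ hJs => hmin J hJ ((hz J).1 hJs)) i j, ?_⟩
  rw [map_div₀, hgf, hgf]

/-- the division group of the group generated by `S` -/
def Dv (S : Set ℂˣ) : Subgroup ℂˣ where
  carrier := {u | ∃ e : ℕ, 0 < e ∧ u ^ e ∈ Subgroup.closure S}
  one_mem' := ⟨1, one_pos, by rw [one_pow]; exact one_mem _⟩
  mul_mem' := by
    rintro x y ⟨e, he, h⟩ ⟨e', he', h'⟩
    refine ⟨e * e', Nat.mul_pos he he', ?_⟩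
    rw [mul_pow, pow_mul, mul_comm e e', pow_mul]
    exact mul_mem (Subgroup.pow_mem _ h _) (Subgroup.pow_mem _ h' _)
  inv_mem' := by
    rintro x ⟨e, he, h⟩
    exact ⟨e, he, by rw [inv_pow]; exact inv_mem h⟩

theorem mem_Dv {S : Set ℂˣ} {u : ℂˣ} : u ∈ Dv S ↔ ∃ e : ℕ, 0 < e ∧ u ^ e ∈ Subgroup.closure S :=
  Iff.rfl

theorem subset_Dv {S : Set ℂˣ} {u : ℂˣ} (h : u ∈ S) : u ∈ Dv S :=
  ⟨1, one_pos, by rw [pow_one]; exact Subgroup.subset_closure h⟩

theorem Dv_root {S : Set ℂˣ} {u : ℂˣ} {e : ℕ} (he : 0 < e) (h : u ^ e ∈ Dv S) : u ∈ Dv S := by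
  obtain ⟨e', he', h'⟩ := h
  exact ⟨e * e', Nat.mul_pos he he', by rwa [pow_mul]⟩

/-- **The unit equation in the division group.** -/
theorem ue_Dv (S : Finset ℂˣ) (hS : ∀ u ∈ S, IsAlgebraic ℚ (u : ℂ)) :
    UE {x : ℂ | ∃ u ∈ Dv (S : Set ℂˣ), (u : ℂ) = x} := by
  classical
  set S' : Set ℂ := (fun u : ℂˣ => (u : ℂ)) '' (S : Set ℂˣ) with hS'
  haveI : Finite S' := (S.finite_toSet.image _).to_subtype
  set L := IntermediateField.adjoin ℚ S' with hL
  haveI : FiniteDimensional ℚ L := IntermediateField.finiteDimensional_adjoin (by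
    rintro x ⟨u, hu, rfl⟩
    exact (hS u hu).isIntegral)
  haveI : NumberField L := ⟨⟩
  have hmem : ∀ u ∈ S, (u : ℂ) ∈ L := fun u hu => IntermediateField.subset_adjoin _ _ ⟨u, hu, rfl⟩
  haveI : IsAlgClosure L (algebraicClosure L ℂ) := inferInstance
  set g : Fin S.card → Lˣ := fun l => Units.mk0 ⟨((S.equivFin.symm l : ℂˣ) : ℂ),
    hmem _ (S.equivFin.symm l).2⟩ (fun hc => (S.equivFin.symm l : ℂˣ).ne_zero
      (congrArg Subtype.val hc)) with hg
  have h1 := ue_map (algebraMap (algebraicClosure L ℂ) ℂ)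
    (lau (K := L) (Ω := algebraicClosure L ℂ) (algebraMap (algebraicClosure L ℂ) ℂ) S.card g)
  refine ue_mono ?_ h1
  rintro x ⟨u, ⟨e, he, h⟩, rfl⟩
  have h2 : Set.range (fun l => (S.equivFin.symm l : ℂˣ)) = (S : Set ℂˣ) := by
    ext x
    constructor
    · rintro ⟨j, rfl⟩
      exact (S.equivFin.symm j).2
    · intro hx
      exact ⟨S.equivFin ⟨x, hx⟩, by simp⟩
  rw [← h2, Subgroup.mem_closure_range_iff_of_fintype] at h
  obtain ⟨a, ha⟩ := h
  have h3 : (u : ℂ) ^ e = algebraMap L ℂ ((∏ l, g l ^ a l : Lˣ) : L) := by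
    rw [← Units.val_pow_eq_pow_val, ha, Units.coe_prod, Units.coe_prod, map_prod]
    refine Finset.prod_congr rfl fun l _ => ?_
    rw [Units.val_zpow_eq_zpow_val, Units.val_zpow_eq_zpow_val, map_zpow₀]
    rfl
  have h4 : (u : ℂ) ∈ algebraicClosure L ℂ := by
    rw [mem_algebraicClosure_iff]
    apply IsAlgebraic.of_pow he
    rw [h3]
    exact isAlgebraic_algebraMap _
  refine ⟨⟨(u : ℂ), h4⟩, ⟨fun hc => u.ne_zero (congrArg Subtype.val hc), e, he, a, ?_⟩, rfl⟩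
  apply (algebraMap (algebraicClosure L ℂ) ℂ).injective
  rw [map_pow]
  exact h3

/-- the character with exponents `m` -/
def chrU {d : ℕ} (m : Fin d → ℤ) (z : Fin d → ℂˣ) : ℂˣ := ∏ i, z i ^ m i

lemma chrU_sub {d : ℕ} (z : Fin d → ℂˣ) (α β : Fin d →₀ ℕ) :
    (chrU (fun i => (α i : ℤ) - β i) z : ℂ) * ∏ i, (z i : ℂ) ^ β i = ∏ i, (z i : ℂ) ^ α i := by
  unfold chrU
  rw [Units.coe_prod, ← Finset.prod_mul_distrib]
  refine Finset.prod_congr rfl fun i _ => ?_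
  rw [Units.val_zpow_eq_zpow_val, zpow_sub₀ (z i).ne_zero, zpow_natCast, zpow_natCast,
    div_mul_cancel₀ _ (pow_ne_zero _ (z i).ne_zero)]

/-- **Cosets.** -/
theorem cosets_gen {d : ℕ} {κ : Type} [Fintype κ] (U : Set ℂ) (hU : UE U) (E : Set (Fin d → ℂˣ))
    (P : κ → MvPolynomial (Fin d) ℂ)
    (hPU : ∀ x ∈ E, ∀ j, ∀ α ∈ (P j).support, (P j).coeff α * ∏ i, (x i : ℂ) ^ α i ∈ U) :
    ∃ T : Finset ((Fin d → ℂˣ) × Finset (Fin d → ℤ)),
      (∀ t ∈ T, t.1 ∈ E ∧ ∀ z : Fin d → ℂˣ, (∀ m ∈ t.2, chrU m z = chrU m t.1) →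
        ∀ j, eval (fun i => (z i : ℂ)) (P j) = 0) ∧
      ∀ x ∈ E, (∀ j, eval (fun i => (x i : ℂ)) (P j) = 0) → ∃ t ∈ T, ∀ m ∈ t.2,
        chrU m x = chrU m t.1 := by
  classical
  set N : ℕ := ∑ j, (P j).support.card with hN
  obtain ⟨R, hR⟩ := ue_ratio U hU N
  -- the terms
  set f : (Fin d → ℂˣ) → κ → (Fin d →₀ ℕ) → ℂ := fun x j α =>
    (P j).coeff α * ∏ i, (x i : ℂ) ^ α i with hf
  have hx0 : ∀ (x : Fin d → ℂˣ) i, (x i : ℂ) ≠ 0 := fun x i => (x i).ne_zero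
  have hf0 : ∀ x j, ∀ α ∈ (P j).support, f x j α ≠ 0 := fun x j α hα =>
    mul_ne_zero (mem_support_iff.1 hα) (Finset.prod_ne_zero_iff.2 fun i _ => pow_ne_zero _ (hx0 x i))
  have hfG : ∀ x ∈ E, ∀ j, ∀ α ∈ (P j).support, f x j α ∈ U := hPU
  -- the index set of the pairs of terms and the types
  set I : Type := (j : κ) × ((P j).support × (P j).support) with hI
  have hIf : Fintype I := inferInstance
  set typ : (Fin d → ℂˣ) → I → Option R := fun x q =>
    if h : f x q.1 q.2.1 / f x q.1 q.2.2 ∈ R then some ⟨_, h⟩ else none with htyp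
  have htyp_some : ∀ x (q : I), typ x q ≠ none → f x q.1 q.2.1 / f x q.1 q.2.2 ∈ R := by
    intro x q h
    by_contra hcon
    apply h
    rw [htyp]
    exact dif_neg hcon
  have htyp_eq : ∀ x y (q : I), typ x q ≠ none → typ x q = typ y q →
      f x q.1 q.2.1 / f x q.1 q.2.2 = f y q.1 q.2.1 / f y q.1 q.2.2 := by
    intro x y q h he
    have h1 := htyp_some x q h
    have h2 := htyp_some y q (he ▸ h)
    rw [htyp] at he
    dsimp only at he
    rw [dif_pos h1, dif_pos h2] at he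
    have := Option.some.inj he
    exact congrArg (fun r : R => (r : ℂ)) this
  have htyp_mem : ∀ x (q : I), f x q.1 q.2.1 / f x q.1 q.2.2 ∈ R → typ x q ≠ none := by
    intro x q h
    rw [htyp]
    dsimp only
    rw [dif_pos h]
    exact Option.some_ne_none _
  set Z : Set (Fin d → ℂˣ) := {x | x ∈ E ∧ ∀ j, eval (fun i => (x i : ℂ)) (P j) = 0} with hZ
  set Ty : Set (I → Option R) := typ '' Z with hTy
  have hTyf : Ty.Finite := Set.toFinite _
  have hrep : ∀ ty : I → Option R, ∃ y : Fin d → ℂˣ, ty ∈ Ty → y ∈ Z ∧ typ y = ty := by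
    intro ty
    by_cases h : ty ∈ Ty
    · obtain ⟨y, hy, hy'⟩ := h
      exact ⟨y, fun _ => ⟨hy, hy'⟩⟩
    · exact ⟨1, fun h' => absurd h' h⟩
  choose rep hrep using hrep
  set M : (I → Option R) → Finset (Fin d → ℤ) := fun ty =>
    ((univ : Finset I).filter (fun q => ty q ≠ none)).image
      (fun q i => ((q.2.1 : Fin d →₀ ℕ) i : ℤ) - (q.2.2 : Fin d →₀ ℕ) i) with hM
  have heval : ∀ x j, eval (fun i => ((x i : ℂˣ) : ℂ)) (P j) = ∑ α ∈ (P j).support, f x j α := by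
    intro x j
    rw [eval_eq']
  refine ⟨hTyf.toFinset.image (fun ty => (rep ty, M ty)), ?_, ?_⟩
  · intro t ht
    rw [Finset.mem_image] at ht
    obtain ⟨ty, hty, rfl⟩ := ht
    rw [Set.Finite.mem_toFinset] at hty
    obtain ⟨hyZ, hyt⟩ := hrep ty hty
    set y := rep ty with hy
    refine ⟨hyZ.1, fun z hm j => ?_⟩
    rw [heval]
    refine Pool.Agent.U945.TS.transfer (RingHom.id ℂ) (R : Set ℂ) (f y j) (f z j) _ (P j).support
      rfl (hf0 y j) ?_ ?_ ?_
    · intro J₁ hJ₁ hmin hs₁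
      exact hR _ (f y j) J₁ ((Finset.card_le_card hJ₁).trans
        (Finset.single_le_sum (f := fun j => (P j).support.card) (fun _ _ => Nat.zero_le _)
          (mem_univ j))) (fun α hα => hfG y hyZ.1 j α (hJ₁ hα)) hs₁
        (fun J' hJ' hne hs' => hmin J' hJ' hne hs')
    · intro α hα β hβ hr
      have h1 : typ y ⟨j, ⟨⟨α, hα⟩, ⟨β, hβ⟩⟩⟩ ≠ none := htyp_mem y ⟨j, ⟨⟨α, hα⟩, ⟨β, hβ⟩⟩⟩ hr
      have h2 := hm (fun i => (α i : ℤ) - β i) (by
        rw [hM]
        dsimp only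
        rw [Finset.mem_image]
        refine ⟨⟨j, ⟨⟨α, hα⟩, ⟨β, hβ⟩⟩⟩, ?_, rfl⟩
        rw [Finset.mem_filter]
        exact ⟨mem_univ _, by rw [← hyt]; exact h1⟩)
      have h3 := chrU_sub z α β
      have h4 := chrU_sub y α β
      rw [h2] at h3
      have h5 : (∏ i, (z i : ℂ) ^ α i) * ∏ i, (y i : ℂ) ^ β i =
          (∏ i, (z i : ℂ) ^ β i) * ∏ i, (y i : ℂ) ^ α i := by
        rw [← h3, ← h4]
        ring
      rw [hf]
      simp only [RingHom.id_apply]
      linear_combination ((P j).coeff α * (P j).coeff β) * h5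
    · rw [← heval]
      exact hyZ.2 j
  · intro x hx hxZ
    have hty : typ x ∈ Ty := ⟨x, ⟨hx, hxZ⟩, rfl⟩
    obtain ⟨hyZ, hyt⟩ := hrep _ hty
    refine ⟨(rep (typ x), M (typ x)), Finset.mem_image.2 ⟨typ x, by
      rw [Set.Finite.mem_toFinset]; exact hty, rfl⟩, ?_⟩
    dsimp only
    set y := rep (typ x) with hy
    intro m hm
    rw [hM] at hm
    dsimp only at hm
    rw [Finset.mem_image] at hm
    obtain ⟨q, hq, rfl⟩ := hm
    rw [Finset.mem_filter] at hq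
    have h1 := htyp_eq x y q hq.2 (by rw [hyt])
    obtain ⟨j, ⟨⟨α, hα⟩, ⟨β, hβ⟩⟩⟩ := q
    dsimp only at h1 ⊢
    have hb : (∏ i, (x i : ℂ) ^ β i) ≠ 0 :=
      Finset.prod_ne_zero_iff.2 fun i _ => pow_ne_zero _ (hx0 x i)
    have hb' : (∏ i, (y i : ℂ) ^ β i) ≠ 0 :=
      Finset.prod_ne_zero_iff.2 fun i _ => pow_ne_zero _ (hx0 y i)
    have hc : (P j).coeff α / (P j).coeff β ≠ 0 :=
      div_ne_zero (mem_support_iff.1 hα) (mem_support_iff.1 hβ)
    rw [hf] at h1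
    dsimp only at h1
    rw [mul_div_mul_comm, mul_div_mul_comm] at h1
    have h2 := mul_left_cancel₀ hc h1
    have h3 := chrU_sub x α β
    have h4 := chrU_sub y α β
    rw [← h3, ← h4, mul_div_cancel_right₀ _ hb, mul_div_cancel_right₀ _ hb'] at h2
    exact Units.ext h2

end Pool.Agent.U945.LA
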