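import Pool.Agent.U945.LA.Gal

set_option autoImplicit false
set_option linter.style.haveILetI false
set_option linter.unusedSectionVars false

/-!
# The unit equation in the division group of a finitely generated group
-/

namespace Pool.Agent.U945.LA

open Polynomial Finset
open Pool.Agent.N449.SP (Pm UE ue_numberField)

theorem zsum {G ι : Type*} [CommGroup G] (g : G) (s : Finset ι) (b : ι → ℤ) :
    ∏ i ∈ s, g ^ b i = g ^ (∑ i ∈ s, b i) := by
  classical
  induction s using Finset.induction_on with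
  | empty => simp
  | insert i s hi ih => rw [Finset.prod_insert hi, Finset.sum_insert hi, zpow_add, ih]

/-- the division group of a finitely generated subgroup in a number field -/
theorem fg_div {K : Type} [Field K] [NumberField K] (r : ℕ) (g : Fin r → Kˣ) :
    ∃ (s : ℕ) (h : Fin s → Kˣ), ∀ c : Kˣ,
      (∃ e : ℕ, 0 < e ∧ ∃ a : Fin r → ℤ, c ^ e = ∏ l, g l ^ a l) → ∃ a : Fin s → ℤ,
        c = ∏ l, h l ^ a l := by
  classical
  set Γ : Subgroup (Fin 1 → Kˣ) :=
    { carrier := {c | ∃ e : ℕ, 0 < e ∧ ∃ a : Fin r → ℤ, c 0 ^ e = ∏ l, g l ^ a l}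
      one_mem' := ⟨1, one_pos, 0, by simp⟩
      mul_mem' := by
        rintro x y ⟨e, he, a, ha⟩ ⟨e', he', b, hb⟩
        refine ⟨e * e', Nat.mul_pos he he', fun l => e' * a l + e * b l, ?_⟩
        rw [Pi.mul_apply, mul_pow, pow_mul, ha, mul_comm e e', pow_mul, hb, ← Finset.prod_pow,
          ← Finset.prod_pow, ← Finset.prod_mul_distrib]
        refine Finset.prod_congr rfl fun l _ => ?_
        rw [← zpow_natCast, ← zpow_natCast, ← zpow_mul, ← zpow_mul, ← zpow_add]
        congr 1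
        ring
      inv_mem' := by
        rintro x ⟨e, he, a, ha⟩
        refine ⟨e, he, fun l => -a l, ?_⟩
        rw [Pi.inv_apply, inv_pow, ha, ← Finset.prod_inv_distrib]
        exact Finset.prod_congr rfl fun l _ => (zpow_neg _ _).symm } with hΓ
  have hfg : Γ.FG := by
    refine Pool.Agent.U945.TS.fg_of_rank Γ r fun n X hX hmi => ?_
    choose e he a ha using hX
    have hli : LinearIndependent ℤ a := by
      rw [Fintype.linearIndependent_iff]
      intro k hk
      have h1 := hmi (fun j => (e j : ℤ) * k j) (by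
        funext i
        rw [Subsingleton.elim i 0, Finset.prod_apply, Pi.one_apply]
        have h2 : ∀ j, (X j ^ ((e j : ℤ) * k j)) 0 = ∏ l, g l ^ (a j l * k j) := by
          intro j
          rw [Pi.pow_apply, zpow_mul, zpow_natCast, ha, ← Finset.prod_zpow]
          exact Finset.prod_congr rfl fun l _ => (zpow_mul _ _ _).symm
        rw [Finset.prod_congr rfl fun j _ => h2 j, Finset.prod_comm]
        refine Finset.prod_eq_one fun l _ => ?_
        rw [zsum]
        have h4 := congrFun hk l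
        rw [Finset.sum_apply, Pi.zero_apply] at h4
        have h5 : ∑ j, a j l * k j = 0 := by
          rw [← h4]
          exact Finset.sum_congr rfl fun j _ => by rw [Pi.smul_apply, smul_eq_mul, mul_comm]
        rw [h5, zpow_zero])
      intro j
      have h3 : (e j : ℤ) * k j = 0 := congrFun h1 j
      exact (mul_eq_zero.1 h3).resolve_left (by have := he j; omega)
    have := hli.fintype_card_le_finrank
    simpa using this
  obtain ⟨T, hT⟩ := hfg
  refine ⟨T.card, fun j => (T.equivFin.symm j : Fin 1 → Kˣ) 0, fun c hc => ?_⟩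
  have h1 : (fun _ => c : Fin 1 → Kˣ) ∈ Γ := hc
  rw [← hT] at h1
  have h2 : Set.range (fun j => (T.equivFin.symm j : Fin 1 → Kˣ)) = (T : Set (Fin 1 → Kˣ)) := by
    ext x
    constructor
    · rintro ⟨j, rfl⟩
      exact (T.equivFin.symm j).2
    · intro hx
      exact ⟨T.equivFin ⟨x, hx⟩, by simp⟩
  rw [← h2, Subgroup.mem_closure_range_iff_of_fintype] at h1
  obtain ⟨a, ha⟩ := h1
  refine ⟨a, ?_⟩
  have h3 := congrFun ha 0
  rw [Finset.prod_apply] at h3
  rw [h3]
  exact Finset.prod_congr rfl fun j _ => rfl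

/-- the unit equation in a finitely generated group of elements of an algebraic extension -/
theorem ue_of_fg (K : Type) {Ω : Type} [Field K] [NumberField K] [Field Ω] [Algebra K Ω]
    [Algebra.IsAlgebraic K Ω] (r : ℕ) (h : Fin r → Ω) (h0 : ∀ j, h j ≠ 0) :
    UE {x : Ω | ∃ a : Fin r → ℤ, x = ∏ j, h j ^ a j} := by
  classical
  set L := IntermediateField.adjoin K (Set.range h) with hL
  haveI : Finite (Set.range h) := Set.finite_range h
  haveI : FiniteDimensional K L := IntermediateField.finiteDimensional_adjoin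
    (fun x _ => Algebra.IsIntegral.isIntegral x)
  haveI : NumberField L := NumberField.of_module_finite K L
  have hmem : ∀ j, h j ∈ L := fun j => IntermediateField.subset_adjoin _ _ ⟨j, rfl⟩
  set g : Fin r → Lˣ := fun j => Units.mk0 ⟨h j, hmem j⟩ (fun hc => h0 j (congrArg Subtype.val hc))
    with hg
  set Γ : Subgroup Lˣ := Subgroup.closure (Set.range g) with hΓ
  have hΓfg : Γ.FG := ⟨(Set.finite_range g).toFinset, by rw [Set.Finite.coe_toFinset]⟩
  intro n
  obtain ⟨R, hR⟩ := ue_numberField L Γ hΓfg n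
  refine ⟨R.image (fun x : L => (x : Ω)), fun f hf hs hmin i j => ?_⟩
  choose a ha using hf
  set f' : Fin n → L := fun i => ((∏ j, g j ^ a i j : Lˣ) : L) with hf'
  have hff : ∀ i, ((f' i : L) : Ω) = f i := by
    intro i
    rw [ha i, hf']
    dsimp only
    rw [Units.coe_prod]
    have h1 : (((∏ j, ((g j ^ a i j : Lˣ) : L)) : L) : Ω) = ∏ j, (((g j ^ a i j : Lˣ) : L) : Ω) :=
      map_prod (algebraMap L Ω) _ _
    rw [h1]
    refine Finset.prod_congr rfl fun j _ => ?_
    rw [Units.val_zpow_eq_zpow_val]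
    exact map_zpow₀ (algebraMap L Ω) _ _
  have hsum : ∀ J : Finset (Fin n), ((∑ i ∈ J, f' i : L) : Ω) = ∑ i ∈ J, f i := by
    intro J
    rw [← Finset.sum_congr rfl fun i _ => hff i]
    exact map_sum (algebraMap L Ω) _ _
  have hz : ∀ J : Finset (Fin n), ∑ i ∈ J, f i = 0 ↔ ∑ i ∈ J, f' i = 0 := by
    intro J
    rw [← hsum J]
    exact map_eq_zero (algebraMap L Ω)
  have hmΓ : ∀ i, f' i ∈ Pm Γ := fun i => ⟨∏ j, g j ^ a i j, Subgroup.prod_mem _ fun j _ =>
    Subgroup.zpow_mem _ (Subgroup.subset_closure (Set.mem_range_self j)) _, Or.inl rfl⟩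
  have h2 := hR f' hmΓ ((hz univ).1 hs) (fun J hJ hJs => hmin J hJ ((hz J).2 hJs)) i j
  rw [Finset.mem_image]
  refine ⟨_, h2, ?_⟩
  rw [← hff i, ← hff j]
  exact map_div₀ (algebraMap L Ω) _ _

section
variable {K Ω : Type} [Field K] [NumberField K] [Field Ω] [Algebra K Ω] [IsAlgClosure K Ω]

/-- **The unit equation in the division group.** -/
theorem lau (ι : Ω →+* ℂ) (r : ℕ) (g : Fin r → Kˣ) :
    UE {x : Ω | x ≠ 0 ∧ ∃ e : ℕ, 0 < e ∧ ∃ a : Fin r → ℤ,
      x ^ e = algebraMap K Ω ((∏ l, g l ^ a l : Kˣ) : K)} := by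
  classical
  haveI : IsAlgClosed Ω := IsAlgClosure.isAlgClosed K
  haveI : CharZero Ω := charZero_of_injective_algebraMap (algebraMap K Ω).injective
  haveI : Algebra.IsAlgebraic K Ω := IsAlgClosure.isAlgebraic
  intro n
  obtain ⟨M, hM, hpm⟩ := pow_mem (K := K) ι
  obtain ⟨s, c, hc⟩ := fg_div r g
  -- roots of the generators
  have hroot : ∀ j, ∃ h : Ω, h ^ M = algebraMap K Ω (c j : K) := fun j => by
    obtain ⟨h, hh⟩ := IsAlgClosed.exists_pow_nat_eq (algebraMap K Ω (c j : K)) hM
    exact ⟨h, hh⟩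
  choose h hh using hroot
  have hh0 : ∀ j, h j ≠ 0 := by
    intro j hj
    have h1 := hh j
    rw [hj, zero_pow hM.ne'] at h1
    exact (map_ne_zero (algebraMap K Ω)).2 (c j).ne_zero h1.symm
  set L := IntermediateField.adjoin K (Set.range h) with hL
  haveI : Finite (Set.range h) := Set.finite_range h
  haveI : FiniteDimensional K L := IntermediateField.finiteDimensional_adjoin
    (fun x _ => Algebra.IsIntegral.isIntegral x)
  haveI : NumberField L := NumberField.of_module_finite K L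
  have hmem : ∀ j, h j ∈ L := fun j => IntermediateField.subset_adjoin _ _ ⟨j, rfl⟩
  set φ : L →+* ℂ := ι.comp (algebraMap L Ω) with hφ
  set W : Submodule ℚ ℂ := LinearMap.range φ.toRatAlgHom.toLinearMap with hW
  have hWfg : W.FG := by
    rw [← Module.Finite.iff_fg]
    infer_instance
  have hWmem : ∀ x : Ω, x ∈ L → ι x ∈ W := fun x hx => ⟨⟨x, hx⟩, rfl⟩
  obtain ⟨N, hN, htor⟩ := torsion W hWfg n
  -- a primitive root
  obtain ⟨ζ, hζ⟩ : ∃ ζ : Ω, IsPrimitiveRoot ζ N := by
    haveI : NeZero (N : Ω) := ⟨by exact_mod_cast hN.ne'⟩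
    obtain ⟨ζ, hζ⟩ := IsAlgClosed.exists_root (cyclotomic N Ω) (by
      rw [degree_cyclotomic]
      exact_mod_cast (Nat.totient_pos.2 hN).ne')
    exact ⟨ζ, isRoot_cyclotomic_iff.1 hζ⟩
  haveI : NeZero N := ⟨hN.ne'⟩
  obtain ⟨R, hR⟩ := ue_of_fg K (s + 1) (Fin.cons ζ h : Fin (s + 1) → Ω) (fun j => by
    refine Fin.cases ?_ (fun j => ?_) j
    · rw [Fin.cons_zero]; exact hζ.ne_zero hN.ne'
    · rw [Fin.cons_succ]; exact hh0 j) n
  refine ⟨R, fun f hf hs hmin i₀ j₀ => ?_⟩
  have hf0 : ∀ i, f i ≠ 0 := fun i => (hf i).1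
  -- the ratios
  have hrat : ∀ i, ∃ (a : Fin s → ℤ) (ξ : Ω), f i / f i₀ = (∏ j, h j ^ a j) * ξ ∧
      ∃ m : ℕ, 0 < m ∧ ξ ^ m = 1 := by
    intro i
    obtain ⟨e, he, a, ha⟩ := (hf i).2
    obtain ⟨e', he', a', ha'⟩ := (hf i₀).2
    have hy0 : f i / f i₀ ≠ 0 := div_ne_zero (hf0 _) (hf0 _)
    have hye : (f i / f i₀) ^ (e * e') =
        algebraMap K Ω ((∏ l, g l ^ (e' * a l - e * a' l) : Kˣ) : K) := by
      have h1 : (∏ l, g l ^ (e' * a l - e * a' l) : Kˣ) =
          (∏ l, g l ^ a l) ^ e' / (∏ l, g l ^ a' l) ^ e := by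
        rw [← Finset.prod_pow, ← Finset.prod_pow, ← Finset.prod_div_distrib]
        refine Finset.prod_congr rfl fun l _ => ?_
        rw [← zpow_natCast, ← zpow_natCast, ← zpow_mul, ← zpow_mul, div_eq_mul_inv, ← zpow_sub]
        congr 1
        ring
      rw [h1, div_pow, pow_mul, ha, mul_comm e e', pow_mul, ha', Units.val_div_eq_div_val, map_div₀,
        Units.val_pow_eq_pow_val, Units.val_pow_eq_pow_val, map_pow, map_pow]
    obtain ⟨b, w, m, hm, hw, hb⟩ := hpm _ hy0 ⟨_, Nat.mul_pos he he', _, hye⟩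
      (fun σ hσ => fix_of f hf0 (fun i => by
        obtain ⟨e, he, a, ha⟩ := (hf i).2
        exact ⟨e, he, _, ha⟩) hs hmin σ hσ i i₀)
    have hb0 : b ≠ 0 := by
      rintro rfl
      rw [map_zero, zero_mul] at hb
      exact pow_ne_zero _ hy0 hb
    have hw0 : w ≠ 0 := by
      rintro rfl
      rw [zero_pow hm.ne'] at hw
      exact zero_ne_one hw
    obtain ⟨u, hu⟩ := hc (Units.mk0 b hb0) ⟨e * e' * m, Nat.mul_pos (Nat.mul_pos he he') hm,
      fun l => (M * m : ℕ) * (e' * a l - e * a' l), by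
        apply Units.ext
        apply (algebraMap K Ω).injective
        have h2 : (algebraMap K Ω b) ^ (e * e' * m) =
            ((f i / f i₀) ^ (e * e')) ^ (M * m) := by
          have h3 : (algebraMap K Ω b * w) ^ (e * e' * m) = (algebraMap K Ω b) ^ (e * e' * m) := by
            rw [mul_pow]
            rw [show w ^ (e * e' * m) = 1 by rw [mul_comm, pow_mul, hw, one_pow], mul_one]
          rw [← h3, ← hb, ← pow_mul, ← pow_mul]
          congr 1
          ring
        rw [Units.val_pow_eq_pow_val, Units.val_mk0, map_pow, h2, hye, ← map_pow,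
          ← Units.val_pow_eq_pow_val, ← Finset.prod_pow]
        congr 2
        refine Finset.prod_congr rfl fun l _ => ?_
        rw [← zpow_natCast, ← zpow_mul]
        congr 1
        ring⟩
    have hprod0 : (∏ j, h j ^ u j) ≠ 0 :=
      Finset.prod_ne_zero_iff.2 fun j _ => zpow_ne_zero _ (hh0 j)
    have hpM : (∏ j, h j ^ u j) ^ M = algebraMap K Ω b := by
      have h4 := congrArg (fun v : Kˣ => algebraMap K Ω (v : K)) hu
      rw [Units.val_mk0, Units.coe_prod, map_prod] at h4
      rw [h4, ← Finset.prod_pow]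
      refine Finset.prod_congr rfl fun j _ => ?_
      rw [Units.val_zpow_eq_zpow_val, map_zpow₀, ← hh j, ← zpow_natCast, ← zpow_natCast, ← zpow_mul,
        ← zpow_mul, mul_comm]
    refine ⟨u, (f i / f i₀) / ∏ j, h j ^ u j, (mul_div_cancel₀ _ hprod0).symm, M * m,
      Nat.mul_pos hM hm, ?_⟩
    rw [pow_mul, div_pow, hb, hpM, mul_div_cancel_left₀ _ ((_root_.map_ne_zero (algebraMap K Ω)).2 hb0), hw]
  choose a ξ hfa hξ using hrat
  have hsum : ∀ J : Finset (Fin n), ∑ i ∈ J, ι (∏ j, h j ^ a i j) * ι (ξ i) =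
      ι ((∑ i ∈ J, f i) / f i₀) := by
    intro J
    rw [Finset.sum_div, map_sum]
    refine Finset.sum_congr rfl fun i _ => ?_
    rw [hfa i, map_mul]
  have hz : ∀ J : Finset (Fin n), ∑ i ∈ J, ι (∏ j, h j ^ a i j) * ι (ξ i) = 0 ↔
      ∑ i ∈ J, f i = 0 := by
    intro J
    rw [hsum, map_eq_zero, div_eq_zero_iff]
    exact ⟨fun h => h.resolve_right (hf0 _), Or.inl⟩
  have ht := htor (fun i => ι (∏ j, h j ^ a i j)) (fun i => ι (ξ i))
    (fun i => hWmem _ (Subfield.prod_mem L.toSubfield fun j _ => zpow_mem (hmem j) _))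
    (fun i => by
      obtain ⟨m, hm, h1⟩ := hξ i
      exact ⟨m, hm, by rw [← map_pow, h1, map_one]⟩)
    ((hz univ).2 hs) (fun J hJ hJs => hmin J hJ ((hz J).1 hJs))
  have hξN : ∀ i, (ξ i / ξ i₀) ^ N = 1 := by
    intro i
    apply ι.injective
    rw [map_pow, map_div₀, map_one]
    exact ht i i₀
  choose b _ hbb using fun i => hζ.eq_pow_of_pow_eq_one (hξN i)
  -- the family of ratios to `i₀`
  have hrat2 : ∀ i, f i / f i₀ = ζ ^ (b i : ℤ) * ∏ j, h j ^ (a i j - a i₀ j) := by
    intro i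
    have h1 : f i / f i₀ = (f i / f i₀) / (f i₀ / f i₀) := by
      rw [div_self (hf0 i₀), div_one]
    rw [h1, hfa i, hfa i₀, mul_div_mul_comm, ← hbb i, ← Finset.prod_div_distrib, mul_comm]
    rw [zpow_natCast]
    congr 1
    refine Finset.prod_congr rfl fun j _ => ?_
    rw [zpow_sub₀ (hh0 j)]
  have h5 := hR (fun i => f i / f i₀) (fun i => ⟨Fin.cons (b i : ℤ) fun j => a i j - a i₀ j, by
      rw [hrat2 i, Fin.prod_univ_succ]
      simp⟩) (by rw [← Finset.sum_div, hs, zero_div]) (fun J hJ hJs => by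
      refine hmin J hJ ?_
      rw [← Finset.sum_div, div_eq_zero_iff] at hJs
      exact hJs.resolve_right (hf0 _)) i₀ j₀
  rwa [div_div_div_cancel_right₀ (hf0 i₀)] at h5

end

end Pool.Agent.U945.LA
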