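import Pool.Agent.U945.LA.GRank

set_option autoImplicit false
set_option linter.style.haveILetI false
set_option linter.unusedSectionVars false

/-!
# Algebraic points of a torus whose logarithms satisfy linear relations modulo linear forms
-/

namespace Pool.Agent.U945.LA

open Finset Module
open Pool.Agent.U945.RD (hypK_Lt abs_rank_vec baker_vec)
open Pool.Agent.H301R2.SSE (QB mem_QB Lt Lt_one Lt_log Lg mem_Lg)

variable {m d : ℕ}

/-- `z` is a vector of logarithms of `x`, up to rational multiples of `2 π i` -/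
def IsLog (x : Fin d → ℂˣ) (z : Fin d → ℂ) : Prop :=
  ∀ i, ∃ n : ℕ, 0 < n ∧ Complex.exp (n * z i) = (x i : ℂ) ^ n

lemma IsLog.mul {x y : Fin d → ℂˣ} {z w : Fin d → ℂ} (hz : IsLog x z) (hw : IsLog y w) :
    IsLog (x * y) (z + w) := by
  intro i
  obtain ⟨m, hm, h1⟩ := hz i
  obtain ⟨m', hm', h2⟩ := hw i
  refine ⟨m * m', Nat.mul_pos hm hm', ?_⟩
  have e1 : ((m * m' : ℕ) : ℂ) * (z + w) i = m' * (m * z i) + m * (m' * w i) := by
    rw [Pi.add_apply]
    push_cast
    ring
  rw [e1, Complex.exp_add, Complex.exp_nat_mul (m * z i) m', h1,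
    Complex.exp_nat_mul (m' * w i) m, h2, Pi.mul_apply,
    Units.val_mul, mul_pow, ← pow_mul, ← pow_mul, mul_comm m' m]

lemma IsLog.inv {x : Fin d → ℂˣ} {z : Fin d → ℂ} (hz : IsLog x z) : IsLog x⁻¹ (-z) := by
  intro i
  obtain ⟨m, hm, h1⟩ := hz i
  refine ⟨m, hm, ?_⟩
  rw [Pi.neg_apply, mul_neg, Complex.exp_neg, h1, Pi.inv_apply, Units.val_inv_eq_inv_val, inv_pow]

lemma IsLog.one : IsLog (1 : Fin d → ℂˣ) 0 := fun i => ⟨1, one_pos, by simp⟩

lemma IsLog.mem_Lg {x : Fin d → ℂˣ} {z : Fin d → ℂ} (hz : IsLog x z)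
    (hx : ∀ i, IsAlgebraic ℚ (x i : ℂ)) (i : Fin d) : z i ∈ Lg := by
  obtain ⟨m, hm, h1⟩ := hz i
  rw [Pool.Agent.H301R2.SSE.mem_Lg]
  apply IsAlgebraic.of_pow hm
  rw [← Complex.exp_nat_mul, h1]
  exact (hx i).pow _

/-- logarithms of multiplicatively independent points -/
theorem li_of_mi {n : ℕ} {X : Fin n → Fin d → ℂˣ} {z : Fin n → Fin d → ℂ}
    (hX : ∀ j, IsLog (X j) (z j)) (hmi : ∀ k : Fin n → ℤ, ∏ j, X j ^ k j = 1 → k = 0) :
    LinearIndependent ℚ z := by
  choose m hm he using hX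
  rw [← LinearIndependent.iff_fractionRing ℤ ℚ, Fintype.linearIndependent_iff]
  intro g hg
  set M : ℕ := ∏ j, ∏ i, m j i with hM
  have hM0 : 0 < M := Finset.prod_pos fun j _ => Finset.prod_pos fun i _ => hm j i
  have hdvd : ∀ j i, m j i ∣ M := fun j i =>
    (Finset.dvd_prod_of_mem (fun i => m j i) (mem_univ i)).trans
      (Finset.dvd_prod_of_mem (fun j => ∏ i, m j i) (mem_univ j))
  have hMe : ∀ j i, Complex.exp (M * z j i) = (X j i : ℂ) ^ M := by
    intro j i
    obtain ⟨c, hc⟩ := hdvd j i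
    rw [hc]
    push_cast
    rw [mul_comm (m j i : ℂ), mul_assoc, Complex.exp_nat_mul, he, ← pow_mul]
  have h1 : ∀ i, ∏ j, (X j i) ^ ((M : ℤ) * g j) = 1 := by
    intro i
    apply Units.ext
    rw [Units.coe_prod, Units.val_one]
    have h2 : ∀ j, (((X j i) ^ ((M : ℤ) * g j) : ℂˣ) : ℂ) =
        Complex.exp ((g j : ℂ) * (M * z j i)) := by
      intro j
      rw [Units.val_zpow_eq_zpow_val, zpow_mul, zpow_natCast, ← hMe,
        ← Complex.exp_int_mul]
    rw [Finset.prod_congr rfl fun j _ => h2 j, ← Complex.exp_sum]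
    have h3 : ∑ j, (g j : ℂ) * (M * z j i) = 0 := by
      have h4 := congrFun hg i
      rw [Finset.sum_apply] at h4
      have h5 : ∑ j, (g j : ℂ) * (M * z j i) = M * ∑ j, (g j • z j) i := by
        rw [Finset.mul_sum]
        refine Finset.sum_congr rfl fun j _ => ?_
        rw [Pi.smul_apply, zsmul_eq_mul]
        ring
      rw [h5, h4]
      simp
    rw [h3, Complex.exp_zero]
  have h6 := hmi (fun j => (M : ℤ) * g j) (by
    funext i
    rw [Finset.prod_apply]
    exact h1 i)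
  intro j
  have h7 : (M : ℤ) * g j = 0 := congrFun h6 j
  rcases mul_eq_zero.1 h7 with h8 | h8
  · exfalso
    have : M = 0 := by exact_mod_cast h8
    omega
  · exact h8

/-- the group of the points -/
def EG (lam : Fin m → Fin d → ℂ) (V : Submodule QB ℂ) : Subgroup (Fin d → ℂˣ) where
  carrier := {x | (∀ i, IsAlgebraic ℚ (x i : ℂ)) ∧ ∃ z : Fin d → ℂ, IsLog x z ∧
    ∀ k, ∑ i, lam k i * z i ∈ Lt ⊔ V}
  mul_mem' := by
    rintro x y ⟨hx, z, hz, hz'⟩ ⟨hy, w, hw, hw'⟩
    refine ⟨fun i => by rw [Pi.mul_apply, Units.val_mul]; exact (hx i).mul (hy i), z + w,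
      hz.mul hw, fun k => ?_⟩
    have e2 : ∑ i, lam k i * (z + w) i = ∑ i, lam k i * z i + ∑ i, lam k i * w i := by
      rw [← Finset.sum_add_distrib]
      exact Finset.sum_congr rfl fun i _ => by rw [Pi.add_apply, mul_add]
    rw [e2]
    exact add_mem (hz' k) (hw' k)
  one_mem' := ⟨fun i => by rw [Pi.one_apply, Units.val_one]; exact isAlgebraic_one, 0, IsLog.one,
    by simp⟩
  inv_mem' := by
    rintro x ⟨hx, z, hz, hz'⟩
    refine ⟨fun i => by rw [Pi.inv_apply, Units.val_inv_eq_inv_val]; exact (hx i).inv, -z, hz.inv,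
      fun k => ?_⟩
    have e2 : ∑ i, lam k i * (-z) i = -∑ i, lam k i * z i := by
      rw [← Finset.sum_neg_distrib]
      exact Finset.sum_congr rfl fun i _ => by rw [Pi.neg_apply, mul_neg]
    rw [e2]
    exact neg_mem (hz' k)

lemma mem_EG {lam : Fin m → Fin d → ℂ} {V : Submodule QB ℂ} {x : Fin d → ℂˣ} :
    x ∈ EG lam V ↔ (∀ i, IsAlgebraic ℚ (x i : ℂ)) ∧ ∃ z : Fin d → ℂ, IsLog x z ∧
      ∀ k, ∑ i, lam k i * z i ∈ Lt ⊔ V := Iff.rfl

/-- the group is closed under roots -/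
theorem EG_root {lam : Fin m → Fin d → ℂ} {V : Submodule QB ℂ} {x : Fin d → ℂˣ} {e : ℕ}
    (he : 0 < e) (h : x ^ e ∈ EG lam V) : x ∈ EG lam V := by
  obtain ⟨hx, z, hz, hz'⟩ := h
  refine ⟨fun i => IsAlgebraic.of_pow he (by
    rw [← Units.val_pow_eq_pow_val]; exact hx i), fun i => z i / e, fun i => ?_, fun k => ?_⟩
  · obtain ⟨n, hn, h1⟩ := hz i
    refine ⟨e * n, Nat.mul_pos he hn, ?_⟩
    have he' : (e : ℂ) ≠ 0 := by exact_mod_cast he.ne'
    rw [Pi.pow_apply, Units.val_pow_eq_pow_val] at h1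
    rw [pow_mul, ← h1]
    congr 1
    push_cast
    field_simp
  · have h2 : ∑ i, lam k i * (z i / e) = ((e : QB)⁻¹) • ∑ i, lam k i * z i := by
      rw [Algebra.smul_def, Finset.mul_sum]
      refine Finset.sum_congr rfl fun i _ => ?_
      rw [map_inv₀, map_natCast]
      ring
    rw [h2]
    exact Submodule.smul_mem _ _ (hz' k)

/-- the condition on the coefficients -/
def Gen (lam : Fin m → Fin d → ℂ) : Prop :=
  ∀ q : Fin d → ℤ, q ≠ 0 → ∃ k, Transcendental ℚ (∑ i, lam k i * q i)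

lemma Gen.rat {lam : Fin m → Fin d → ℂ} (h : Gen lam) (q : Fin d → ℚ)
    (hq : ∀ k, ∑ i, lam k i * q i ∈ QB) : q = 0 := by
  classical
  by_contra hne
  set D : ℕ := ∏ i, (q i).den with hD
  have hD0 : D ≠ 0 := Finset.prod_ne_zero_iff.2 fun i _ => (q i).den_nz
  have hint : ∀ i, ∃ a : ℤ, (a : ℚ) = D * q i := by
    intro i
    obtain ⟨c, hc⟩ : (q i).den ∣ D := Finset.dvd_prod_of_mem (fun i => (q i).den) (mem_univ i)
    refine ⟨c * (q i).num, ?_⟩
    rw [hc]
    push_cast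
    have := Rat.den_mul_eq_num (q i)
    rw [mul_comm ((q i).den : ℚ) c, mul_assoc, this]
  choose a ha using hint
  obtain ⟨k, hk⟩ := h a (fun h0 => hne (by
    funext i
    have h1 := ha i
    rw [h0, Pi.zero_apply, Int.cast_zero] at h1
    exact ((mul_eq_zero.1 h1.symm).resolve_left (by exact_mod_cast hD0))))
  apply hk
  have h2 : ∑ i, lam k i * (a i : ℂ) = (D : ℂ) * ∑ i, lam k i * q i := by
    rw [Finset.mul_sum]
    refine Finset.sum_congr rfl fun i _ => ?_
    have h3 : (a i : ℂ) = D * q i := by exact_mod_cast congrArg (fun r : ℚ => (r : ℂ)) (ha i)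
    rw [h3]
    ring
  rw [h2]
  exact (isAlgebraic_natCast D).mul (mem_QB.1 (hq k))

/-- **The rank.** -/
theorem rank_EG {lam : Fin m → Fin d → ℂ} (hlam : Gen lam) (V : Submodule QB ℂ)
    [FiniteDimensional QB V] {n : ℕ} (X : Fin n → Fin d → ℂˣ) (hX : ∀ j, X j ∈ EG lam V)
    (hmi : ∀ k : Fin n → ℤ, ∏ j, X j ^ k j = 1 → k = 0) :
    n ≤ d ^ 2 * m * (finrank QB V + (m * d) * (m * d + 1)) := by
  choose hXa z hz hz' using hX
  obtain ⟨s, hs, hn⟩ := rank_gen lam hlam.rat V z (fun j i => (hz j).mem_Lg (hXa j) i)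
    (li_of_mi hz hmi) hz'
  refine hn.trans ?_
  gcongr

/-- the rank, for one relation with independent coefficients -/
theorem rank_EG_one {lam : Fin d → ℂ}
    (hlam : LinearIndependent QB (Fin.cons 1 lam : Fin (d + 1) → ℂ)) (V : Submodule QB ℂ)
    [FiniteDimensional QB V] {n : ℕ} (X : Fin n → Fin d → ℂˣ)
    (hX : ∀ j, X j ∈ EG (fun _ : Fin 1 => lam) V)
    (hmi : ∀ k : Fin n → ℤ, ∏ j, X j ^ k j = 1 → k = 0) : n ≤ finrank QB V + (d + 1) * d := by
  choose hXa z hz hz' using hX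
  have hL : ∀ j i, z j i ∈ Lg := fun j i => (hz j).mem_Lg (hXa j) i
  exact abs_rank_vec hypK_Lt V (baker_vec hL (li_of_mi hz hmi))
    (fun j i => Lt_log (mem_Lg.1 (hL j i))) hlam (fun j => hz' j 0)

/-- **Cosets.** -/
theorem cosets_EG {lam : Fin m → Fin d → ℂ} (hlam : Gen lam) (V : Submodule QB ℂ)
    [FiniteDimensional QB V] {s : ℕ} (P : Fin s → MvPolynomial (Fin d) ℂ) :
    ∃ T : Finset ((Fin d → ℂˣ) × Finset (Fin d → ℤ)),
      (∀ t ∈ T, t.1 ∈ EG lam V ∧ ∀ z : Fin d → ℂˣ, (∀ m ∈ t.2, chrU m z = chrU m t.1) →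
        ∀ j, MvPolynomial.eval (fun i => (z i : ℂ)) (P j) = 0) ∧
      ∀ x ∈ EG lam V, (∀ j, MvPolynomial.eval (fun i => (x i : ℂ)) (P j) = 0) →
        ∃ t ∈ T, ∀ m ∈ t.2, chrU m x = chrU m t.1 := by
  obtain ⟨S, hS, hSE⟩ := coords (EG lam V) _ (fun n X hX hmi => rank_EG hlam V X hX hmi)
    (fun x hx => hx.1)
  exact cosets_cplx _ S hS hSE P

/-- a coset in a hyperplane which contains a nondegenerate point is a point -/
theorem nondeg (a : Fin d → ℂ) (y : Fin d → ℂˣ) (M : Finset (Fin d → ℤ))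
    (hM : ∀ z : Fin d → ℂˣ, (∀ m ∈ M, chrU m z = chrU m y) → ∑ i, a i * (z i : ℂ) = 1)
    (x : Fin d → ℂˣ) (hx : ∀ m ∈ M, chrU m x = chrU m y)
    (hnd : ∀ J : Finset (Fin d), J.Nonempty → ∑ i ∈ J, a i * (x i : ℂ) ≠ 0) (z : Fin d → ℂˣ)
    (hz : ∀ m ∈ M, chrU m z = chrU m y) : z = x := by
  classical
  -- the stabilizer
  set H : Subgroup (Fin d → ℂˣ) :=
    { carrier := {h | ∀ m ∈ M, chrU m h = 1}
      one_mem' := fun m _ => by simp [chrU]
      mul_mem' := by
        intro g h hg hh m hm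
        have : chrU m (g * h) = chrU m g * chrU m h := by
          unfold chrU
          rw [← Finset.prod_mul_distrib]
          exact Finset.prod_congr rfl fun i _ => by rw [Pi.mul_apply, mul_zpow]
        rw [this, hg m hm, hh m hm, one_mul]
      inv_mem' := by
        intro g hg m hm
        have : chrU m g⁻¹ = (chrU m g)⁻¹ := by
          unfold chrU
          rw [← Finset.prod_inv_distrib]
          exact Finset.prod_congr rfl fun i _ => by rw [Pi.inv_apply, inv_zpow]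
        rw [this, hg m hm, inv_one] } with hH
  set χ : Fin d → (H →* ℂ) := fun i =>
    (Units.coeHom ℂ).comp ((Pi.evalMonoidHom (fun _ : Fin d => ℂˣ) i).comp H.subtype) with hχ
  have hχa : ∀ i (h : H), χ i h = ((h : Fin d → ℂˣ) i : ℂ) := fun i h => rfl
  have hmulc : ∀ (g h : Fin d → ℂˣ) (m : Fin d → ℤ), chrU m (g * h) = chrU m g * chrU m h := by
    intro g h m
    unfold chrU
    rw [← Finset.prod_mul_distrib]
    exact Finset.prod_congr rfl fun i _ => by rw [Pi.mul_apply, mul_zpow]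
  -- the relation between the characters
  have hrel : ∀ h : H, ∑ i, a i * (x i : ℂ) * χ i h = 1 := by
    intro h
    have h1 := hM (x * (h : Fin d → ℂˣ)) (fun m hm => by
      rw [hmulc, hx m hm, h.2 m hm, mul_one])
    rw [← h1]
    refine Finset.sum_congr rfl fun i _ => ?_
    rw [Pi.mul_apply, Units.val_mul, hχa]
    ring
  have hall : ∀ i, χ i = 1 := by
    intro i₀
    by_contra hne
    set F : Finset (H →* ℂ) := insert 1 (univ.image χ) with hF
    set c : (H →* ℂ) → ℂ := fun ψ => (∑ i with χ i = ψ, a i * (x i : ℂ)) -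
      (if ψ = 1 then 1 else 0) with hc
    have hlin := linearIndependent_monoidHom H ℂ
    rw [linearIndependent_iff'] at hlin
    have h2 := hlin F c (by
      funext h
      rw [Finset.sum_apply, Pi.zero_apply]
      have h3 : ∀ ψ ∈ F, (c ψ • (ψ : H → ℂ)) h =
          (∑ i with χ i = ψ, a i * (x i : ℂ) * χ i h) - (if ψ = 1 then 1 else 0) := by
        intro ψ _
        rw [Pi.smul_apply, smul_eq_mul, hc]
        dsimp only
        rw [sub_mul, Finset.sum_mul]
        congr 1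
        · refine Finset.sum_congr rfl fun i hi => ?_
          rw [(Finset.mem_filter.1 hi).2]
        · split_ifs with h4
          · rw [h4, MonoidHom.one_apply, one_mul]
          · rw [zero_mul]
      rw [Finset.sum_congr rfl h3, Finset.sum_sub_distrib, Finset.sum_ite_eq' F 1,
        if_pos (Finset.mem_insert_self _ _)]
      rw [Finset.sum_fiberwise_of_maps_to (fun i _ => Finset.mem_insert_of_mem
        (Finset.mem_image_of_mem χ (mem_univ i))), hrel h, sub_self])
    have h5 := h2 (χ i₀) (Finset.mem_insert_of_mem (Finset.mem_image_of_mem χ (mem_univ i₀)))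
    rw [hc] at h5
    dsimp only at h5
    rw [if_neg hne, sub_zero] at h5
    exact hnd _ ⟨i₀, by simp⟩ h5
  -- conclusion
  have hmem : x⁻¹ * z ∈ H := by
    intro m hm
    have h6 : chrU m x * chrU m (x⁻¹ * z) = chrU m z := by
      rw [← hmulc, mul_inv_cancel_left]
    rw [hz m hm, hx m hm] at h6
    exact mul_eq_left.1 h6
  funext i
  have h7 := DFunLike.congr_fun (hall i) ⟨x⁻¹ * z, hmem⟩
  rw [hχa, MonoidHom.one_apply] at h7
  have h8 : (x⁻¹ * z) i = 1 := Units.ext h7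
  rw [Pi.mul_apply, Pi.inv_apply, inv_mul_eq_one] at h8
  exact h8.symm

end Pool.Agent.U945.LA
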