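import Pool.Agent.U945.LA.Rk

set_option autoImplicit false
set_option linter.style.haveILetI false
set_option linter.unusedSectionVars false

/-!
# The rank of the vectors of logarithms which satisfy several linear relations modulo linear forms
-/

namespace Pool.Agent.U945.LA

open Finset Module
open Pool.Agent.U945.RD (hypK_Lt abs_rank_vec baker_vec)
open Pool.Agent.H301R2.SSE (QB mem_QB Lt Lt_one Lt_log Lg mem_Lg)

/-- a basis of the span of a finite family -/
theorem span_idx (K : Type) {V ι : Type} [Field K] [AddCommGroup V] [Module K V] [Finite ι]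
    (v : ι → V) : ∃ (N : ℕ) (idx : Fin N → ι), N = finrank K (Submodule.span K (Set.range v)) ∧
      LinearIndependent K (fun a => v (idx a)) ∧
      ∀ x ∈ Submodule.span K (Set.range v), ∃ c : Fin N → K, ∑ a, c a • v (idx a) = x := by
  haveI : Module.Finite K (Submodule.span K (Set.range v)) :=
    FiniteDimensional.span_of_finite K (Set.finite_range _)
  obtain ⟨f, hf, hspan, hli⟩ := Submodule.exists_fun_fin_finrank_span_eq K (Set.range v)
  choose idx hidx using hf
  have hfm : f = fun l => v (idx l) := by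
    funext l
    exact (hidx l).symm
  refine ⟨_, idx, rfl, hfm ▸ hli, fun x hx => ?_⟩
  rw [← hspan, Submodule.mem_span_range_iff_exists_fun] at hx
  obtain ⟨c, hc⟩ := hx
  exact ⟨c, by rw [← hc, hfm]⟩

/-- the coefficients in terms of a basis -/
theorem exists_basis {ι : Type} [Fintype ι] (lam : ι → ℂ) : ∃ (s : ℕ) (mu : Fin s → ℂ),
    s ≤ Fintype.card ι ∧ LinearIndependent QB (Fin.cons 1 mu : Fin (s + 1) → ℂ) ∧
    ∃ (b : ι → QB) (β : ι → Fin s → QB), ∀ i, lam i = b i + ∑ l, (β i l : ℂ) * mu l := by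
  classical
  set A₁ : Submodule QB ℂ := Submodule.span QB {1} with hA₁
  set π : ℂ →ₗ[QB] ℂ ⧸ A₁ := A₁.mkQ with hπ
  set v : ι → ℂ ⧸ A₁ := fun i => π (lam i) with hv
  obtain ⟨N, idx, hN, hli, hspan⟩ := span_idx QB v
  refine ⟨N, fun l => lam (idx l), hN ▸ finrank_range_le_card v, ?_, ?_⟩
  · rw [linearIndependent_finCons]
    constructor
    · exact LinearIndependent.of_comp π hli
    · intro h1
      rw [Submodule.mem_span_range_iff_exists_fun] at h1
      obtain ⟨c, hc⟩ := h1
      have h2 := congrArg π hc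
      have h3 : π 1 = 0 := by
        rw [hπ, Submodule.mkQ_apply, Submodule.Quotient.mk_eq_zero, hA₁]
        exact Submodule.mem_span_singleton_self 1
      rw [map_sum, h3] at h2
      simp only [map_smul] at h2
      rw [Fintype.linearIndependent_iff] at hli
      have h4 := hli c h2
      rw [Finset.sum_eq_zero (fun l _ => by rw [h4 l, zero_smul])] at hc
      exact zero_ne_one hc
  · have h5 : ∀ i, ∃ (b : QB) (β : Fin N → QB), lam i = b + ∑ l, (β l : ℂ) * lam (idx l) := by
      intro i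
      obtain ⟨c, hc⟩ := hspan (v i) (Submodule.subset_span ⟨i, rfl⟩)
      have h7 : π (lam i - ∑ l, c l • lam (idx l)) = 0 := by
        rw [map_sub, map_sum]
        simp only [map_smul]
        rw [sub_eq_zero]
        exact hc.symm
      rw [hπ, Submodule.mkQ_apply, Submodule.Quotient.mk_eq_zero, hA₁,
        Submodule.mem_span_singleton] at h7
      obtain ⟨b, hb⟩ := h7
      refine ⟨b, c, ?_⟩
      have h8 : (b : ℂ) = lam i - ∑ l, (c l : ℂ) * lam (idx l) := by
        have h9 : (b • (1 : ℂ)) = (b : ℂ) := by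
          rw [Algebra.smul_def, mul_one]
          rfl
        rw [← h9, hb]
        rfl
      rw [h8]
      ring
    choose b β hbβ using h5
    exact ⟨b, β, hbβ⟩

/-- extension of rational functionals by Baker's theorem -/
theorem exists_functional (M : Submodule ℚ ℂ) (hM : M ≤ Lg) [FiniteDimensional ℚ M]
    (ψ : ℂ →ₗ[ℚ] ℚ) : ∃ Ψ : ℂ →ₗ[QB] QB, ∀ x ∈ M, Ψ x = ((ψ x : ℚ) : QB) := by
  classical
  set B := Module.finBasis ℚ M with hB
  have hBli : LinearIndependent ℚ (fun l => (B l : ℂ)) :=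
    B.linearIndependent.map' M.subtype (Submodule.ker_subtype _)
  have hli : LinearIndependent QB (fun l => (B l : ℂ)) := by
    rw [Fintype.linearIndependent_iff]
    intro c hc l
    have h2 := (Pool.Agent.H297R2.baker_inhom (fun l => (B l : ℂ))
      (fun l => mem_Lg.1 (hM (B l).2)) hBli 0 isAlgebraic_zero (fun l => (c l : ℂ))
      (fun l => mem_QB.1 (c l).2) (by
        rw [zero_add, ← hc]
        rfl)).2 l
    exact Subtype.ext h2
  obtain ⟨Ψ, hΨ⟩ := LinearMap.exists_extend ((Basis.span hli).constr QB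
    (fun l => ((ψ (B l) : ℚ) : QB)))
  have hb : ∀ l, Ψ (B l : ℂ) = ((ψ (B l) : ℚ) : QB) := by
    intro l
    have h1 := congrArg (fun g => g (Basis.span hli l)) hΨ
    simp only [LinearMap.comp_apply, Basis.constr_basis] at h1
    rw [← h1]
    congr 1
    rw [Submodule.subtype_apply, Basis.span_apply]
  refine ⟨Ψ, fun x hx => ?_⟩
  have h1 := B.sum_repr ⟨x, hx⟩
  have h2 : x = ∑ l, ((B.repr ⟨x, hx⟩ l : ℚ) : ℂ) * (B l : ℂ) := by
    have h3 := congrArg (fun u : M => (u : ℂ)) h1
    simp only [Submodule.coe_sum, Submodule.coe_smul, Rat.smul_def] at h3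
    exact h3.symm
  have h4 : x = ∑ l, ((B.repr ⟨x, hx⟩ l : ℚ) : QB) • (B l : ℂ) := by
    conv_lhs => rw [h2]
    refine Finset.sum_congr rfl fun l _ => ?_
    rw [Algebra.smul_def]
    simp
  have h5 : x = ∑ l, (B.repr ⟨x, hx⟩ l : ℚ) • (B l : ℂ) := by
    conv_lhs => rw [h2]
    exact Finset.sum_congr rfl fun l _ => by rw [Rat.smul_def]
  conv_lhs => rw [h4]
  conv_rhs => rw [h5]
  rw [map_sum, map_sum]
  push_cast
  refine Finset.sum_congr rfl fun l _ => ?_
  rw [map_smul, map_smul, hb, smul_eq_mul, smul_eq_mul]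
  push_cast
  rfl

/-- **The rank.** -/
theorem rank_gen {m d n : ℕ} (lam : Fin m → Fin d → ℂ)
    (hlam : ∀ q : Fin d → ℚ, (∀ k, ∑ i, lam k i * q i ∈ QB) → q = 0) (V : Submodule QB ℂ)
    [FiniteDimensional QB V] (z : Fin n → Fin d → ℂ) (hz : ∀ j i, z j i ∈ Lg)
    (hli : LinearIndependent ℚ z) (hV : ∀ j k, ∑ i, lam k i * z j i ∈ Lt ⊔ V) :
    ∃ s ≤ m * d, n ≤ d ^ 2 * m * (finrank QB V + s * (s + 1)) := by
  classical
  obtain ⟨s, mu, hs, hmu, b, β, hlb⟩ := exists_basis (fun q : Fin m × Fin d => lam q.1 q.2)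
  refine ⟨s, by simpa using hs, ?_⟩
  have hzLt : ∀ j i, z j i ∈ Lt := fun j i => Lt_log (mem_Lg.1 (hz j i))
  -- the vectors
  set w : Fin n → Fin m → Fin s → ℂ := fun j k l => ∑ i, (β (k, i) l : ℂ) * z j i with hw
  have hwLt : ∀ j k l, w j k l ∈ Lt := by
    intro j k l
    rw [hw]
    exact sum_mem fun i _ => Lt.smul_mem (β (k, i) l) (hzLt j i)
  have hwV : ∀ j k, ∑ l, mu l * w j k l ∈ Lt ⊔ V := by
    intro j k
    have h1 : ∑ l, mu l * w j k l = ∑ i, lam k i * z j i - ∑ i, (b (k, i) : ℂ) * z j i := by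
      have h2 : ∀ i, lam k i * z j i = (b (k, i) : ℂ) * z j i +
          ∑ l, mu l * ((β (k, i) l : ℂ) * z j i) := by
        intro i
        have h3 := hlb (k, i)
        dsimp only at h3
        rw [h3, add_mul, Finset.sum_mul]
        congr 1
        exact Finset.sum_congr rfl fun l _ => by ring
      rw [Finset.sum_congr rfl fun i _ => h2 i, Finset.sum_add_distrib, add_sub_cancel_left,
        Finset.sum_comm]
      exact Finset.sum_congr rfl fun l _ => by rw [hw]; exact Finset.mul_sum _ _ _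
    rw [h1]
    refine sub_mem (hV j k) (Submodule.mem_sup_left (sum_mem fun i _ =>
      Lt.smul_mem (b (k, i)) (hzLt j i)))
  -- the space of the vectors
  set W₁ : Submodule QB (Fin s → ℂ) :=
    Submodule.span QB (Set.range fun q : Fin n × Fin m => w q.1 q.2) with hW₁
  haveI hW₁f : Module.Finite QB W₁ := FiniteDimensional.span_of_finite QB (Set.finite_range _)
  have hW₁r : finrank QB W₁ ≤ finrank QB V + (s + 1) * s := by
    obtain ⟨N, idx, hN, hli, -⟩ := span_idx QB (fun q : Fin n × Fin m => w q.1 q.2)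
    rw [hW₁, ← hN]
    exact abs_rank_vec hypK_Lt V hli (fun l i => hwLt _ _ _) hmu (fun l => hwV _ _)
  set y : Fin n → Fin m → W₁ := fun j k => ⟨w j k, Submodule.subset_span ⟨(j, k), rfl⟩⟩ with hy
  have hN₁ : finrank QB (Submodule.span QB (Set.range y)) ≤ m * finrank QB W₁ := by
    refine (Submodule.finrank_le _).trans ?_
    rw [Module.finrank_pi_fintype]
    simp
  obtain ⟨N₁, J, hN₁d, -, hspan⟩ := span_idx QB y
  rw [← hN₁d] at hN₁
  have hcomb : ∀ j, ∃ c : Fin N₁ → QB, ∀ k l, w j k l = ∑ a, (c a : ℂ) * w (J a) k l := by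
    intro j
    obtain ⟨c, hc⟩ := hspan (y j) (Submodule.subset_span ⟨j, rfl⟩)
    refine ⟨c, fun k l => ?_⟩
    have h2 := congrArg (fun u : Fin m → W₁ => ((u k : W₁) : Fin s → ℂ) l) hc
    simp only [Finset.sum_apply, Pi.smul_apply] at h2
    rw [AddSubmonoidClass.coe_finsetSum, Finset.sum_apply] at h2
    rw [hy] at h2
    dsimp only at h2
    rw [← h2]
    exact Finset.sum_congr rfl fun a _ => rfl
  -- the space of the coordinates
  set R : Submodule ℚ ℂ := Submodule.span ℚ (Set.range fun q : Fin N₁ × Fin d => z (J q.1) q.2)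
    with hR
  haveI hRf : Module.Finite ℚ R := FiniteDimensional.span_of_finite ℚ (Set.finite_range _)
  have hRr : finrank ℚ R ≤ N₁ * d := by
    have := finrank_range_le_card (R := ℚ) (fun q : Fin N₁ × Fin d => z (J q.1) q.2)
    rw [Fintype.card_prod, Fintype.card_fin, Fintype.card_fin] at this
    exact this
  set M : Submodule ℚ ℂ := Submodule.span ℚ (Set.range fun q : Fin n × Fin d => z q.1 q.2) with hM
  haveI hMf : FiniteDimensional ℚ M := FiniteDimensional.span_of_finite ℚ (Set.finite_range _)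
  have hMLg : M ≤ Lg := by
    rw [hM, Submodule.span_le]
    rintro _ ⟨q, rfl⟩
    exact hz _ _
  have hzM : ∀ j i, z j i ∈ M := fun j i => Submodule.subset_span ⟨(j, i), rfl⟩
  have hzR : ∀ j i, z j i ∈ R := by
    intro j₀ i₀
    by_contra hcon
    obtain ⟨ψ, hψ, hψR⟩ := Submodule.exists_le_ker_of_notMem hcon
    obtain ⟨Ψ, hΨ⟩ := exists_functional M hMLg ψ
    have hψJ : ∀ a i, ψ (z (J a) i) = 0 := fun a i =>
      LinearMap.mem_ker.1 (hψR (Submodule.subset_span ⟨(a, i), rfl⟩))
    have hΨw : ∀ j k l, Ψ (w j k l) = ∑ i, β (k, i) l * ((ψ (z j i) : ℚ) : QB) := by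
      intro j k l
      have h1 : w j k l = ∑ i, β (k, i) l • z j i := by
        rw [hw]
        exact Finset.sum_congr rfl fun i _ => rfl
      rw [h1, map_sum]
      refine Finset.sum_congr rfl fun i _ => ?_
      rw [map_smul, hΨ _ (hzM j i), smul_eq_mul]
    obtain ⟨c, hc⟩ := hcomb j₀
    have hzero : ∀ k l, ∑ i, β (k, i) l * ((ψ (z j₀ i) : ℚ) : QB) = 0 := by
      intro k l
      have h1 : w j₀ k l = ∑ a, c a • w (J a) k l := by
        rw [hc k l]
        exact Finset.sum_congr rfl fun i _ => rfl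
      rw [← hΨw, h1, map_sum]
      refine Finset.sum_eq_zero fun a _ => ?_
      rw [map_smul, hΨw]
      rw [Finset.sum_eq_zero (fun i _ => by rw [hψJ a i]; simp), smul_zero]
    have hq := hlam (fun i => ψ (z j₀ i)) (fun k => by
      have h2 : ∑ i, lam k i * ((ψ (z j₀ i) : ℚ) : ℂ) =
          ∑ i, (b (k, i) : ℂ) * ((ψ (z j₀ i) : ℚ) : ℂ) := by
        have h3 : ∀ i, lam k i * ((ψ (z j₀ i) : ℚ) : ℂ) =
            (b (k, i) : ℂ) * ((ψ (z j₀ i) : ℚ) : ℂ) +
              ∑ l, mu l * ((β (k, i) l : ℂ) * ((ψ (z j₀ i) : ℚ) : ℂ)) := by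
          intro i
          have h4 := hlb (k, i)
          dsimp only at h4
          rw [h4, add_mul, Finset.sum_mul]
          congr 1
          exact Finset.sum_congr rfl fun l _ => by ring
        rw [Finset.sum_congr rfl fun i _ => h3 i, Finset.sum_add_distrib, Finset.sum_comm]
        rw [add_eq_left]
        refine Finset.sum_eq_zero fun l _ => ?_
        rw [← Finset.mul_sum]
        have h5 := congrArg (fun u : QB => (u : ℂ)) (hzero k l)
        have h6 : ∑ i, (β (k, i) l : ℂ) * ((ψ (z j₀ i) : ℚ) : ℂ) = 0 := by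
          have h7 : ((∑ i, β (k, i) l * ((ψ (z j₀ i) : ℚ) : QB) : QB) : ℂ) =
              ∑ i, (β (k, i) l : ℂ) * ((ψ (z j₀ i) : ℚ) : ℂ) := by
            rw [AddSubmonoidClass.coe_finsetSum]
            refine Finset.sum_congr rfl fun i _ => ?_
            push_cast
            rfl
          rw [← h7, hzero k l]
          rfl
        rw [h6, mul_zero]
      rw [h2]
      refine sum_mem fun i _ => mul_mem (b (k, i)).2 ?_
      exact mem_QB.2 (isAlgebraic_algebraMap (ψ (z j₀ i))))
    exact hψ (congrFun hq i₀)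
  have hli' : LinearIndependent ℚ (fun j i => (⟨z j i, hzR j i⟩ : R) : Fin n → Fin d → R) := by
    rw [Fintype.linearIndependent_iff] at hli ⊢
    intro g hg
    apply hli g
    funext i
    have h1 := congrArg (fun u : Fin d → R => ((u i : R) : ℂ)) hg
    simp only [Finset.sum_apply, Pi.smul_apply] at h1
    rw [AddSubmonoidClass.coe_finsetSum] at h1
    rw [Finset.sum_apply]
    exact h1
  have hfin := hli'.fintype_card_le_finrank
  rw [Fintype.card_fin, Module.finrank_pi_fintype] at hfin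
  simp only [Finset.sum_const, Finset.card_univ, Fintype.card_fin, smul_eq_mul] at hfin
  calc n ≤ d * finrank ℚ R := hfin
    _ ≤ d * (N₁ * d) := Nat.mul_le_mul_left _ hRr
    _ ≤ d * ((m * (finrank QB V + (s + 1) * s)) * d) := by
        gcongr
        exact hN₁.trans (Nat.mul_le_mul_left _ hW₁r)
    _ = d ^ 2 * m * (finrank QB V + s * (s + 1)) := by ring

end Pool.Agent.U945.LA
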