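import Pool.Agent.U945.LA.Tor
import Pool.Agent.U945.TS.FG
import Pool.Agent.N449.SP.UnitNF

set_option autoImplicit false
set_option linter.style.haveILetI false
set_option linter.unusedSectionVars false

/-!
# The unit equation in the division group of a finitely generated group
-/

namespace Pool.Agent.U945.LA

open Polynomial Finset
open Pool.Agent.N449.SP (Pm UE ue_numberField)

section
variable {K Ω : Type} [Field K] [NumberField K] [Field Ω] [Algebra K Ω] [IsAlgClosure K Ω]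

/-- automorphisms which fix all roots of unity -/
theorem fix_of {n : ℕ} (f : Fin n → Ω) (hf0 : ∀ i, f i ≠ 0)
    (hf : ∀ i, ∃ e : ℕ, 0 < e ∧ ∃ u : K, f i ^ e = algebraMap K Ω u) (hs : ∑ i, f i = 0)
    (hmin : ∀ J : Finset (Fin n), J.Nonempty → ∑ i ∈ J, f i = 0 → J = univ)
    (σ : Ω ≃ₐ[K] Ω) (hσ : ∀ (ζ : Ω) (e : ℕ), 0 < e → ζ ^ e = 1 → σ ζ = ζ) (i j : Fin n) :
    σ (f i / f j) = f i / f j := by
  classical
  set z : Fin n → Ω := fun i => σ (f i) / f i with hz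
  have hσf : ∀ i, σ (f i) = z i * f i := fun i => by rw [hz]; exact (div_mul_cancel₀ _ (hf0 i)).symm
  have hz1 : ∀ i, σ (z i) = z i := by
    intro i
    obtain ⟨e, he, u, hu⟩ := hf i
    apply hσ _ e he
    rw [hz]
    dsimp only
    rw [div_pow, ← map_pow, hu, AlgEquiv.commutes, ← hu, div_self (pow_ne_zero _ (hf0 i))]
  have hk : ∀ k : ℕ, ∑ i, f i * z i ^ k = 0 := by
    intro k
    induction k with
    | zero => simpa using hs
    | succ k ih =>
      have h1 := congrArg σ ih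
      rw [map_sum, map_zero] at h1
      rw [← h1]
      refine Finset.sum_congr rfl fun i _ => ?_
      rw [map_mul, map_pow, hz1, hσf]
      ring
  have h2 := group_sum (univ : Finset (Fin n)) _ le_rfl f z (fun k _ => hk k) (z i)
  have h3 := hmin _ ⟨i, by simp⟩ h2
  have h4 : z j = z i := by
    have : j ∈ (univ.filter fun j => z j = z i) := by rw [h3]; exact mem_univ _
    exact (Finset.mem_filter.1 this).2
  have hzi : z i ≠ 0 := by
    rw [hz]
    exact div_ne_zero ((map_ne_zero σ).2 (hf0 i)) (hf0 i)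
  rw [map_div₀, hσf, hσf, h4, mul_div_mul_left _ _ hzi]

/-- automorphisms with given action on the roots of unity -/
theorem exists_gal (ι : Ω →+* ℂ) : ∃ M : ℕ, 0 < M ∧ Even M ∧ ∀ m : ℕ, 0 < m → ∀ k : ℕ,
    k.Coprime m → k % M = 1 % M → ∃ σ : Ω ≃ₐ[K] Ω, ∀ ζ : Ω, ζ ^ m = 1 → σ ζ = ζ ^ k := by
  classical
  haveI : IsAlgClosed Ω := IsAlgClosure.isAlgClosed K
  haveI : CharZero Ω := charZero_of_injective_algebraMap (algebraMap K Ω).injective
  haveI : Normal K Ω := IsAlgClosure.normal K Ω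
  set φ : K →+* ℂ := ι.comp (algebraMap K Ω) with hφ
  set W : Submodule ℚ ℂ := LinearMap.range φ.toRatAlgHom.toLinearMap with hW
  have hWfg : W.FG := by
    rw [← Module.Finite.iff_fg]
    infer_instance
  have hmem : ∀ x : K, φ x ∈ W := fun x => ⟨x, rfl⟩
  obtain ⟨M, hM, hgal⟩ := Pool.Agent.TH936.NF.galW W hWfg
  refine ⟨2 * M, by omega, even_two_mul M, fun m hm k hk hkM => ?_⟩
  have hkM' : k % M = 1 % M := by
    have h1 : k ≡ 1 [MOD 2 * M] := hkM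
    exact h1.of_dvd (Dvd.intro_left 2 rfl)
  -- a primitive root
  obtain ⟨ζ, hζ⟩ : ∃ ζ : Ω, IsPrimitiveRoot ζ m := by
    haveI : NeZero (m : Ω) := ⟨by exact_mod_cast hm.ne'⟩
    obtain ⟨ζ, hζ⟩ := IsAlgClosed.exists_root (cyclotomic m Ω) (by
      rw [degree_cyclotomic]
      exact_mod_cast (Nat.totient_pos.2 hm).ne')
    exact ⟨ζ, isRoot_cyclotomic_iff.1 hζ⟩
  have hint : IsIntegral K ζ := (IsAlgClosure.isAlgebraic (R := K) (K := Ω)).isAlgebraic ζ |>.isIntegral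
  set p := minpoly K ζ with hp
  have h0 : ∑ j : Fin (p.natDegree + 1), (ι ζ ^ (j : ℕ)) * φ (p.coeff j) = 0 := by
    have h1 : aeval ζ p = 0 := minpoly.aeval K ζ
    rw [aeval_eq_sum_range, ← Fin.sum_univ_eq_sum_range (fun j => p.coeff j • ζ ^ j)] at h1
    have h2 := congrArg ι h1
    rw [map_sum, map_zero] at h2
    rw [← h2]
    refine Finset.sum_congr rfl fun j _ => ?_
    rw [Algebra.smul_def, map_mul, map_pow, hφ, RingHom.comp_apply, mul_comm]
  have h3 := hgal m k hm hk hkM' (Fin (p.natDegree + 1)) (fun j => ι ζ ^ (j : ℕ))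
    (fun j => φ (p.coeff j)) (fun j => by
      rw [← pow_mul, mul_comm, pow_mul, ← map_pow, hζ.pow_eq_one, map_one, one_pow])
    (fun j => hmem _) h0
  have h4 : aeval (ζ ^ k) p = 0 := by
    apply ι.injective
    rw [map_zero, ← h3, aeval_eq_sum_range, ← Fin.sum_univ_eq_sum_range
      (fun j => p.coeff j • (ζ ^ k) ^ j), map_sum]
    refine Finset.sum_congr rfl fun j _ => ?_
    rw [Algebra.smul_def, map_mul, map_pow, map_pow, hφ, RingHom.comp_apply, mul_comm,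
      ← pow_mul, ← pow_mul, mul_comm k]
  have h5 : IsConjRoot K ζ (ζ ^ k) := (isConjRoot_iff_aeval_eq_zero hint).2 h4
  obtain ⟨σ, hσ⟩ := isConjRoot_iff_exists_algEquiv.1 h5.symm
  refine ⟨σ, fun ξ hξ => ?_⟩
  haveI : NeZero m := ⟨hm.ne'⟩
  obtain ⟨i, _, rfl⟩ := hζ.eq_pow_of_pow_eq_one hξ
  rw [map_pow, hσ, ← pow_mul, ← pow_mul, mul_comm]

omit [NumberField K] [IsAlgClosure K Ω] in
/-- automorphisms commute on roots of unity -/
theorem comm_root (σ τ : Ω ≃ₐ[K] Ω) (ζ : Ω) (e : ℕ) (he : 0 < e) (hζ : ζ ^ e = 1) :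
    σ (τ ζ) = τ (σ ζ) := by
  have hfin : IsOfFinOrder ζ := isOfFinOrder_iff_pow_eq_one.2 ⟨e, he, hζ⟩
  have hp : IsPrimitiveRoot ζ (orderOf ζ) := IsPrimitiveRoot.orderOf ζ
  have hpos : 0 < orderOf ζ := hfin.orderOf_pos
  haveI : NeZero (orderOf ζ) := ⟨hpos.ne'⟩
  obtain ⟨a, _, ha⟩ := hp.eq_pow_of_pow_eq_one (ξ := σ ζ) (by
    rw [← map_pow, pow_orderOf_eq_one, map_one])
  obtain ⟨b, _, hb⟩ := hp.eq_pow_of_pow_eq_one (ξ := τ ζ) (by
    rw [← map_pow, pow_orderOf_eq_one, map_one])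
  rw [← ha, ← hb, map_pow, map_pow, ← ha, ← hb, ← pow_mul, ← pow_mul, mul_comm]

/-- powers of elements which are fixed by the automorphisms fixing the roots of unity -/
theorem pow_mem (ι : Ω →+* ℂ) : ∃ M : ℕ, 0 < M ∧ ∀ y : Ω, y ≠ 0 →
    (∃ e : ℕ, 0 < e ∧ ∃ u : K, y ^ e = algebraMap K Ω u) →
    (∀ σ : Ω ≃ₐ[K] Ω, (∀ (ζ : Ω) (e : ℕ), 0 < e → ζ ^ e = 1 → σ ζ = ζ) → σ y = y) →
    ∃ (c : K) (w : Ω) (e : ℕ), 0 < e ∧ w ^ e = 1 ∧ y ^ M = algebraMap K Ω c * w := by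
  classical
  haveI : IsAlgClosed Ω := IsAlgClosure.isAlgClosed K
  haveI : CharZero Ω := charZero_of_injective_algebraMap (algebraMap K Ω).injective
  haveI : Normal K Ω := IsAlgClosure.normal K Ω
  haveI : Algebra.IsAlgebraic K Ω := IsAlgClosure.isAlgebraic
  haveI : IsGalois K Ω := ⟨⟩
  obtain ⟨M, hM, hMe, hgal⟩ := exists_gal (K := K) ι
  refine ⟨M, hM, fun y hy ⟨e, he, u, hu⟩ hfix => ?_⟩
  obtain ⟨t, ht, hte, hkte⟩ := exists_t M e hMe he
  obtain ⟨σ₀, hσ₀⟩ := hgal e he (1 + M * t) hkte (by simp)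
  -- the characters
  set χ : (Ω ≃ₐ[K] Ω) → Ω := fun τ => τ y / y with hχ
  have hχy : ∀ τ : Ω ≃ₐ[K] Ω, τ y = χ τ * y := fun τ => by
    rw [hχ]; exact (div_mul_cancel₀ _ hy).symm
  have hχe : ∀ τ, χ τ ^ e = 1 := by
    intro τ
    rw [hχ]
    dsimp only
    rw [div_pow, ← map_pow, hu, AlgEquiv.commutes, ← hu, div_self (pow_ne_zero _ hy)]
  have hχ0 : ∀ τ, χ τ ≠ 0 := fun τ => div_ne_zero ((map_ne_zero τ).2 hy) hy
  have hcomm : ∀ σ τ : Ω ≃ₐ[K] Ω, σ (τ y) = τ (σ y) := by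
    intro σ τ
    have h1 := hfix ((τ * σ)⁻¹ * (σ * τ)) (by
      intro ζ n hn hζ
      rw [AlgEquiv.mul_apply, AlgEquiv.mul_apply, comm_root σ τ ζ n hn hζ, ← AlgEquiv.mul_apply,
        ← AlgEquiv.mul_apply, mul_assoc, inv_mul_cancel, AlgEquiv.one_apply])
    have h2 := congrArg (τ * σ) h1
    rw [← AlgEquiv.mul_apply, mul_inv_cancel_left] at h2
    exact h2
  -- the Bezout coefficient
  obtain ⟨s, hs⟩ : ∃ s : ℕ, t * s ≡ 1 [MOD e] := by
    refine ⟨t ^ (e.totient - 1), ?_⟩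
    have h1 : t * t ^ (e.totient - 1) = t ^ e.totient := by
      rw [← pow_succ']
      congr 1
      have := Nat.totient_pos.2 he
      omega
    rw [h1]
    exact Nat.ModEq.pow_totient hte
  set w : Ω := χ σ₀ ^ s with hw
  have hw0 : w ≠ 0 := pow_ne_zero _ (hχ0 _)
  have hpow : ∀ x : Ω, x ^ e = 1 → x ^ (t * s) = x := by
    intro x hx
    have h1 : x ^ (t * s) = x ^ ((t * s) % e) := by
      conv_lhs => rw [← Nat.mod_add_div (t * s) e, pow_add, pow_mul, hx, one_pow, mul_one]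
    have h2 : x ^ 1 = x ^ (1 % e) := by
      conv_lhs => rw [← Nat.mod_add_div 1 e, pow_add, pow_mul, hx, one_pow, mul_one]
    rw [h1, show t * s % e = 1 % e from hs, ← h2, pow_one]
  have hkey : ∀ τ : Ω ≃ₐ[K] Ω, χ τ ^ M * w = τ w := by
    intro τ
    have h1 := hcomm σ₀ τ
    rw [hχy τ, hχy σ₀, map_mul, map_mul, hχy τ, hχy σ₀, hσ₀ _ (hχe τ)] at h1
    have h2 : χ τ ^ (M * t) * χ σ₀ = τ (χ σ₀) := by
      have h3 : (χ τ * y) * (χ τ ^ (M * t) * χ σ₀) = (χ τ * y) * τ (χ σ₀) := by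
        rw [pow_add, pow_one] at h1
        linear_combination h1
      exact mul_left_cancel₀ (mul_ne_zero (hχ0 τ) hy) h3
    have h4 : (χ τ ^ (M * t) * χ σ₀) ^ s = τ (χ σ₀) ^ s := by rw [h2]
    rw [mul_pow, ← pow_mul] at h4
    have h5 : χ τ ^ (M * t * s) = χ τ ^ M := by
      rw [mul_assoc, pow_mul, hpow]
      rw [← pow_mul, mul_comm, pow_mul, hχe, one_pow]
    rw [h5] at h4
    rw [hw, h4, map_pow]
  have hinv : ∀ τ : Ω ≃ₐ[K] Ω, τ (y ^ M / w) = y ^ M / w := by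
    intro τ
    rw [map_div₀, map_pow, hχy τ, ← hkey τ, mul_pow, mul_comm (χ τ ^ M) w, mul_comm (χ τ ^ M),
      mul_div_mul_right _ _ (pow_ne_zero _ (hχ0 τ))]
  obtain ⟨c, hc⟩ := (InfiniteGalois.mem_bot_iff_fixed (k := K) (K := Ω) (y ^ M / w)).2 hinv
  refine ⟨c, w, e, he, ?_, ?_⟩
  · rw [hw, ← pow_mul, mul_comm, pow_mul, hχe, one_pow]
  · have h6 : algebraMap K Ω c = y ^ M / w := hc
    rw [h6, div_mul_cancel₀ _ hw0]

end

end Pool.Agent.U945.LA
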