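import Pool.Agent.U945.LA.Cplx
import Pool.Agent.U945.RD.Rank

set_option autoImplicit false
set_option linter.style.haveILetI false
set_option linter.unusedSectionVars false

/-!
# Groups of finite rank of algebraic points of a torus, and algebraic subsets of the torus
-/

namespace Pool.Agent.U945.LA

open Finset MvPolynomial
open Pool.Agent.N449.SP (UE ue_ratio)
open Pool.Agent.H301R2.SSE (QB mem_QB Lt Lt_one Lt_log Lg mem_Lg)

/-- a maximal independent family -/
theorem max_indep {G : Type} [CommGroup G] (E : Subgroup G) (N : ℕ)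
    (h : ∀ (n : ℕ) (X : Fin n → G), (∀ j, X j ∈ E) →
      (∀ k : Fin n → ℤ, ∏ j, X j ^ k j = 1 → k = 0) → n ≤ N) :
    ∃ (n : ℕ) (X : Fin n → G), (∀ j, X j ∈ E) ∧
      ∀ y ∈ E, ∃ m : ℕ, 0 < m ∧ ∃ a : Fin n → ℤ, y ^ m = ∏ j, X j ^ a j := by
  classical
  set A : Set ℕ := {n | ∃ X : Fin n → G, (∀ j, X j ∈ E) ∧
    ∀ k : Fin n → ℤ, ∏ j, X j ^ k j = 1 → k = 0} with hA
  have hAf : A.Finite := (Set.finite_Iic N).subset (fun n ⟨x, hx, hx'⟩ => h n x hx hx')
  have hAne : A.Nonempty := ⟨0, Fin.elim0, fun i => i.elim0, fun k _ => Subsingleton.elim _ _⟩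
  obtain ⟨n, hn, hmax⟩ := hAf.exists_maximal hAne
  obtain ⟨X, hX, hmi⟩ := hn
  refine ⟨n, X, hX, fun y hy => ?_⟩
  by_contra hcon
  have hmem : n + 1 ∈ A := by
    refine ⟨Fin.snoc X y, fun j => ?_, fun k hk => ?_⟩
    · refine Fin.lastCases ?_ (fun j => ?_) j
      · rw [Fin.snoc_last]; exact hy
      · rw [Fin.snoc_castSucc]; exact hX j
    · rw [Fin.prod_univ_castSucc] at hk
      simp only [Fin.snoc_castSucc, Fin.snoc_last] at hk
      have hl : k (Fin.last n) = 0 := by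
        by_contra hl
        apply hcon
        have h1 : y ^ k (Fin.last n) = ∏ j : Fin n, X j ^ (-k j.castSucc) := by
          have h2 : ∏ j : Fin n, X j ^ (-k j.castSucc) = (∏ j : Fin n, X j ^ k j.castSucc)⁻¹ := by
            rw [← Finset.prod_inv_distrib]
            exact Finset.prod_congr rfl fun j _ => zpow_neg _ _
          rw [h2]
          exact eq_inv_of_mul_eq_one_right hk
        rcases Int.natAbs_eq (k (Fin.last n)) with h3 | h3
        · refine ⟨(k (Fin.last n)).natAbs, Int.natAbs_pos.2 hl, fun j => -k j.castSucc, ?_⟩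
          rw [h3, zpow_natCast] at h1
          exact h1
        · refine ⟨(k (Fin.last n)).natAbs, Int.natAbs_pos.2 hl, fun j => k j.castSucc, ?_⟩
          rw [h3, zpow_neg, zpow_natCast] at h1
          have h4 := congrArg (fun u => u⁻¹) h1
          rw [inv_inv, ← Finset.prod_inv_distrib] at h4
          rw [h4]
          exact Finset.prod_congr rfl fun j _ => by rw [zpow_neg, inv_inv]
      rw [hl, zpow_zero, mul_one] at hk
      have h5 := hmi (fun j => k j.castSucc) hk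
      funext j
      refine Fin.lastCases ?_ (fun j => ?_) j
      · exact hl
      · exact congrFun h5 j
  have := hmax hmem (by omega)
  omega

/-- the coordinates of the points of a group of finite rank -/
theorem coords {d : ℕ} (E : Subgroup (Fin d → ℂˣ)) (N : ℕ)
    (h : ∀ (n : ℕ) (X : Fin n → Fin d → ℂˣ), (∀ j, X j ∈ E) →
      (∀ k : Fin n → ℤ, ∏ j, X j ^ k j = 1 → k = 0) → n ≤ N)
    (halg : ∀ x ∈ E, ∀ i, IsAlgebraic ℚ (x i : ℂ)) :
    ∃ S : Finset ℂˣ, (∀ u ∈ S, IsAlgebraic ℚ (u : ℂ)) ∧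
      ∀ x ∈ E, ∀ i, x i ∈ Dv (S : Set ℂˣ) := by
  classical
  obtain ⟨n, X, hX, hmax⟩ := max_indep E N h
  refine ⟨(univ : Finset (Fin n × Fin d)).image (fun q => X q.1 q.2), ?_, fun x hx i => ?_⟩
  · intro u hu
    rw [Finset.mem_image] at hu
    obtain ⟨q, -, rfl⟩ := hu
    exact halg _ (hX _) _
  · obtain ⟨m, hm, a, ha⟩ := hmax x hx
    refine ⟨m, hm, ?_⟩
    have h1 := congrFun ha i
    rw [Pi.pow_apply, Finset.prod_apply] at h1
    rw [h1]
    refine Subgroup.prod_mem _ fun j _ => ?_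
    rw [Pi.pow_apply]
    refine Subgroup.zpow_mem _ (Subgroup.subset_closure ?_) _
    rw [Finset.mem_coe, Finset.mem_image]
    exact ⟨(j, i), mem_univ _, rfl⟩

theorem Dv_mono {S T : Set ℂˣ} (h : S ⊆ T) : Dv S ≤ Dv T := by
  rintro u ⟨e, he, hu⟩
  exact ⟨e, he, Subgroup.closure_mono h hu⟩

/-- cosets, for polynomials with algebraic coefficients -/
theorem cosets_alg {d : ℕ} {κ : Type} [Fintype κ] (E : Set (Fin d → ℂˣ)) (S₀ : Finset ℂˣ)
    (hS₀ : ∀ u ∈ S₀, IsAlgebraic ℚ (u : ℂ)) (hE : ∀ x ∈ E, ∀ i, x i ∈ Dv (S₀ : Set ℂˣ))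
    (P : κ → MvPolynomial (Fin d) ℂ) (hP : ∀ j α, IsAlgebraic ℚ ((P j).coeff α)) :
    ∃ T : Finset ((Fin d → ℂˣ) × Finset (Fin d → ℤ)),
      (∀ t ∈ T, t.1 ∈ E ∧ ∀ z : Fin d → ℂˣ, (∀ m ∈ t.2, chrU m z = chrU m t.1) →
        ∀ j, eval (fun i => (z i : ℂ)) (P j) = 0) ∧
      ∀ x ∈ E, (∀ j, eval (fun i => (x i : ℂ)) (P j) = 0) → ∃ t ∈ T, ∀ m ∈ t.2,
        chrU m x = chrU m t.1 := by
  classical
  set cf : Finset ℂˣ := (univ : Finset κ).biUnion (fun j => ((P j).support.attach).image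
    (fun α => Units.mk0 ((P j).coeff α.1) (mem_support_iff.1 α.2))) with hcf
  set S : Finset ℂˣ := S₀ ∪ cf with hS
  have hSa : ∀ u ∈ S, IsAlgebraic ℚ (u : ℂ) := by
    intro u hu
    rw [hS, Finset.mem_union, hcf, Finset.mem_biUnion] at hu
    rcases hu with hu | ⟨j, -, hu⟩
    · exact hS₀ u hu
    · rw [Finset.mem_image] at hu
      obtain ⟨α, -, rfl⟩ := hu
      exact hP j _
  refine cosets_gen _ (ue_Dv S hSa) E P fun x hx j α hα => ?_
  refine ⟨Units.mk0 ((P j).coeff α) (mem_support_iff.1 hα) * ∏ i, x i ^ α i,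
    mul_mem (subset_Dv ?_) (Subgroup.prod_mem _ fun i _ => Subgroup.pow_mem _
      (Dv_mono (by rw [hS, Finset.coe_union]; exact Set.subset_union_left) (hE x hx i)) _), ?_⟩
  · rw [Finset.mem_coe, hS, Finset.mem_union, hcf, Finset.mem_biUnion]
    exact Or.inr ⟨j, mem_univ j, Finset.mem_image.2 ⟨⟨α, hα⟩, Finset.mem_attach _ _, rfl⟩⟩
  · rw [Units.val_mul, Units.val_mk0, Units.coe_prod]
    simp only [Units.val_pow_eq_pow_val]

/-- decomposition of a polynomial with complex coefficients -/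
theorem decomp {d : ℕ} (p : MvPolynomial (Fin d) ℂ) : ∃ (κ : Type) (_ : Fintype κ)
    (Q : κ → MvPolynomial (Fin d) ℂ), (∀ k α, IsAlgebraic ℚ ((Q k).coeff α)) ∧
      (∀ z : Fin d → ℂ, (∀ k, eval z (Q k) = 0) → eval z p = 0) ∧
      ∀ z : Fin d → ℂ, (∀ i, IsAlgebraic ℚ (z i)) → eval z p = 0 → ∀ k, eval z (Q k) = 0 := by
  classical
  set B := Module.Basis.ofVectorSpace QB ℂ with hB
  set S := p.support.biUnion (fun α => (B.repr (p.coeff α)).support) with hS
  set Q : S → MvPolynomial (Fin d) ℂ := fun k =>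
    ∑ α ∈ p.support, monomial α ((B.repr (p.coeff α) k.1 : QB) : ℂ) with hQ
  have hQe : ∀ (k : S) (z : Fin d → ℂ), eval z (Q k) =
      ∑ α ∈ p.support, ((B.repr (p.coeff α) k.1 : QB) : ℂ) * ∏ i, z i ^ α i := by
    intro k z
    rw [hQ]
    dsimp only
    rw [map_sum]
    refine Finset.sum_congr rfl fun α _ => ?_
    rw [eval_monomial, Finsupp.prod_fintype _ _ (fun i => pow_zero _)]
  have hpe : ∀ z : Fin d → ℂ, eval z p = ∑ k : S, eval z (Q k) * B k.1 := by
    intro z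
    rw [eval_eq']
    have h1 : ∀ α ∈ p.support, p.coeff α = ∑ k : S, ((B.repr (p.coeff α) k.1 : QB) : ℂ) * B k.1 := by
      intro α hα
      conv_lhs => rw [← B.linearCombination_repr (p.coeff α)]
      rw [Finsupp.linearCombination_apply, Finsupp.sum_of_support_subset (s := S) _
        (Finset.subset_biUnion_of_mem (fun α => (B.repr (p.coeff α)).support) hα)
        (fun i a => a • B i) (fun i _ => zero_smul _ _), ← Finset.sum_coe_sort]
      rfl
    rw [Finset.sum_congr rfl fun α hα => by rw [h1 α hα]]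
    simp only [hQe, Finset.sum_mul]
    rw [Finset.sum_comm]
    refine Finset.sum_congr rfl fun k _ => Finset.sum_congr rfl fun α _ => by ring
  refine ⟨S, inferInstance, Q, fun k α => ?_, fun z hz => ?_, fun z hz hz0 k => ?_⟩
  · rw [← mem_QB, hQ]
    dsimp only
    rw [coeff_sum]
    refine sum_mem fun β _ => ?_
    rw [coeff_monomial]
    split_ifs
    · exact SetLike.coe_mem _
    · exact zero_mem _
  · rw [hpe]
    exact Finset.sum_eq_zero fun k _ => by rw [hz k, zero_mul]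
  · have hmem : ∀ k : S, eval z (Q k) ∈ QB := by
      intro k
      rw [hQe]
      exact sum_mem fun α _ => mul_mem (SetLike.coe_mem _) (prod_mem fun i _ =>
        _root_.pow_mem (mem_QB.2 (hz i)) _)
    have h1 : ∑ k : S, (⟨eval z (Q k), hmem k⟩ : QB) • B k.1 = 0 := by
      rw [← hz0, hpe]
      rfl
    have h2 := (B.linearIndependent.comp (fun k : S => k.1) Subtype.val_injective)
    rw [Fintype.linearIndependent_iff] at h2
    exact congrArg Subtype.val (h2 _ h1 k)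

/-- **Cosets**, for polynomials with complex coefficients -/
theorem cosets_cplx {d s : ℕ} (E : Set (Fin d → ℂˣ)) (S₀ : Finset ℂˣ)
    (hS₀ : ∀ u ∈ S₀, IsAlgebraic ℚ (u : ℂ)) (hE : ∀ x ∈ E, ∀ i, x i ∈ Dv (S₀ : Set ℂˣ))
    (P : Fin s → MvPolynomial (Fin d) ℂ) :
    ∃ T : Finset ((Fin d → ℂˣ) × Finset (Fin d → ℤ)),
      (∀ t ∈ T, t.1 ∈ E ∧ ∀ z : Fin d → ℂˣ, (∀ m ∈ t.2, chrU m z = chrU m t.1) →
        ∀ j, eval (fun i => (z i : ℂ)) (P j) = 0) ∧
      ∀ x ∈ E, (∀ j, eval (fun i => (x i : ℂ)) (P j) = 0) → ∃ t ∈ T, ∀ m ∈ t.2,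
        chrU m x = chrU m t.1 := by
  classical
  choose κ hκ Q hQ1 hQ2 hQ3 using fun j => decomp (P j)
  haveI := hκ
  have hxa : ∀ x ∈ E, ∀ i, IsAlgebraic ℚ (x i : ℂ) := by
    intro x hx i
    obtain ⟨e, he, h⟩ := hE x hx i
    apply IsAlgebraic.of_pow he
    rw [← Units.val_pow_eq_pow_val]
    have key : ∀ v ∈ Subgroup.closure (S₀ : Set ℂˣ), IsAlgebraic ℚ (v : ℂ) := by
      intro v hv
      induction hv using Subgroup.closure_induction with
      | mem y hy => exact hS₀ y hy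
      | one => exact isAlgebraic_one
      | mul a b _ _ ha hb => rw [Units.val_mul]; exact ha.mul hb
      | inv a _ ha => rw [Units.val_inv_eq_inv_val]; exact ha.inv
    exact key _ h
  obtain ⟨T, hT1, hT2⟩ := cosets_alg (κ := (j : Fin s) × κ j) E S₀ hS₀ hE (fun q => Q q.1 q.2)
    (fun q α => hQ1 q.1 q.2 α)
  refine ⟨T, fun t ht => ⟨(hT1 t ht).1, fun z hz j => ?_⟩, fun x hx hxP => ?_⟩
  · exact hQ2 j _ fun k => (hT1 t ht).2 z hz ⟨j, k⟩
  · exact hT2 x hx fun q => hQ3 q.1 _ (fun i => hxa x hx i) (hxP q.1) q.2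

end Pool.Agent.U945.LA
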