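import Pool.Agent.U945.LA.Pack
import Pool.Agent.U945.BR.Main

set_option autoImplicit false

/-!
# Sets of algebraic numbers of finite rank and explicit sequences
-/

namespace Pool.Agent.U945.LA

open Finset
open Pool.Agent.N449.SP (UE ue_ratio exists_min)

/-- **Sums of elements of a group of finite rank.** -/
theorem score (S : Finset ℂˣ) (hS : ∀ u ∈ S, IsAlgebraic ℚ (u : ℂ)) (N : ℕ) :
    ∃ R : Finset ℂ, ∀ (ι : Type) (J : Finset ι) (f : ι → ℂˣ), J.card ≤ N →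
      (∀ i ∈ J, f i ∈ Dv (S : Set ℂˣ)) → ∀ x ∈ Dv (S : Set ℂˣ), ∑ i ∈ J, (f i : ℂ) = (x : ℂ) →
      (∀ i ∈ J, (f i : ℂ) / (x : ℂ) ∈ R ∨ ∃ j ∈ J, j ≠ i ∧ (f i : ℂ) / f j ∈ R) ∧
      ((∀ J' ⊆ J, J'.Nonempty → ∑ i ∈ J', (f i : ℂ) ≠ 0) → ∀ i ∈ J, (x : ℂ) / f i ∈ R) := by
  classical
  obtain ⟨R₀, hR₀⟩ := ue_ratio _ (ue_Dv S hS) (N + 1)
  refine ⟨R₀ ∪ R₀.image (fun z => -z), ?_⟩
  intro ι J f hJN hf x hx hsum
  have hx0 : (x : ℂ) ≠ 0 := x.ne_zero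
  have hneg1 : (-1 : ℂˣ) ∈ Dv (S : Set ℂˣ) := ⟨2, by norm_num, by
    rw [neg_one_sq]; exact one_mem _⟩
  set F : Option ι → ℂ := fun o => o.elim (-(x : ℂ)) (fun i => (f i : ℂ)) with hF
  have hFs : ∀ i, F (some i) = f i := fun i => rfl
  have hFn : F none = -(x : ℂ) := rfl
  set J₀ : Finset (Option ι) := insertNone J with hJ₀
  have hsum0 : ∑ o ∈ J₀, F o = 0 := by
    rw [hJ₀, Finset.sum_insertNone]
    rw [hFn]
    simp only [hFs]
    rw [hsum]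
    ring
  have hcard : J₀.card ≤ N + 1 := by
    rw [hJ₀, Finset.card_insertNone]
    omega
  have hFU : ∀ o ∈ J₀, F o ∈ {x : ℂ | ∃ u ∈ Dv (S : Set ℂˣ), (u : ℂ) = x} := by
    intro o ho
    match o with
    | none =>
      rw [hFn]
      exact ⟨-1 * x, mul_mem hneg1 hx, by push_cast; ring⟩
    | some i =>
      rw [hFs]
      rw [hJ₀, Finset.some_mem_insertNone] at ho
      exact ⟨f i, hf i ho, rfl⟩
  have hF0 : ∀ o ∈ J₀, F o ≠ 0 := by
    intro o ho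
    match o with
    | none =>
      rw [hFn]
      exact neg_ne_zero.2 hx0
    | some i =>
      rw [hFs]
      exact (f i).ne_zero
  -- the block of an element
  have block : ∀ o₀ ∈ J₀, ∃ J₁ ⊆ J₀, o₀ ∈ J₁ ∧ (∃ o ∈ J₁, o ≠ o₀) ∧ ∑ o ∈ J₁, F o = 0 ∧
      ∀ o ∈ J₁, ∀ o' ∈ J₁, F o / F o' ∈ R₀ := by
    intro o₀ ho₀
    obtain ⟨J₁, hJ₁, ho₁, hs₁, hmin⟩ := exists_min F (fun J => o₀ ∈ J) J₀ ho₀ hsum0
    have hmin' : ∀ J' ⊆ J₁, J'.Nonempty → ∑ o ∈ J', F o = 0 → J' = J₁ := by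
      intro J' hJ' hne hs'
      by_cases h : o₀ ∈ J'
      · exact hmin J' hJ' h hs'
      · exfalso
        have h2 : J₁ \ J' = J₁ := by
          refine hmin _ Finset.sdiff_subset (Finset.mem_sdiff.2 ⟨ho₁, h⟩) ?_
          have := Finset.sum_sdiff (f := F) hJ'
          rw [hs', hs₁, add_zero] at this
          exact this
        obtain ⟨o, ho⟩ := hne
        have h3 := hJ' ho
        rw [← h2, Finset.mem_sdiff] at h3
        exact h3.2 ho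
    refine ⟨J₁, hJ₁, ho₁, ?_, hs₁, ?_⟩
    · by_contra hcon
      push Not at hcon
      have h4 : J₁ = {o₀} := Finset.eq_singleton_iff_unique_mem.2 ⟨ho₁, hcon⟩
      rw [h4, Finset.sum_singleton] at hs₁
      exact hF0 o₀ ho₀ hs₁
    · exact hR₀ (Option ι) F J₁ ((Finset.card_le_card hJ₁).trans hcard)
        (fun o ho => hFU o (hJ₁ ho)) hs₁ hmin'
  have hneg : ∀ i ∈ J, F none / F (some i) ∈ R₀ →
      (x : ℂ) / f i ∈ R₀ ∪ R₀.image (fun z => -z) := by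
    intro i _ h
    rw [Finset.mem_union, Finset.mem_image]
    refine Or.inr ⟨_, h, ?_⟩
    rw [hFn, hFs, neg_div, neg_neg]
  refine ⟨?_, ?_⟩
  · intro i hi
    have hi' : some i ∈ J₀ := by
      rw [hJ₀, Finset.some_mem_insertNone]
      exact hi
    obtain ⟨J₁, hJ₁, h1, ⟨o, ho, hne⟩, h2, h3⟩ := block (some i) hi'
    match o, hne with
    | some j, hne =>
      right
      have hj : j ∈ J := by
        have := hJ₁ ho
        rwa [hJ₀, Finset.some_mem_insertNone] at this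
      refine ⟨j, hj, fun h => hne (by rw [h]), ?_⟩
      rw [Finset.mem_union]
      exact Or.inl (h3 _ h1 _ ho)
    | none, _ =>
      left
      rw [Finset.mem_union, Finset.mem_image]
      refine Or.inr ⟨_, h3 _ h1 _ ho, ?_⟩
      rw [hFn, hFs, div_neg, neg_neg]
  · intro hnd i hi
    have hi' : some i ∈ J₀ := by
      rw [hJ₀, Finset.some_mem_insertNone]
      exact hi
    obtain ⟨J₁, hJ₁, h1, ⟨o, ho, hne⟩, h2, h3⟩ := block (some i) hi'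
    have hn1 : none ∈ J₁ := by
      by_contra hcon
      refine hnd (eraseNone J₁) ?_ ⟨i, Finset.mem_eraseNone.2 h1⟩ ?_
      · intro j hj
        have := hJ₁ (Finset.mem_eraseNone.1 hj)
        rwa [hJ₀, Finset.some_mem_insertNone] at this
      · have h4 : J₁ = (eraseNone J₁).map Function.Embedding.some := by
          rw [Finset.map_some_eraseNone, Finset.erase_eq_of_notMem hcon]
        rw [h4, Finset.sum_map] at h2
        exact h2
    exact hneg i hi (h3 _ hn1 _ h1)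

/-- a set of finite rank is contained in a division group -/
theorem set_Dv {A : Set ℂˣ} (halg : ∀ x ∈ A, IsAlgebraic ℚ (x : ℂ)) {B : ℕ} (hB : RkLe A B) :
    ∃ S : Finset ℂˣ, (∀ u ∈ S, IsAlgebraic ℚ (u : ℂ)) ∧ ∀ x ∈ A, x ∈ Dv (S : Set ℂˣ) := by
  classical
  obtain ⟨n, X, -, hX, hmax⟩ := max_indep_set hB
  refine ⟨univ.image X, fun u hu => ?_, fun x hx => ?_⟩
  · rw [Finset.mem_image] at hu
    obtain ⟨j, -, rfl⟩ := hu
    exact halg _ (hX j)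
  · obtain ⟨m, hm, a, ha⟩ := hmax x hx
    refine ⟨m, hm, ?_⟩
    rw [ha]
    refine Subgroup.prod_mem _ fun j _ => Subgroup.zpow_mem _ (Subgroup.subset_closure ?_) _
    rw [Finset.mem_coe, Finset.mem_image]
    exact ⟨j, mem_univ _, rfl⟩

/-- **Linear recurrences.** -/
theorem recur_set {A : Set ℂˣ} (halg : ∀ x ∈ A, IsAlgebraic ℚ (x : ℂ)) {B : ℕ} (hB : RkLe A B)
    {k : ℕ} (hk : 2 ≤ k) (c a : Fin k → ℂˣ) (hc : ∀ i, IsAlgebraic ℚ (c i : ℂ))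
    (ha : ∀ i, IsAlgebraic ℚ (a i : ℂ)) (hne : ∀ i j, i ≠ j → ∀ n : ℕ, n ≠ 0 → a i ^ n ≠ a j ^ n) :
    {n : ℤ | ∃ x ∈ A, ∑ i, ((c i * a i ^ n : ℂˣ) : ℂ) = (x : ℂ)}.Finite := by
  classical
  obtain ⟨S₀, hS₀, hA⟩ := set_Dv halg hB
  set S : Finset ℂˣ := S₀ ∪ (univ.image c ∪ univ.image a) with hS
  have hSa : ∀ u ∈ S, IsAlgebraic ℚ (u : ℂ) := by
    intro u hu
    rw [hS, Finset.mem_union, Finset.mem_union, Finset.mem_image, Finset.mem_image] at hu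
    rcases hu with hu | ⟨i, -, rfl⟩ | ⟨i, -, rfl⟩
    · exact hS₀ u hu
    · exact hc i
    · exact ha i
  have hcS : ∀ i, c i ∈ Dv (S : Set ℂˣ) := fun i => subset_Dv (by
    rw [Finset.mem_coe, hS, Finset.mem_union, Finset.mem_union, Finset.mem_image]
    exact Or.inr (Or.inl ⟨i, mem_univ i, rfl⟩))
  have haS : ∀ i, a i ∈ Dv (S : Set ℂˣ) := fun i => subset_Dv (by
    rw [Finset.mem_coe, hS, Finset.mem_union, Finset.mem_union, Finset.mem_image, Finset.mem_image]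
    exact Or.inr (Or.inr ⟨i, mem_univ i, rfl⟩))
  have hAS : ∀ x ∈ A, x ∈ Dv (S : Set ℂˣ) := fun x hx =>
    Dv_mono (by rw [hS, Finset.coe_union]; exact Set.subset_union_left) (hA x hx)
  obtain ⟨R, hR⟩ := score S hSa k
  -- finitely many `n` for each ratio
  have hfin : ∀ i j, i ≠ j → ∀ z : ℂ,
      {n : ℤ | ((c i * a i ^ n : ℂˣ) : ℂ) / ((c j * a j ^ n : ℂˣ) : ℂ) = z}.Finite := by
    intro i j hij z
    refine Set.Subsingleton.finite ?_
    intro n hn n' hn'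
    rw [Set.mem_ofPred_eq] at hn hn'
    by_contra hcon
    have h1 : (c i * a i ^ n) / (c j * a j ^ n) = (c i * a i ^ n') / (c j * a j ^ n') := by
      apply Units.ext
      rw [Units.val_div_eq_div_val, Units.val_div_eq_div_val, hn, hn']
    rw [mul_div_mul_comm, mul_div_mul_comm] at h1
    have h2 := mul_left_cancel h1
    rw [← div_zpow, ← div_zpow] at h2
    have h3 : (a i / a j) ^ (n - n') = 1 := by
      rw [zpow_sub, h2]
      exact mul_inv_cancel _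
    have h4 : (a i / a j) ^ (n - n').natAbs = 1 := by
      rcases Int.natAbs_eq (n - n') with h4 | h4
      · rw [h4, zpow_natCast] at h3
        exact h3
      · rw [h4, zpow_neg, zpow_natCast, inv_eq_one] at h3
        exact h3
    rw [div_pow, div_eq_one] at h4
    exact hne i j hij _ (by omega) h4
  set R' : Finset ℂ := R ∪ (R ×ˢ R).image (fun p => p.1 / p.2) with hR'
  have hbig : (⋃ i : Fin k, ⋃ j : Fin k, ⋃ z ∈ R', {n : ℤ | i ≠ j ∧
      ((c i * a i ^ n : ℂˣ) : ℂ) / ((c j * a j ^ n : ℂˣ) : ℂ) = z}).Finite := by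
    refine Set.finite_iUnion fun i => Set.finite_iUnion fun j => ?_
    refine Set.Finite.biUnion R'.finite_toSet fun z _ => ?_
    by_cases hij : i = j
    · exact Set.Finite.subset Set.finite_empty (fun n hn => (hn.1 hij).elim)
    · exact (hfin i j hij z).subset (fun n hn => hn.2)
  refine hbig.subset ?_
  rintro n ⟨x, hx, hsum⟩
  obtain ⟨h2, -⟩ := hR (Fin k) univ (fun i => c i * a i ^ n) (by simp)
    (fun i _ => mul_mem (hcS i) (Subgroup.zpow_mem _ (haS i) n)) x (hAS x hx) hsum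
  have fin : ∀ i j, i ≠ j → ((c i * a i ^ n : ℂˣ) : ℂ) / ((c j * a j ^ n : ℂˣ) : ℂ) ∈ R' →
      n ∈ (⋃ i : Fin k, ⋃ j : Fin k, ⋃ z ∈ R', {n : ℤ | i ≠ j ∧
      ((c i * a i ^ n : ℂˣ) : ℂ) / ((c j * a j ^ n : ℂˣ) : ℂ) = z}) := by
    intro i j hij h
    simp only [Set.mem_iUnion]
    exact ⟨i, j, _, h, hij, rfl⟩
  set i0 : Fin k := ⟨0, by omega⟩ with hi0
  set i1 : Fin k := ⟨1, by omega⟩ with hi1
  have h01 : i0 ≠ i1 := by
    intro h
    have := congrArg Fin.val h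
    simp [hi0, hi1] at this
  rcases h2 i0 (mem_univ _) with h3 | ⟨j, -, hj, h3⟩
  · rcases h2 i1 (mem_univ _) with h4 | ⟨j, -, hj, h4⟩
    · apply fin i0 i1 h01
      rw [hR', Finset.mem_union, Finset.mem_image]
      refine Or.inr ⟨(_, _), Finset.mem_product.2 ⟨h3, h4⟩, ?_⟩
      dsimp only
      rw [div_div_div_cancel_right₀ x.ne_zero]
    · exact fin i1 j hj.symm (Finset.mem_union_left _ h4)
  · exact fin i0 j hj.symm (Finset.mem_union_left _ h3)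

/-- **Few digits.** -/
theorem digits_set {A : Set ℂˣ} (halg : ∀ x ∈ A, IsAlgebraic ℚ (x : ℂ)) {B : ℕ} (hB : RkLe A B)
    {b : ℕ} (hb : 2 ≤ b) (k : ℕ) :
    {n : ℕ | (∃ J : Finset ℕ, J.card ≤ k ∧ ∃ d : ℕ → ℕ, (∀ m ∈ J, 0 < d m ∧ d m < b) ∧
      n = ∑ m ∈ J, d m * b ^ m) ∧ ¬ b ∣ n ∧ ∃ x ∈ A, (x : ℂ) = n}.Finite := by
  classical
  obtain ⟨S₀, hS₀, hA⟩ := set_Dv halg hB
  set g : ℕ → ℂˣ := fun j => if h : ((j : ℕ) : ℂ) = 0 then 1 else Units.mk0 _ h with hg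
  have hgv : ∀ j : ℕ, 0 < j → ((g j : ℂˣ) : ℂ) = j := by
    intro j hj
    have h0 : ((j : ℕ) : ℂ) ≠ 0 := by exact_mod_cast hj.ne'
    rw [hg]
    dsimp only
    rw [dif_neg h0]
    rfl
  set S : Finset ℂˣ := S₀ ∪ (Finset.Icc 1 b).image g with hS
  have hSa : ∀ u ∈ S, IsAlgebraic ℚ (u : ℂ) := by
    intro u hu
    rw [hS, Finset.mem_union, Finset.mem_image] at hu
    rcases hu with hu | ⟨i, hi, rfl⟩
    · exact hS₀ u hu
    · rw [hgv i (Finset.mem_Icc.1 hi).1]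
      exact isAlgebraic_natCast _
  have hgS : ∀ j, 0 < j → j ≤ b → g j ∈ Dv (S : Set ℂˣ) := fun j h1 h2 => subset_Dv (by
    rw [Finset.mem_coe, hS, Finset.mem_union, Finset.mem_image]
    exact Or.inr ⟨j, Finset.mem_Icc.2 ⟨h1, h2⟩, rfl⟩)
  have hAS : ∀ x ∈ A, x ∈ Dv (S : Set ℂˣ) := fun x hx =>
    Dv_mono (by rw [hS, Finset.coe_union]; exact Set.subset_union_left) (hA x hx)
  obtain ⟨R, hR⟩ := score S hSa k
  have hfin : {q : ℕ | ∃ d : ℕ, d < b ∧ 0 < d ∧ (q : ℂ) / (d : ℂ) ∈ R}.Finite := by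
    have h1 : {q : ℕ | ∃ d : ℕ, d < b ∧ 0 < d ∧ (q : ℂ) / (d : ℂ) ∈ R} ⊆
        ⋃ d ∈ Finset.range b, ⋃ z ∈ R, {q : ℕ | 0 < d ∧ (q : ℂ) / (d : ℂ) = z} := by
      rintro q ⟨d, hd, hd0, h⟩
      simp only [Set.mem_iUnion]
      exact ⟨d, Finset.mem_range.2 hd, _, h, hd0, rfl⟩
    refine Set.Finite.subset ?_ h1
    refine Set.Finite.biUnion (Finset.finite_toSet _) fun d _ => ?_
    refine Set.Finite.biUnion (Finset.finite_toSet _) fun z _ => ?_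
    refine Set.Subsingleton.finite ?_
    rintro q ⟨hd, hq⟩ q' ⟨_, hq'⟩
    rw [← hq'] at hq
    have hd' : (d : ℂ) ≠ 0 := by exact_mod_cast hd.ne'
    have := (div_left_inj' hd').1 hq
    exact_mod_cast this
  refine hfin.subset ?_
  rintro n ⟨⟨J, hJ, d, hd, hn⟩, hbn, x, hx, hxn⟩
  have hb0 : 0 < b := by omega
  have hfv : ∀ m ∈ J, ((g (d m) * g b ^ m : ℂˣ) : ℂ) = (d m : ℂ) * (b : ℂ) ^ m := by
    intro m hm
    rw [Units.val_mul, Units.val_pow_eq_pow_val, hgv _ (hd m hm).1, hgv _ hb0]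
  have hsum : ∑ m ∈ J, ((g (d m) * g b ^ m : ℂˣ) : ℂ) = (x : ℂ) := by
    rw [Finset.sum_congr rfl hfv, hxn, hn]
    push_cast
    rfl
  obtain ⟨-, h3⟩ := hR ℕ J (fun m => g (d m) * g b ^ m) hJ (fun m hm =>
    mul_mem (hgS _ (hd m hm).1 (hd m hm).2.le) (Subgroup.pow_mem _ (hgS b hb0 le_rfl) m))
    x (hAS x hx) hsum
  have hpos : ∀ m ∈ J, 0 < d m * b ^ m := fun m hm =>
    Nat.mul_pos (hd m hm).1 (pow_pos (by omega) _)
  have h4 := h3 (by
    intro J' hJ' hne hs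
    rw [Finset.sum_congr rfl fun m hm => hfv m (hJ' hm)] at hs
    have h5 : ((∑ m ∈ J', d m * b ^ m : ℕ) : ℂ) = 0 := by
      push_cast
      exact hs
    have h6 : (∑ m ∈ J', d m * b ^ m : ℕ) = 0 := by exact_mod_cast h5
    have h7 : 0 < ∑ m ∈ J', d m * b ^ m := Finset.sum_pos (fun m hm => hpos m (hJ' hm)) hne
    omega)
  -- the lowest digit is at `0`
  have h0J : 0 ∈ J := by
    by_contra hcon
    apply hbn
    rw [hn]
    refine Finset.dvd_sum fun i hi => Dvd.dvd.mul_left (dvd_pow_self b ?_) _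
    rintro rfl
    exact hcon hi
  have h8 := h4 0 h0J
  rw [hfv 0 h0J, pow_zero, mul_one, hxn] at h8
  exact ⟨d 0, (hd 0 h0J).2, (hd 0 h0J).1, h8⟩

/-- **Sums of two powers**, with an absolute constant. -/
theorem two_set : ∃ C : ℕ, 1 ≤ C ∧ ∀ (A : Set ℂˣ) (B : ℕ), RkLe A B → ∀ c d a b : ℂ, c ≠ 0 →
    d ≠ 0 → a ≠ 0 → b ≠ 0 →
    ((∀ n : ℕ, n ≠ 0 → a ^ n ≠ b ^ n) →
      ∀ E : Finset ℤ, (∀ n ∈ E, ∃ x ∈ A, (x : ℂ) = c * a ^ n + d * b ^ n) → E.card ≤ C ^ (B + 3)) ∧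
    ((∀ n m : ℤ, a ^ n = b ^ m → n = 0 ∧ m = 0) →
      ∀ E : Finset (ℤ × ℤ), (∀ e ∈ E, ∃ x ∈ A, (x : ℂ) = c * a ^ e.1 + d * b ^ e.2) →
        E.card ≤ C ^ (B + 3)) := by
  classical
  obtain ⟨C, hC1, hC⟩ := Pool.Agent.U945.BR.three
  refine ⟨C, hC1, fun A B hB c d a b hc hd ha hb => ?_⟩
  obtain ⟨n, X, hn, hX, hmax⟩ := max_indep_set hB
  have hdiv : ∀ y ∈ A, Pool.Agent.N175.BG.InDiv (fun j => (X j : ℂ)) (y : ℂ) := by
    intro y hy
    obtain ⟨m, hm, k, hk⟩ := hmax y hy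
    refine ⟨m, hm, k, ?_⟩
    rw [← Units.val_pow_eq_pow_val, hk, Units.coe_prod]
    exact Finset.prod_congr rfl fun j _ => Units.val_zpow_eq_zpow_val _ _
  obtain ⟨-, h2, h3⟩ := hC n {z : ℂ | ∃ x ∈ A, (x : ℂ) = z} ⟨fun j => (X j : ℂ),
    fun j => (X j).ne_zero, by
      rintro _ ⟨x, hx, rfl⟩
      exact ⟨x.ne_zero, hdiv x hx⟩⟩ c d hc hd
  refine ⟨fun hab E hE => (h2 a b ha hb hab E hE).trans (Nat.pow_le_pow_right hC1 (by omega)),
    fun hab E hE => (h3 a b ha hb hab E hE).trans (Nat.pow_le_pow_right hC1 (by omega))⟩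

end Pool.Agent.U945.LA
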