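import Pool.Agent.U945.LA.One

set_option autoImplicit false

/-!
# Sums, products and powers of `π` and `e` at all algebraic numbers
-/

namespace Pool.Agent.U945.LA

open Finset Module
open Pool.Agent.U945.RD (hypK_Lt abs_rank_vec)
open Pool.Agent.H301R2.SSE (QB mem_QB Lt Lt_one Lt_alg Lt_log Lt_mul Lg mem_Lg LB LB_log)

/-- logarithm up to a rational multiple of `2 π i` -/
def IsLg (x : ℂˣ) (l : ℂ) : Prop := ∃ n : ℕ, 0 < n ∧ Complex.exp (n * l) = (x : ℂ) ^ n

theorem IsLg.shift {x : ℂˣ} {l : ℂ} (h : IsLg x l) (q : ℚ) :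
    IsLg x (l + q * (Real.pi * Complex.I)) := by
  obtain ⟨n, hn, h⟩ := h
  refine ⟨2 * q.den * n, by positivity, ?_⟩
  have e1 : ((2 * q.den * n : ℕ) : ℂ) * (l + q * (Real.pi * Complex.I)) =
      ((2 * q.den : ℕ) : ℂ) * (n * l) + ((q.num * n : ℤ) : ℂ) * (2 * Real.pi * Complex.I) := by
    have h1 : (q : ℂ) * q.den = q.num := by
      exact_mod_cast Rat.mul_den_eq_num q
    push_cast
    linear_combination (2 * n * Real.pi * Complex.I : ℂ) * h1
  rw [e1, Complex.exp_add, Complex.exp_int_mul_two_pi_mul_I, mul_one, Complex.exp_nat_mul, h,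
    ← pow_mul]
  ring

/-- logarithms of multiplicatively independent numbers, and `π i` -/
theorem li_pi {n : ℕ} {X : Fin n → ℂˣ} {l : Fin n → ℂ} (hl : ∀ j, IsLg (X j) (l j))
    (hmi : ∀ k : Fin n → ℤ, ∏ j, X j ^ k j = 1 → k = 0) :
    LinearIndependent ℚ (Fin.cons (Real.pi * Complex.I) l : Fin (n + 1) → ℂ) := by
  classical
  have key : ∀ l' : Fin n → ℂ, (∀ j, IsLg (X j) (l' j)) → LinearIndependent ℚ l' := by
    intro l' hl'
    have hlog : ∀ j, IsLog (fun _ : Fin 1 => X j) (fun _ => l' j) := fun j _ => hl' j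
    have hli := li_of_mi hlog (fun k hk => hmi k (by
      have := congrFun hk 0
      rw [Finset.prod_apply] at this
      exact this))
    rw [Fintype.linearIndependent_iff] at hli ⊢
    intro g hg
    apply hli g
    funext i
    rw [Finset.sum_apply]
    exact hg
  rw [linearIndependent_finCons]
  refine ⟨key l hl, fun h => ?_⟩
  rw [Submodule.mem_span_range_iff_exists_fun] at h
  obtain ⟨c, hc⟩ := h
  have hpi : (Real.pi * Complex.I : ℂ) ≠ 0 :=
    mul_ne_zero (by exact_mod_cast Real.pi_ne_zero) Complex.I_ne_zero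
  obtain ⟨j₀, hj₀⟩ : ∃ j, c j ≠ 0 := by
    by_contra hcon
    push Not at hcon
    apply hpi
    rw [← hc]
    exact Finset.sum_eq_zero fun j _ => by rw [hcon j, zero_smul]
  have h1 := key (fun j => l j + ((if j = j₀ then -(c j₀)⁻¹ else 0 : ℚ) : ℂ) *
    (Real.pi * Complex.I)) (fun j => (hl j).shift _)
  rw [Fintype.linearIndependent_iff] at h1
  apply hj₀
  apply h1 c
  have h2 : ∀ j, c j • (l j + ((if j = j₀ then -(c j₀)⁻¹ else 0 : ℚ) : ℂ) *
      (Real.pi * Complex.I)) = c j • l j + (if j = j₀ then -(Real.pi * Complex.I : ℂ) else 0) := by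
    intro j
    rw [smul_add]
    congr 1
    split_ifs with h
    · rw [h, Rat.smul_def]
      push_cast
      have : (c j₀ : ℂ) ≠ 0 := by exact_mod_cast hj₀
      field_simp
    · simp
  rw [Finset.sum_congr rfl fun j _ => h2 j, Finset.sum_add_distrib, hc]
  simp

/-- the rank, from a bound for logarithms -/
theorem rkLe_of_logs_pi {A : Set ℂˣ} {R : ℂ → Prop} {B : ℕ}
    (hR : ∀ (m : ℕ) (l : Fin m → ℂ), (∀ i, IsAlgebraic ℚ (Complex.exp (l i))) →
      LinearIndependent ℚ (Fin.cons (Real.pi * Complex.I) l : Fin (m + 1) → ℂ) →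
      (∀ i, R (l i)) → m ≤ B)
    (hA : ∀ x ∈ A, IsAlgebraic ℚ (x : ℂ) ∧ ∃ l : ℂ, (∃ n : ℕ, 0 < n ∧
      Complex.exp (n * l) = (x : ℂ) ^ n) ∧ R l) : RkLe A B := by
  intro n X hX hmi
  choose hXa l hl hRl using fun j => hA (X j) (hX j)
  refine hR n l (fun i => ?_) (li_pi hl hmi) hRl
  obtain ⟨k, hk, h⟩ := hl i
  apply IsAlgebraic.of_pow hk
  rw [← Complex.exp_nat_mul, h]
  exact (hXa i).pow _

theorem exp_pi_I_alg : IsAlgebraic ℚ (Complex.exp (Real.pi * Complex.I)) := by
  rw [Complex.exp_pi_mul_I]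
  exact isAlgebraic_one.neg

theorem cons_alg {m : ℕ} {l : Fin m → ℂ} (halg : ∀ i, IsAlgebraic ℚ (Complex.exp (l i))) :
    ∀ i, IsAlgebraic ℚ (Complex.exp ((Fin.cons (Real.pi * Complex.I) l : Fin (m + 1) → ℂ) i)) := by
  intro i
  refine Fin.cases ?_ (fun i => ?_) i
  · rw [Fin.cons_zero]; exact exp_pi_I_alg
  · rw [Fin.cons_succ]; exact halg i

theorem isAlgebraic_I' : IsAlgebraic ℚ Complex.I := Pool.Agent.H340R2.LW.isAlgebraic_I

/-- linear forms in one logarithm, `1` and `π` -/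
theorem li_forms {m : ℕ} {l : Fin m → ℂ} (halg : ∀ i, IsAlgebraic ℚ (Complex.exp (l i)))
    (hli : LinearIndependent ℚ (Fin.cons (Real.pi * Complex.I) l : Fin (m + 1) → ℂ))
    {b d : Fin m → ℂ} (hb : ∀ i, IsAlgebraic ℚ (b i)) (hd : ∀ i, IsAlgebraic ℚ (d i))
    {b₀ d₀ : ℂ} (hb₀ : IsAlgebraic ℚ b₀) (hd₀ : IsAlgebraic ℚ d₀) (h0 : b₀ + d₀ * Real.pi ≠ 0) :
    LinearIndependent QB (Fin.cons (b₀ + d₀ * Real.pi) (fun i => l i + b i + d i * Real.pi) :
      Fin (m + 1) → ℂ) := by
  rw [Fintype.linearIndependent_iff]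
  intro g hg
  rw [Fin.sum_univ_succ] at hg
  simp only [Fin.cons_zero, Fin.cons_succ] at hg
  have hga : ∀ i, IsAlgebraic ℚ (g i : ℂ) := fun i => mem_QB.1 (g i).2
  have hs : ∀ u : Fin m → ℂ, (∀ i, IsAlgebraic ℚ (u i)) →
      IsAlgebraic ℚ (∑ i, (g i.succ : ℂ) * u i) := fun u hu =>
    mem_QB.1 (sum_mem fun i _ => mem_QB.2 ((hga i.succ).mul (hu i)))
  have h1 := Pool.Agent.H297R2.baker_inhom _ (cons_alg halg) hli
    ((g 0 : ℂ) * b₀ + ∑ i : Fin m, (g i.succ : ℂ) * b i)
    (((hga 0).mul hb₀).add (hs b hb))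
    (Fin.cons (-Complex.I * ((g 0 : ℂ) * d₀ + ∑ i : Fin m, (g i.succ : ℂ) * d i))
      (fun i => (g i.succ : ℂ))) (fun i => by
      refine Fin.cases ?_ (fun i => ?_) i
      · rw [Fin.cons_zero]
        exact isAlgebraic_I'.neg.mul (((hga 0).mul hd₀).add (hs d hd))
      · rw [Fin.cons_succ]
        exact hga _) (by
      rw [Fin.sum_univ_succ]
      simp only [Fin.cons_zero, Fin.cons_succ]
      rw [← hg]
      have e1 : ∀ i : Fin m, g i.succ • (l i + b i + d i * (Real.pi : ℂ)) =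
          (g i.succ : ℂ) * l i + ((g i.succ : ℂ) * b i + (g i.succ : ℂ) * d i * Real.pi) := by
        intro i
        rw [Algebra.smul_def]
        change (g i.succ : ℂ) * _ = _
        ring
      have e2 : g 0 • (b₀ + d₀ * (Real.pi : ℂ)) = (g 0 : ℂ) * (b₀ + d₀ * Real.pi) := by
        rw [Algebra.smul_def]
        rfl
      rw [e2, Finset.sum_congr rfl fun i _ => e1 i, Finset.sum_add_distrib,
        Finset.sum_add_distrib, ← Finset.sum_mul]
      have := Complex.I_mul_I
      linear_combination (-(Real.pi : ℂ) *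
        ((g 0 : ℂ) * d₀ + ∑ i : Fin m, (g i.succ : ℂ) * d i)) * this)
  have h2 : ∀ i : Fin m, g i.succ = 0 := fun i => Subtype.ext (by
    have := h1.2 i.succ
    rwa [Fin.cons_succ] at this)
  have h3 : g 0 = 0 := by
    rw [Finset.sum_eq_zero (fun i _ => by rw [h2 i, zero_smul]), add_zero, smul_eq_zero] at hg
    rcases hg with h | h
    · exact h
    · exact absurd h h0
  intro i
  exact Fin.cases h3 h2 i

/-- linear forms with one further number `Z` -/
theorem count {v Z : ℂ} (hv : Transcendental ℚ v) {m : ℕ} {l : Fin m → ℂ}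
    (halg : ∀ i, IsAlgebraic ℚ (Complex.exp (l i)))
    (hli : LinearIndependent ℚ (Fin.cons (Real.pi * Complex.I) l : Fin (m + 1) → ℂ))
    (h : ∀ i, ∃ a b d : ℂ, IsAlgebraic ℚ a ∧ IsAlgebraic ℚ b ∧ IsAlgebraic ℚ d ∧
      v * (l i + a * Z + b + d * Real.pi) ∈ Lt) :
    m ≤ 3 ∧ ∀ b₀ d₀ : ℂ, IsAlgebraic ℚ b₀ → IsAlgebraic ℚ d₀ → b₀ + d₀ * Real.pi ≠ 0 →
      v * (b₀ + d₀ * Real.pi) ∈ Lt → m ≤ 2 := by
  choose a b d ha hb hd h using h
  set V : Submodule QB ℂ := Submodule.span QB {v * Z} with hV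
  have hVr : finrank QB V ≤ 1 := by
    have := finrank_span_le_card (R := QB) ({v * Z} : Set ℂ)
    simpa using this
  have hLt : ∀ i, l i + b i + d i * Real.pi ∈ Lt := fun i =>
    add_mem (add_mem (Lt_log (halg i)) (Lt_alg (hb i)))
      (Lt_mul (hd i) Pool.Agent.HP778.pi_mem_Lt)
  have hvLt : ∀ i, v * (l i + b i + d i * Real.pi) ∈ Lt ⊔ V := by
    intro i
    have e1 : v * (l i + b i + d i * (Real.pi : ℂ)) =
        v * (l i + a i * Z + b i + d i * Real.pi) + -(a i * (v * Z)) := by ring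
    rw [e1]
    refine add_mem (Submodule.mem_sup_left (h i)) (Submodule.mem_sup_right (neg_mem ?_))
    have := V.smul_mem (⟨a i, mem_QB.2 (ha i)⟩ : QB)
      (Submodule.mem_span_singleton_self (v * Z))
    rw [Algebra.smul_def] at this
    exact this
  have hlam : LinearIndependent QB (Fin.cons 1 (fun _ : Fin 1 => v) : Fin (1 + 1) → ℂ) := by
    rw [linearIndependent_finCons]
    constructor
    · rw [linearIndependent_unique_iff]
      intro h0
      exact hv (by
        change v = 0 at h0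
        rw [h0]
        exact isAlgebraic_zero)
    · intro h1
      rw [Submodule.mem_span_range_iff_exists_fun] at h1
      obtain ⟨c, hc⟩ := h1
      rw [Fin.sum_univ_one, Algebra.smul_def] at hc
      change (c 0 : ℂ) * v = 1 at hc
      have hc0 : (c 0 : ℂ) ≠ 0 := by
        intro h0
        rw [h0, zero_mul] at hc
        exact zero_ne_one hc
      apply hv
      have : v = (c 0 : ℂ)⁻¹ := by
        field_simp
        rw [mul_comm]
        exact hc
      rw [this]
      exact (mem_QB.1 (c 0).2).inv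
  have vec : ∀ {n : ℕ} {w : Fin n → ℂ}, LinearIndependent QB w → (∀ i, w i ∈ Lt) →
      (∀ i, v * w i ∈ Lt ⊔ V) → n ≤ 3 := by
    intro n w hw hw1 hw2
    have h1 := abs_rank_vec (n := n) (d := 1) hypK_Lt V (w := fun i _ => w i)
      (by
        rw [Fintype.linearIndependent_iff] at hw ⊢
        intro g hg
        apply hw g
        have := congrFun hg 0
        rw [Finset.sum_apply] at this
        exact this) (fun j _ => hw1 j) (lam := fun _ => v) hlam
      (fun j => by rw [Fin.sum_univ_one]; exact hw2 j)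
    omega
  constructor
  · have h2 := li_forms halg hli hb hd isAlgebraic_one isAlgebraic_zero (b₀ := 1) (d₀ := 0)
      (by simp)
    rw [linearIndependent_finCons] at h2
    exact vec h2.1 hLt hvLt
  · intro b₀ d₀ hb₀ hd₀ h0 hw
    have h2 := vec (li_forms halg hli hb hd hb₀ hd₀ h0) (fun i => by
      refine Fin.cases ?_ (fun i => ?_) i
      · rw [Fin.cons_zero]
        exact add_mem (Lt_alg hb₀) (Lt_mul hd₀ Pool.Agent.HP778.pi_mem_Lt)
      · rw [Fin.cons_succ]
        exact hLt i) (fun i => by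
      refine Fin.cases ?_ (fun i => ?_) i
      · rw [Fin.cons_zero]
        exact Submodule.mem_sup_left hw
      · rw [Fin.cons_succ]
        exact hvLt i)
    omega

/-- the elements of a set of bounded rank in an independent family -/
theorem RkLe.card_le {A : Set ℂˣ} {a : ℕ} (hA : RkLe A a) {n : ℕ} {X : Fin n → ℂˣ}
    (hmi : ∀ k : Fin n → ℤ, ∏ j, X j ^ k j = 1 → k = 0) (S : Finset (Fin n))
    (hS : ∀ j ∈ S, X j ∈ A) : S.card ≤ a := by
  classical
  set e := S.equivFin with he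
  refine hA S.card (fun i => X (e.symm i)) (fun i => hS _ (e.symm i).2) (fun k hk => ?_)
  have h1 := hmi (fun j => if h : j ∈ S then k (e ⟨j, h⟩) else 0) (by
    have h2 : ∀ j, X j ^ (if h : j ∈ S then k (e ⟨j, h⟩) else 0) =
        if h : j ∈ S then X j ^ k (e ⟨j, h⟩) else 1 := by
      intro j
      split_ifs with h
      · rfl
      · rw [zpow_zero]
    rw [Finset.prod_congr rfl fun j _ => h2 j]
    rw [← Finset.prod_subset (Finset.subset_univ S) (fun j _ hj => by rw [dif_neg hj])]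
    rw [← Finset.prod_coe_sort, ← hk]
    rw [← e.symm.prod_comp]
    refine Finset.prod_congr rfl fun i _ => ?_
    rw [dif_pos (e.symm i).2]
    congr 2
    simp)
  funext i
  have h3 := congrFun h1 (e.symm i)
  rw [dif_pos (e.symm i).2] at h3
  rw [Pi.zero_apply] at h3 ⊢
  rw [← h3]
  congr 1
  simp

theorem RkLe.union {A B : Set ℂˣ} {a b : ℕ} (hA : RkLe A a) (hB : RkLe B b) :
    RkLe (A ∪ B) (a + b) := by
  classical
  intro n X hX hmi
  have h1 := hA.card_le hmi (univ.filter fun j => X j ∈ A) (fun j hj => (mem_filter.1 hj).2)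
  have h2 := hB.card_le hmi (univ.filter fun j => ¬ X j ∈ A) (fun j hj =>
    (hX j).resolve_left (mem_filter.1 hj).2)
  have h3 := Finset.card_filter_add_card_filter_not (s := (univ : Finset (Fin n)))
    (fun j => X j ∈ A)
  rw [Finset.card_univ, Fintype.card_fin] at h3
  omega

theorem RkLe.mono {A B : Set ℂˣ} {b : ℕ} (hB : RkLe B b) (h : A ⊆ B) : RkLe A b :=
  fun n X hX hmi => hB n X (fun j => h (hX j)) hmi

theorem RkLe.weaken {A : Set ℂˣ} {a b : ℕ} (hA : RkLe A a) (h : a ≤ b) : RkLe A b :=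
  fun n X hX hmi => (hA n X hX hmi).trans h

theorem rkLe_empty : RkLe (∅ : Set ℂˣ) 0 := by
  intro n X hX hmi
  by_contra hcon
  exact hX ⟨0, by omega⟩

/-- a set with at most one element -/
theorem rkLe_one {A : Set ℂˣ} (hA : A.Subsingleton) : RkLe A 1 := by
  classical
  intro n X hX hmi
  by_contra hcon
  push Not at hcon
  have h01 : X ⟨0, by omega⟩ = X ⟨1, by omega⟩ := hA (hX _) (hX _)
  have h1 := hmi (Pi.single ⟨0, by omega⟩ 1 - Pi.single ⟨1, by omega⟩ 1) (by
    have h2 : ∀ j, X j ^ ((Pi.single ⟨0, by omega⟩ 1 - Pi.single ⟨1, by omega⟩ 1 : Fin n → ℤ) j) =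
        (if j = ⟨0, by omega⟩ then X j else 1) * (if j = ⟨1, by omega⟩ then (X j)⁻¹ else 1) := by
      intro j
      rw [Pi.sub_apply, zpow_sub]
      congr 1
      · rw [Pi.single_apply]
        split_ifs <;> simp
      · rw [Pi.single_apply]
        split_ifs <;> simp
    rw [Finset.prod_congr rfl fun j _ => h2 j, Finset.prod_mul_distrib, Finset.prod_ite_eq',
      Finset.prod_ite_eq', if_pos (mem_univ _), if_pos (mem_univ _), h01, mul_inv_cancel])
  have h3 := congrFun h1 ⟨0, by omega⟩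
  rw [Pi.sub_apply, Pi.single_eq_same, Pi.single_eq_of_ne (by simp)] at h3
  simp at h3

end Pool.Agent.U945.LA
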