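import Pool.Agent.TH936.NF.Gal
import Pool.Agent.Helper477.Sph.Bd1

set_option autoImplicit false

/-!
# Vanishing sums of products of roots of unity with elements of a finite-dimensional space
-/

namespace Pool.Agent.U945.LA

open Polynomial Finset

/-- grouping of the terms of a sum of exponentials -/
theorem group_sum {F ι : Type*} [Field F] [DecidableEq F] (s : Finset ι) (B : ℕ) (hB : s.card ≤ B)
    (w z : ι → F) (h : ∀ k < B, ∑ i ∈ s, w i * z i ^ k = 0) (ω : F) :
    ∑ i ∈ s with z i = ω, w i = 0 := by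
  classical
  by_cases hω : ω ∈ s.image z
  · set p : F[X] := ∏ v ∈ (s.image z).erase ω, (X - C v) with hp
    have hdeg : p.natDegree < B := by
      rw [hp, natDegree_prod_of_monic _ _ (fun v _ => monic_X_sub_C v)]
      simp only [natDegree_X_sub_C, Finset.sum_const, smul_eq_mul, mul_one]
      rw [Finset.card_erase_of_mem hω]
      have h1 : (s.image z).card ≤ s.card := Finset.card_image_le
      have h2 : 0 < (s.image z).card := Finset.card_pos.2 ⟨_, hω⟩
      omega
    have h1 : ∑ i ∈ s, w i * p.eval (z i) = 0 := by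
      simp only [eval_eq_sum_range, Finset.mul_sum]
      rw [Finset.sum_comm]
      refine Finset.sum_eq_zero fun k hk => ?_
      calc ∑ i ∈ s, w i * (p.coeff k * z i ^ k) = p.coeff k * ∑ i ∈ s, w i * z i ^ k := by
            rw [Finset.mul_sum]
            exact Finset.sum_congr rfl fun i _ => by ring
        _ = 0 := by
          have := Finset.mem_range.1 hk
          rw [h k (by omega), mul_zero]
    have h2 : ∀ i ∈ s, z i ≠ ω → p.eval (z i) = 0 := by
      intro i hi hne
      rw [hp, eval_prod]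
      apply Finset.prod_eq_zero (i := z i)
      · exact Finset.mem_erase.2 ⟨hne, Finset.mem_image_of_mem z hi⟩
      · simp
    have h3 : p.eval ω ≠ 0 := by
      rw [hp, eval_prod, Finset.prod_ne_zero_iff]
      intro v hv
      rw [eval_sub, eval_X, eval_C, sub_ne_zero]
      exact (Finset.mem_erase.1 hv).1.symm
    have h4 : (∑ i ∈ s with z i = ω, w i) * p.eval ω = 0 := by
      rw [← h1, Finset.sum_mul, Finset.sum_filter]
      refine Finset.sum_congr rfl fun i hi => ?_
      by_cases h5 : z i = ω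
      · rw [if_pos h5, h5]
      · rw [if_neg h5, h2 i hi h5, mul_zero]
    exact (mul_eq_zero.1 h4).resolve_right h3
  · rw [Finset.filter_false_of_mem, Finset.sum_empty]
    intro i hi h
    exact hω (h ▸ Finset.mem_image_of_mem z hi)

/-- two integers which are prime to `m` -/
theorem exists_t (M m : ℕ) (hM : Even M) (hm : 0 < m) :
    ∃ t : ℕ, 0 < t ∧ t.Coprime m ∧ (1 + M * t).Coprime m := by
  classical
  set a : ℕ := ∏ p ∈ m.primeFactors with ¬ p ∣ 1 + M, p with ha
  set b : ℕ := ∏ p ∈ m.primeFactors with p ∣ 1 + M, p with hb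
  have hb0 : 0 < b := Finset.prod_pos fun p hp =>
    (Nat.prime_of_mem_primeFactors (Finset.mem_filter.1 hp).1).pos
  have hab : a.Coprime b := by
    rw [ha, Nat.coprime_prod_left_iff]
    intro p hp
    rw [hb, Nat.coprime_prod_right_iff]
    intro q hq
    rw [Finset.mem_filter] at hp hq
    rw [Nat.coprime_primes (Nat.prime_of_mem_primeFactors hp.1)
      (Nat.prime_of_mem_primeFactors hq.1)]
    rintro rfl
    exact hp.2 hq.2
  have hphi : 0 < b.totient := Nat.totient_pos.2 hb0
  have hmod : a ^ b.totient ≡ 1 [MOD b] := Nat.ModEq.pow_totient hab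
  have key : ∀ p : ℕ, p.Prime → p ∣ m → ¬ p ∣ 1 + a ^ b.totient ∧
      ¬ p ∣ 1 + M * (1 + a ^ b.totient) := by
    intro p hp hpm
    have hpm' : p ∈ m.primeFactors := Nat.mem_primeFactors.2 ⟨hp, hpm, hm.ne'⟩
    by_cases h1 : p ∣ 1 + M
    · have hpb : p ∣ b := Finset.dvd_prod_of_mem _ (Finset.mem_filter.2 ⟨hpm', h1⟩)
      have h2 : a ^ b.totient ≡ 1 [MOD p] := hmod.of_dvd hpb
      have hodd : ¬ p ∣ 2 := by
        intro h
        have h3 : p = 2 := (Nat.prime_dvd_prime_iff_eq hp Nat.prime_two).1 h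
        rw [h3] at h1
        obtain ⟨c, hc⟩ := hM
        omega
      constructor
      · intro h
        apply hodd
        have h3 : 1 + a ^ b.totient ≡ 1 + 1 [MOD p] := Nat.ModEq.add_left 1 h2
        exact (Nat.modEq_zero_iff_dvd).1 (h3.symm.trans ((Nat.modEq_zero_iff_dvd).2 h))
      · intro h
        have h3 : 1 + M * (1 + a ^ b.totient) ≡ 1 + M * (1 + 1) [MOD p] :=
          Nat.ModEq.add_left 1 (Nat.ModEq.mul_left M (Nat.ModEq.add_left 1 h2))
        have h4 : p ∣ 1 + M * (1 + 1) :=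
          (Nat.modEq_zero_iff_dvd).1 (h3.symm.trans ((Nat.modEq_zero_iff_dvd).2 h))
        have h5 : 1 + M * (1 + 1) + 1 = 2 * (1 + M) := by ring
        have h6 : p ∣ 1 + M * (1 + 1) + 1 := by
          rw [h5]
          exact Dvd.dvd.mul_left h1 2
        have h7 : p ∣ 1 := (Nat.dvd_add_right h4).1 h6
        exact hp.one_lt.ne' (Nat.dvd_one.1 h7)
    · have hpa : p ∣ a := Finset.dvd_prod_of_mem _ (Finset.mem_filter.2 ⟨hpm', h1⟩)
      have hpa' : p ∣ a ^ b.totient := Dvd.dvd.trans hpa (dvd_pow_self a hphi.ne')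
      constructor
      · intro h
        have h7 : p ∣ 1 := (Nat.dvd_add_left hpa').1 h
        exact hp.one_lt.ne' (Nat.dvd_one.1 h7)
      · intro h
        apply h1
        have h8 : 1 + M * (1 + a ^ b.totient) = (1 + M) + M * a ^ b.totient := by ring
        rw [h8] at h
        exact (Nat.dvd_add_left (Dvd.dvd.mul_left hpa' M)).1 h
  refine ⟨1 + a ^ b.totient, by omega, ?_, ?_⟩
  · exact Nat.coprime_of_dvd fun p hp h1 h2 => (key p hp h2).1 h1
  · exact Nat.coprime_of_dvd fun p hp h1 h2 => (key p hp h2).2 h1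

/-- **Torsion.** -/
theorem torsion (W : Submodule ℚ ℂ) (hW : W.FG) (n : ℕ) : ∃ N : ℕ, 0 < N ∧
    ∀ (w z : Fin n → ℂ), (∀ i, w i ∈ W) → (∀ i, ∃ m : ℕ, 0 < m ∧ z i ^ m = 1) →
      ∑ i, w i * z i = 0 →
      (∀ J : Finset (Fin n), J.Nonempty → ∑ i ∈ J, w i * z i = 0 → J = univ) →
      ∀ i j, (z i / z j) ^ N = 1 := by
  classical
  obtain ⟨M, hM, hgal⟩ := Pool.Agent.TH936.NF.galW W hW
  set B : ℕ := max M (n + 1) with hB
  set N : ℕ := B.factorial with hN
  have hMB : M ≤ B := le_max_left _ _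
  have hnB : n + 1 ≤ B := le_max_right _ _
  have hMN : M ∣ N := Nat.dvd_factorial hM hMB
  refine ⟨N, Nat.factorial_pos _, fun w z hw hz h0 hmin i j => ?_⟩
  choose m hm hzm using hz
  set D : ℕ := ∏ i, m i with hD
  have hD0 : 0 < D := Finset.prod_pos fun i _ => hm i
  have hzD : ∀ i, z i ^ D = 1 := by
    intro i
    obtain ⟨c, hc⟩ : m i ∣ D := Finset.dvd_prod_of_mem m (mem_univ i)
    rw [hc, pow_mul, hzm, one_pow]
  have hDN : 0 < D * N := Nat.mul_pos hD0 (Nat.factorial_pos _)
  obtain ⟨t, ht⟩ := Pool.Agent.Helper477.Sph.exists_ap (D * N) B hDN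
  have ht0 : t.Coprime (D * N) := by simpa using ht 0 (by omega)
  have hphi : 0 < (D * N).totient := Nat.totient_pos.2 hDN
  obtain ⟨s, hs, hsco⟩ : ∃ s : ℕ, t * s ≡ 1 [MOD D * N] ∧ s.Coprime (D * N) := by
    refine ⟨t ^ ((D * N).totient - 1), ?_, ht0.pow_left _⟩
    rw [← pow_succ', Nat.sub_add_cancel hphi]
    exact Nat.ModEq.pow_totient ht0
  have hts : ∀ {x : ℂ}, x ^ D = 1 → x ^ (s * t) = x := by
    intro x hx
    have h1 : s * t ≡ 1 [MOD D] := by
      rw [mul_comm]
      exact Nat.ModEq.of_mul_right N hs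
    have h2 := Pool.Agent.Helper477.Sph.pow_eq_of_modEq hx h1
    rw [h2, pow_one]
  have hk : ∀ k < B, ∑ i, (w i * z i) * (z i ^ (s * N)) ^ k = 0 := by
    intro k hk
    have h1 := hgal D (s * (t + k * N)) hD0 ?_ ?_ (Fin n) z w hzD hw ?_
    · rw [← h1]
      refine Finset.sum_congr rfl fun i _ => ?_
      have h2 : z i ^ (s * (t + k * N)) = z i * (z i ^ (s * N)) ^ k := by
        rw [mul_add, pow_add, hts (hzD i), ← pow_mul]
        congr 2
        ring
      rw [h2]
      ring
    · exact Nat.Coprime.mul_left (hsco.coprime_mul_right_right)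
        ((ht k hk).coprime_mul_right_right)
    · have h2 : s * (t + k * N) ≡ 1 [MOD M] := by
        have h3 : s * (t + k * N) = t * s + (s * k) * N := by ring
        rw [h3]
        have h4 : t * s ≡ 1 [MOD M] := (Nat.ModEq.of_mul_left D hs).of_dvd hMN
        have h5 : (s * k) * N ≡ 0 [MOD M] := (Nat.modEq_zero_iff_dvd).2 (Dvd.dvd.mul_left hMN _)
        simpa using h4.add h5
      exact h2
    · rw [← h0]
      exact Finset.sum_congr rfl fun i _ => mul_comm _ _
  have hgr := group_sum (univ : Finset (Fin n)) B (by simp; omega) (fun i => w i * z i)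
    (fun i => z i ^ (s * N)) hk (z i ^ (s * N))
  have h5 := hmin _ ⟨i, by simp⟩ hgr
  have h6 : z j ^ (s * N) = z i ^ (s * N) := by
    have : j ∈ (univ : Finset (Fin n)).filter (fun a => z a ^ (s * N) = z i ^ (s * N)) := by
      rw [h5]; exact mem_univ j
    exact (Finset.mem_filter.1 this).2
  have hzj : z j ≠ 0 := by
    intro h
    have := hzm j
    rw [h, zero_pow (hm j).ne'] at this
    exact zero_ne_one this
  have h7 : ((z i / z j) ^ N) ^ s = 1 := by
    rw [← pow_mul, mul_comm N s, div_pow, h6, div_self (pow_ne_zero _ (by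
      intro h
      have := hzm i
      rw [h, zero_pow (hm i).ne'] at this
      exact zero_ne_one this))]
  have h8 : ((z i / z j) ^ N) ^ D = 1 := by
    rw [← pow_mul, mul_comm, pow_mul, div_pow, hzD, hzD, div_one, one_pow]
  have h10 : ((z i / z j) ^ N) ^ (s.gcd D) = 1 := pow_gcd_eq_one.2 ⟨h7, h8⟩
  have h11 : s.gcd D = 1 := hsco.coprime_mul_right_right
  rw [h11, pow_one] at h10
  exact h10

end Pool.Agent.U945.LA
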